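import Pool.Agent.Helper77.HVecDC

/-!
McMullen's sum formula, the inequality `(i+1) H_{i+1} ≤ (m - r + i) H_i`, and the deterministic
criterion for a nondecreasing H-vector.
-/

open Polynomial Matroid Set

namespace Pool.Agent.Helper77

set_option linter.unusedSectionVars false
set_option linter.unusedSimpArgs false

variable {α : Type*} [Fintype α] [DecidableEq α]

open scoped Classical in
/-- the nonloops, as a finset -/
noncomputable def nonloopFS (M : Matroid α) : Finset α :=
  Finset.univ.filter (fun e => M.IsNonloop e)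

lemma mem_nonloopFS {M : Matroid α} {e : α} : e ∈ nonloopFS M ↔ M.IsNonloop e := by
  classical
  simp [nonloopFS]

lemma wt_identity (r k : ℕ) (h : k ≤ r) :
    (1 - X) * derivative (wt r k) + (r : ℤ[X]) * wt r k
      = (k : ℤ[X]) * (X ^ (k - 1) * (1 - X) ^ (r - k)) := by
  obtain ⟨j, rfl⟩ := Nat.exists_eq_add_of_le h
  have e1 : k + j - k = j := by omega
  rw [wt, e1, derivative_mul, derivative_X_pow, derivative_pow]
  have e2 : derivative (1 - X : ℤ[X]) = -1 := by simp
  rw [e2]
  rcases Nat.eq_zero_or_pos k with hk | hk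
  · subst hk
    rcases Nat.eq_zero_or_pos j with hj | hj
    · subst hj
      simp
    · obtain ⟨j', rfl⟩ := Nat.exists_eq_succ_of_ne_zero hj.ne'
      simp only [Nat.succ_eq_add_one, Nat.add_sub_cancel, Nat.cast_zero, map_zero, pow_succ]
      push_cast
      simp only [map_natCast, C_add, C_1, Int.cast_add, map_add, map_one]
      ring
  · obtain ⟨k', rfl⟩ := Nat.exists_eq_succ_of_ne_zero hk.ne'
    rcases Nat.eq_zero_or_pos j with hj | hj
    · subst hj
      simp only [Nat.succ_eq_add_one, Nat.add_sub_cancel, Nat.cast_zero, map_zero, pow_succ]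
      push_cast
      simp only [map_natCast, C_add, C_1, map_add, map_one]
      ring
    · obtain ⟨j', rfl⟩ := Nat.exists_eq_succ_of_ne_zero hj.ne'
      simp only [Nat.succ_eq_add_one, Nat.add_sub_cancel, pow_succ]
      push_cast
      simp only [map_natCast, C_add, C_1, map_add, map_one]
      ring

/-- McMullen's formula. -/
lemma sum_hPoly_contract (M : Matroid α) :
    ∑ e ∈ nonloopFS M, hPoly (M ／ {e})
      = (1 - X) * derivative (hPoly M) + (rk M : ℤ[X]) * hPoly M := by
  classical
  have h1 : ∀ e ∈ nonloopFS M, hPoly (M ／ {e})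
      = ∑ I ∈ (indepFS M).filter (fun I => e ∈ I),
        X ^ (I.card - 1) * (1 - X) ^ (rk M - I.card) := by
    intro e he
    rw [mem_nonloopFS] at he
    rw [sum_indep_contract he (fun n => X ^ (n - 1) * (1 - X) ^ (rk M - n)), hPoly_eq_sum]
    refine Finset.sum_congr rfl fun I _ => ?_
    rw [wt, rk_contract he, Nat.add_sub_cancel, Nat.add_sub_add_right]
  rw [Finset.sum_congr rfl h1]
  simp_rw [Finset.sum_filter]
  rw [Finset.sum_comm]
  rw [hPoly_eq_sum, derivative_sum, Finset.mul_sum, Finset.mul_sum, ← Finset.sum_add_distrib]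
  refine Finset.sum_congr rfl fun I hI => ?_
  rw [mem_indepFS] at hI
  rw [wt_identity _ _ (card_le_rk hI), ← Finset.sum_filter, Finset.sum_const]
  have : (nonloopFS M).filter (fun e => e ∈ I) = I := by
    ext e
    rw [Finset.mem_filter, mem_nonloopFS]
    constructor
    · exact fun h => h.2
    · exact fun h => ⟨hI.isNonloop_of_mem (by exact_mod_cast h), h⟩
  rw [this, nsmul_eq_mul]

lemma coeff_sum_contract (M : Matroid α) (i : ℕ) :
    ∑ e ∈ nonloopFS M, (hPoly (M ／ {e})).coeff i
      = (i + 1) * hVec M (i + 1) + ((rk M : ℤ) - i) * hVec M i := by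
  classical
  have h := congrArg (fun p => coeff p i) (sum_hPoly_contract M)
  simp only [finsetSum_coeff, coeff_add] at h
  rw [h]
  have h2 : ((rk M : ℤ[X]) * hPoly M).coeff i = (rk M : ℤ) * hVec M i := by
    rw [hVec, ← coeff_C_mul]
    simp
  rw [h2, sub_mul, one_mul, coeff_sub, coeff_derivative]
  cases i with
  | zero =>
    simp [hVec]
  | succ j =>
    rw [coeff_X_mul, coeff_derivative]
    simp only [hVec]
    push_cast
    ring

/-- `(i+1) H_{i+1} ≤ (m - r + i) H_i`. -/
theorem hVec_succ_le (M : Matroid α) (i : ℕ) :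
    ((i : ℤ) + 1) * hVec M (i + 1)
      ≤ ((Fintype.card α : ℤ) - rk M + i) * hVec M i := by
  classical
  have h1 := coeff_sum_contract M i
  have h2 : ∑ e ∈ nonloopFS M, (hPoly (M ／ {e})).coeff i
      ≤ ∑ _e ∈ nonloopFS M, hVec M i := by
    refine Finset.sum_le_sum fun e he => ?_
    rw [mem_nonloopFS] at he
    exact hPoly_contract_le M e he i
  rw [Finset.sum_const, nsmul_eq_mul] at h2
  have h3 : ((nonloopFS M).card : ℤ) ≤ Fintype.card α := by
    exact_mod_cast Finset.card_le_univ _
  have h4 : 0 ≤ hVec M i := hPoly_coeff_nonneg M i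
  have h5 := mul_le_mul_of_nonneg_right h3 h4
  nlinarith

lemma hVec_nonneg (M : Matroid α) (i : ℕ) : 0 ≤ hVec M i := hPoly_coeff_nonneg M i

lemma hVec_zero (M : Matroid α) : hVec M 0 = 1 := by
  classical
  rw [hVec, hPoly_eq_sum, finsetSum_coeff]
  rw [Finset.sum_eq_single ∅]
  · simp [wt, coeff_zero_eq_eval_zero]
  · intro I _ hne
    have : I.card ≠ 0 := by
      simpa using hne
    rw [wt, coeff_zero_eq_eval_zero]
    simp [this]
  · intro h
    exact absurd (mem_indepFS.2 (by simp)) h

lemma natDegree_wt_le (r k : ℕ) (h : k ≤ r) : (wt r k).natDegree ≤ r := by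
  rw [wt]
  refine (natDegree_mul_le).trans ?_
  have h1 : (X ^ k : ℤ[X]).natDegree ≤ k := natDegree_X_pow_le k
  have h2 : ((1 - X : ℤ[X]) ^ (r - k)).natDegree ≤ (r - k) * 1 := by
    refine natDegree_pow_le.trans ?_
    gcongr
    refine (natDegree_sub_le _ _).trans ?_
    simp
  omega

lemma natDegree_hPoly_le (M : Matroid α) : (hPoly M).natDegree ≤ rk M := by
  rw [hPoly_eq_sum]
  refine natDegree_sum_le_of_forall_le _ _ fun I hI => ?_
  rw [mem_indepFS] at hI
  exact natDegree_wt_le _ _ (card_le_rk hI)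

/-- the sum of the H-vector is the number of bases -/
lemma sum_hVec (M : Matroid α) :
    ∑ i ∈ Finset.range (rk M + 1), hVec M i = indepCount M (rk M) := by
  classical
  have h1 : ∑ i ∈ Finset.range (rk M + 1), hVec M i = (hPoly M).eval 1 := by
    rw [eval_eq_sum_range' (Nat.lt_succ_of_le (natDegree_hPoly_le M))]
    simp [hVec]
  rw [h1, hPoly, eval_finsetSum]
  rw [Finset.sum_eq_single (rk M)]
  · simp
  · intro i hi hne
    have : rk M - i ≠ 0 := by
      have := Finset.mem_range.1 hi
      omega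
    simp [this]
  · intro h
    exact absurd (Finset.mem_range.2 (Nat.lt_succ_self _)) h


/-- the H-vector of the uniform matroid: `a_i = C(p + i, i)`, `p = m - r - 1` -/
def uvec (p i : ℕ) : ℕ := (p + i).choose i

lemma uvec_succ (p i : ℕ) : (i + 1) * uvec p (i + 1) = (p + i + 1) * uvec p i := by
  have h := Nat.add_one_mul_choose_eq (p + i) i
  unfold uvec
  rw [show p + (i + 1) = p + i + 1 by ring]
  linarith

lemma uvec_pos (p i : ℕ) : 0 < uvec p i := Nat.choose_pos (Nat.le_add_left _ _)

lemma sum_uvec (p r : ℕ) : ∑ i ∈ Finset.range (r + 1), uvec p i = (p + r + 1).choose r := by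
  induction r with
  | zero => simp [uvec]
  | succ n ih =>
    rw [Finset.sum_range_succ, ih]
    unfold uvec
    rw [show p + (n + 1) + 1 = (p + n + 1) + 1 by ring, show p + (n + 1) = p + n + 1 by ring,
      Nat.choose_succ_succ (p + n + 1) n]

/-- The deterministic criterion: a matroid of rank `r` on `m` elements (`r < m`) with at least
`C(m-1,r-1) + C(m-2,r-1)` bases has a nondecreasing H-vector. -/
theorem nondecreasing_of_many_bases (M : Matroid α) (hr : 1 ≤ rk M) (hm : rk M < Fintype.card α)
    (hb : (Fintype.card α - 1).choose (rk M - 1) + (Fintype.card α - 2).choose (rk M - 1)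
      ≤ indepCount M (rk M)) : HVecNondecreasing M := by
  classical
  obtain ⟨p, hp⟩ : ∃ p, Fintype.card α = p + rk M + 1 := ⟨Fintype.card α - rk M - 1, by omega⟩
  obtain ⟨s, hs⟩ : ∃ s, rk M = s + 1 := ⟨rk M - 1, by omega⟩
  -- the recurrence inequality
  have hrec : ∀ i : ℕ, ((i : ℤ) + 1) * hVec M (i + 1) ≤ ((p : ℤ) + i + 1) * hVec M i := by
    intro i
    have := hVec_succ_le M i
    rw [hp] at this
    push_cast at this
    have e : ((p : ℤ) + rk M + 1 - rk M + i) = p + i + 1 := by ring
    rwa [e] at this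
  have ha : ∀ i : ℕ, ((i : ℤ) + 1) * uvec p (i + 1) = ((p : ℤ) + i + 1) * uvec p i := by
    intro i
    exact_mod_cast uvec_succ p i
  have hapos : ∀ i, (0 : ℤ) < uvec p i := fun i => by exact_mod_cast uvec_pos p i
  have hnn := hVec_nonneg M
  -- eta is nonincreasing
  have hstep : ∀ i, hVec M (i + 1) * uvec p i ≤ hVec M i * uvec p (i + 1) := by
    intro i
    have h1 := mul_le_mul_of_nonneg_right (hrec i) (hapos i).le
    have h2 : ((i : ℤ) + 1) * (hVec M (i + 1) * uvec p i)
        ≤ ((i : ℤ) + 1) * (hVec M i * uvec p (i + 1)) := by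
      calc ((i : ℤ) + 1) * (hVec M (i + 1) * uvec p i)
          = ((i : ℤ) + 1) * hVec M (i + 1) * uvec p i := by ring
        _ ≤ ((p : ℤ) + i + 1) * hVec M i * uvec p i := h1
        _ = hVec M i * (((p : ℤ) + i + 1) * uvec p i) := by ring
        _ = hVec M i * (((i : ℤ) + 1) * uvec p (i + 1)) := by rw [ha i]
        _ = ((i : ℤ) + 1) * (hVec M i * uvec p (i + 1)) := by ring
    exact le_of_mul_le_mul_left h2 (by positivity)
  have hmono : ∀ i j, hVec M (i + j) * uvec p i ≤ hVec M i * uvec p (i + j) := by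
    intro i j
    induction j with
    | zero => simp
    | succ j ih =>
      have h1 := hstep (i + j)
      have h2 : hVec M (i + j + 1) * uvec p i * uvec p (i + j)
          ≤ hVec M i * uvec p (i + j + 1) * uvec p (i + j) := by
        calc hVec M (i + j + 1) * uvec p i * uvec p (i + j)
            = (hVec M (i + j + 1) * uvec p (i + j)) * uvec p i := by ring
          _ ≤ (hVec M (i + j) * uvec p (i + j + 1)) * uvec p i :=
              mul_le_mul_of_nonneg_right h1 (hapos i).le
          _ = (hVec M (i + j) * uvec p i) * uvec p (i + j + 1) := by ring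
          _ ≤ (hVec M i * uvec p (i + j)) * uvec p (i + j + 1) :=
              mul_le_mul_of_nonneg_right ih (hapos _).le
          _ = _ := by ring
      exact le_of_mul_le_mul_right h2 (hapos _)
  have hle : ∀ i, hVec M i ≤ uvec p i := by
    intro i
    have := hmono 0 i
    rw [zero_add, hVec_zero] at this
    have e : uvec p 0 = 1 := by simp [uvec]
    rw [e] at this
    simpa using this
  -- lower bound of the top entry
  have htop : (uvec p s : ℤ) ≤ hVec M (s + 1) := by
    have h1 := sum_hVec M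
    rw [hs, Finset.sum_range_succ] at h1
    have h2 : ∑ i ∈ Finset.range (s + 1), hVec M i ≤ ∑ i ∈ Finset.range (s + 1), (uvec p i : ℤ) :=
      Finset.sum_le_sum fun i _ => hle i
    have h3 : ∑ i ∈ Finset.range (s + 1), (uvec p i : ℤ) = ((p + s + 1).choose s : ℕ) := by
      rw [← sum_uvec]; push_cast; rfl
    rw [hp, hs] at hb
    have e1 : p + (s + 1) + 1 - 1 = p + s + 1 := by omega
    have e2 : p + (s + 1) + 1 - 2 = p + s := by omega
    have e3 : s + 1 - 1 = s := by omega
    rw [e1, e2, e3] at hb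
    have hb' : (((p + s + 1).choose s : ℕ) : ℤ) + (((p + s).choose s : ℕ) : ℤ)
        ≤ (indepCount M (s + 1) : ℤ) := by exact_mod_cast hb
    have e4 : uvec p s = (p + s).choose s := rfl
    rw [e4]
    linarith
  intro i hi
  -- combine
  obtain ⟨j, hj⟩ : ∃ j, s + 1 = i + 1 + j := ⟨s - i, by omega⟩
  have h1 := hmono (i + 1) j
  rw [← hj] at h1
  have h2 : (uvec p s : ℤ) * uvec p (i + 1) ≤ hVec M (i + 1) * uvec p (s + 1) :=
    (mul_le_mul_of_nonneg_right htop (hapos _).le).trans h1
  have h3 : (uvec p i : ℤ) * uvec p (s + 1) ≤ uvec p s * uvec p (i + 1) := by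
    have hA := ha i
    have hS := ha s
    have hsi : (i : ℤ) ≤ s := by exact_mod_cast (by omega : i ≤ s)
    have key : ((i : ℤ) + 1) * (s + 1) * (uvec p i * uvec p (s + 1))
        ≤ ((i : ℤ) + 1) * (s + 1) * (uvec p s * uvec p (i + 1)) := by
      calc ((i : ℤ) + 1) * (s + 1) * (uvec p i * uvec p (s + 1))
          = ((i : ℤ) + 1) * uvec p i * (((s : ℤ) + 1) * uvec p (s + 1)) := by ring
        _ = ((i : ℤ) + 1) * uvec p i * (((p : ℤ) + s + 1) * uvec p s) := by rw [hS]
        _ = (((i : ℤ) + 1) * (p + s + 1)) * (uvec p i * uvec p s) := by ring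
        _ ≤ (((s : ℤ) + 1) * (p + i + 1)) * (uvec p i * uvec p s) := by
            apply mul_le_mul_of_nonneg_right _ (mul_pos (hapos _) (hapos _)).le
            nlinarith [Int.natCast_nonneg p]
        _ = ((s : ℤ) + 1) * uvec p s * (((p : ℤ) + i + 1) * uvec p i) := by ring
        _ = ((s : ℤ) + 1) * uvec p s * (((i : ℤ) + 1) * uvec p (i + 1)) := by rw [hA]
        _ = _ := by ring
    exact le_of_mul_le_mul_left key (by positivity)
  have h4 : (uvec p i : ℤ) * uvec p (s + 1) ≤ hVec M (i + 1) * uvec p (s + 1) := h3.trans h2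
  have h5 : (uvec p i : ℤ) ≤ hVec M (i + 1) := le_of_mul_le_mul_right h4 (hapos _)
  exact (hle i).trans h5

end Pool.Agent.Helper77
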