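import Pool.Agent.Helper77.Near
import Pool.Agent.Helper77.HVecMono

/-!
Assembling the pieces.
-/

open Finset Matroid Filter Topology

namespace Pool.Agent.Helper77

set_option linter.unusedSectionVars false

lemma indepCount_add_NB {n : ℕ} (M : Matroid (Fin n)) :
    indepCount M (rk M) + (NB M).card = n.choose (rk M) := by
  classical
  have h1 : indepCount M (rk M) = ((Finset.powersetCard (rk M) (Finset.univ : Finset (Fin n))).filter
      (fun X : Finset (Fin n) => M.IsBase (X : Set (Fin n)))).card := by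
    unfold indepCount
    rw [← Set.ncard_coe_finset]
    congr 1
    ext I
    simp only [Set.mem_ofPred_eq, Finset.coe_filter, Finset.mem_powersetCard, Finset.subset_univ,
      true_and]
    constructor
    · rintro ⟨h1, h2⟩
      exact ⟨h2, isBase_of_indep_card h1 h2⟩
    · rintro ⟨h1, h2⟩
      exact ⟨h2.indep, h1⟩
  rw [h1]
  unfold NB
  rw [Finset.card_filter_add_card_filter_not, Finset.card_powersetCard, Finset.card_univ,
    Fintype.card_fin]

/-- Near ranks with few non-bases: the H-vector is nondecreasing. -/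
theorem good_of_near {n : ℕ} {M : Matroid (Fin n)} (hn : 100 ≤ n) (h1 : 7 * n ≤ 16 * rk M)
    (h2 : 16 * rk M ≤ 9 * n) (hNB : 10 * (NB M).card ≤ n.choose (rk M)) :
    HVecNondecreasing M := by
  obtain ⟨r, hr⟩ : ∃ r, r = rk M := ⟨_, rfl⟩
  rw [← hr] at h1 h2 hNB
  have hsum := indepCount_add_NB M
  rw [← hr] at hsum
  apply nondecreasing_of_many_bases M (by omega) (by rw [Fintype.card_fin]; omega)
  rw [Fintype.card_fin, ← hr]
  obtain ⟨s, rfl⟩ : ∃ s, r = s + 1 := ⟨r - 1, by omega⟩
  obtain ⟨m, rfl⟩ : ∃ m, n = m + 2 := ⟨n - 2, by omega⟩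
  have e1 : (m + 2) * (m + 1).choose s = (m + 2).choose (s + 1) * (s + 1) :=
    Nat.add_one_mul_choose_eq (m + 1) s
  have e2 : m.choose s * (m + 1) = (m + 1).choose s * (m + 1 - s) := Nat.choose_mul_succ_eq m s
  rw [show m + 2 - 1 = m + 1 by omega, show m + 2 - 2 = m by omega, show s + 1 - 1 = s by omega]
  set N := (m + 2).choose (s + 1) with hN
  set A := (m + 1).choose s with hA
  set B := m.choose s with hB
  have hsm : s ≤ m := by omega
  have e1' : ((m : ℝ) + 2) * A = N * (s + 1) := by exact_mod_cast e1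
  have e2' : (B : ℝ) * (m + 1) = A * (m + 1 - s) := by
    have : ((m + 1 - s : ℕ) : ℝ) = m + 1 - s := by
      rw [Nat.cast_sub (by omega)]; push_cast; ring
    rw [← this]; exact_mod_cast e2
  have hm : (98 : ℝ) ≤ m := by exact_mod_cast (by omega : 98 ≤ m)
  have h1' : (7 : ℝ) * (m + 2) ≤ 16 * (s + 1) := by exact_mod_cast h1
  have h2' : (16 : ℝ) * (s + 1) ≤ 9 * (m + 2) := by exact_mod_cast h2
  have hN0 : (0 : ℝ) ≤ N := by positivity
  have hA0 : (0 : ℝ) ≤ A := by positivity
  have hA1 : (A : ℝ) ≤ 9 / 16 * N := by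
    have : ((m : ℝ) + 2) * A ≤ (m + 2) * (9 / 16 * N) := by
      rw [e1']
      nlinarith
    exact le_of_mul_le_mul_left this (by linarith)
  have hB1 : (B : ℝ) ≤ 0.3 * N := by
    have h3 : ((m : ℝ) + 2) * (B * (m + 1)) = N * ((s + 1) * (m + 1 - s)) := by
      rw [e2']
      calc ((m : ℝ) + 2) * (A * (m + 1 - s)) = (m + 2) * A * (m + 1 - s) := by ring
        _ = _ := by rw [e1']; ring
    have h4 : ((s : ℝ) + 1) * (m + 1 - s) ≤ 0.3 * ((m + 2) * (m + 1)) := by
      nlinarith [sq_nonneg ((m : ℝ) + 2 - 2 * (s + 1))]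
    have h5 : (((m : ℝ) + 2) * (m + 1)) * B ≤ ((m + 2) * (m + 1)) * (0.3 * N) := by
      calc (((m : ℝ) + 2) * (m + 1)) * B = (m + 2) * (B * (m + 1)) := by ring
        _ = N * ((s + 1) * (m + 1 - s)) := h3
        _ ≤ N * (0.3 * ((m + 2) * (m + 1))) := by gcongr
        _ = _ := by ring
    exact le_of_mul_le_mul_left h5 (by positivity)
  have hI : (0.9 : ℝ) * N ≤ indepCount M (s + 1) := by
    have h3 : (indepCount M (s + 1) : ℝ) + (NB M).card = N := by exact_mod_cast hsum
    have h4 : (10 : ℝ) * (NB M).card ≤ N := by exact_mod_cast hNB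
    linarith
  have : (A : ℝ) + B ≤ indepCount M (s + 1) := by linarith
  exact_mod_cast this

open scoped Classical in
/-- matroids whose H-vector is not nondecreasing -/
noncomputable def notGood (n : ℕ) : Finset (Matroid (Fin n)) :=
  (mat n).filter (fun M => ¬ HVecNondecreasing M)

open scoped Classical in
/-- ranks near `n / 2` -/
noncomputable def nearSet (n : ℕ) : Finset ℕ :=
  (Finset.range (n + 1)).filter (fun r => (2 : ℝ) ^ n ≤ 2 * n ^ 4 * (n.choose r))

open scoped Classical in
/-- ranks far from `n / 2` -/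
noncomputable def farSet (n : ℕ) : Finset ℕ :=
  (Finset.range (n + 1)).filter (fun r => ¬ (2 : ℝ) ^ n ≤ 2 * n ^ 4 * (n.choose r))

lemma near_range {n r : ℕ} {y : ℝ} (h : Large n y) (hr : r ∈ nearSet n) :
    7 * n ≤ 16 * r ∧ 16 * r ≤ 9 * n := by
  classical
  unfold nearSet at hr
  rw [Finset.mem_filter, Finset.mem_range] at hr
  have hclose := near_close h (by omega) hr.2
  rw [abs_le] at hclose
  have hy := h.y_ge
  have hyn := h.pow
  have h1 : 8 * y ^ 3 ≤ n := by
    rw [← hyn]
    have : y ^ 4 = y * y ^ 3 := by ring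
    rw [this]
    have : (0 : ℝ) ≤ y ^ 3 := by have := h.pos; positivity
    nlinarith
  constructor
  · have : (7 : ℝ) * n ≤ 16 * r := by linarith [hclose.1]
    exact_mod_cast this
  · have : (16 : ℝ) * r ≤ 9 * n := by linarith [hclose.2]
    exact_mod_cast this

theorem notGood_card_le {n : ℕ} {y : ℝ} (h : Large n y) :
    (notGood n).card ≤ (matLC n).card + ∑ r ∈ farSet n, (matR n r).card
      + ∑ r ∈ nearSet n, (badR n r).card := by
  classical
  have hsub : notGood n ⊆ (matLC n ∪ (farSet n).biUnion (fun r => matR n r)) ∪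
      (nearSet n).biUnion (fun r => badR n r) := by
    intro M hM
    unfold notGood at hM
    rw [Finset.mem_filter, mem_mat] at hM
    obtain ⟨hE, hng⟩ := hM
    rw [Finset.mem_union, Finset.mem_union, Finset.mem_biUnion, Finset.mem_biUnion]
    by_cases hLC : M ∈ matLC n
    · exact Or.inl (Or.inl hLC)
    rw [mem_matLC] at hLC
    push Not at hLC
    obtain ⟨hl, hcl⟩ := hLC hE
    have hrk := rk_le M
    by_cases hnear : (2 : ℝ) ^ n ≤ 2 * n ^ 4 * (n.choose (rk M))
    · right
      have hmem : rk M ∈ nearSet n := by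
        unfold nearSet
        rw [Finset.mem_filter, Finset.mem_range]
        exact ⟨by omega, hnear⟩
      refine ⟨rk M, hmem, ?_⟩
      rw [mem_badR]
      refine ⟨⟨hE, rfl⟩, hl, hcl, ?_⟩
      by_contra hlt
      push Not at hlt
      apply hng
      obtain ⟨h1, h2⟩ := near_range h hmem
      have hn : 100 ≤ n := by
        have h3 := h.y_ge
        have h4 : y ≤ n := by
          rw [← h.pow]
          calc y = y ^ 1 := (pow_one y).symm
            _ ≤ y ^ 4 := pow_le_pow_right₀ (by linarith) (by norm_num)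
        have : (100 : ℝ) ≤ n := by linarith
        exact_mod_cast this
      exact good_of_near hn h1 h2 hlt
    · left; right
      refine ⟨rk M, ?_, mem_matR.2 ⟨hE, rfl⟩⟩
      unfold farSet
      rw [Finset.mem_filter, Finset.mem_range]
      exact ⟨by omega, hnear⟩
  refine (Finset.card_le_card hsub).trans ?_
  refine (Finset.card_union_le _ _).trans ?_
  refine Nat.add_le_add ((Finset.card_union_le _ _).trans ?_) Finset.card_biUnion_le
  exact Nat.add_le_add_left Finset.card_biUnion_le _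

theorem near_sum_le {n : ℕ} {y : ℝ} (h : Large n y) :
    n * ∑ r ∈ nearSet n, (badR n r).card ≤ (mat n).card := by
  classical
  rw [Finset.mul_sum, mat_eq_sum]
  have hn := h.three
  calc ∑ r ∈ nearSet n, n * (badR n r).card ≤ ∑ r ∈ nearSet n, (matR n r).card := by
        refine Finset.sum_le_sum fun r hr => ?_
        have hr' := near_range h hr
        unfold nearSet at hr
        rw [Finset.mem_filter, Finset.mem_range] at hr
        exact (near_bound h (by omega) hr.2).trans (stab_card_le (by omega) (by omega))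
    _ ≤ _ := Finset.sum_le_sum_of_subset (Finset.filter_subset _ _)

theorem far_sum_le {n : ℕ} {y : ℝ} (h : Large n y) :
    n * ∑ r ∈ farSet n, (matR n r).card ≤ (mat n).card := by
  classical
  have hn := h.three
  have hn0 : (0 : ℝ) < n := by exact_mod_cast (by omega : 0 < n)
  have hpow6 := h.pow_le
  -- the middle
  set P := n.choose (n / 2) with hP
  have hmid : (2 : ℝ) ^ n ≤ (n + 1) * P := by exact_mod_cast two_pow_le_middle n
  set s := P / n with hs
  have hns : n * s ≤ P := Nat.mul_div_le P n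
  have hlow : 2 ^ s ≤ (mat n).card := by
    calc 2 ^ s ≤ (stab n (n / 2)).card := stab_card_ge (by omega) (n / 2) s hns
      _ ≤ (matR n (n / 2)).card := stab_card_le (by omega) (by omega)
      _ ≤ (mat n).card := Finset.card_le_card fun M hM => mem_mat.2 (mem_matR.1 hM).1
  refine le_trans ?_ hlow
  -- upper bound for far
  set q : ℕ := 2 ^ n / (2 * n ^ 4) with hq
  have hfar : ∀ r ∈ farSet n, (matR n r).card ≤ 2 ^ q := by
    intro r hr
    unfold farSet at hr
    rw [Finset.mem_filter, Finset.mem_range] at hr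
    refine (matR_card_le n r).trans (Nat.pow_le_pow_right (by norm_num) ?_)
    rw [hq, Nat.le_div_iff_mul_le (by positivity)]
    have h1 := hr.2
    push Not at h1
    have h2 : 2 * n ^ 4 * n.choose r < 2 ^ n := by exact_mod_cast h1
    rw [mul_comm]
    exact h2.le
  have hcard : (farSet n).card ≤ n + 1 := by
    unfold farSet
    refine (Finset.card_filter_le _ _).trans ?_
    rw [Finset.card_range]
  have h1 : n * ∑ r ∈ farSet n, (matR n r).card ≤ n * ((n + 1) * 2 ^ q) := by
    refine Nat.mul_le_mul_left _ ?_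
    calc ∑ r ∈ farSet n, (matR n r).card ≤ ∑ _r ∈ farSet n, 2 ^ q := Finset.sum_le_sum hfar
      _ = (farSet n).card * 2 ^ q := by rw [Finset.sum_const, smul_eq_mul]
      _ ≤ (n + 1) * 2 ^ q := Nat.mul_le_mul_right _ hcard
  refine h1.trans ?_
  have h2 : n * (n + 1) ≤ 2 ^ n := by
    have h3 : (n : ℝ) * (n + 1) ≤ 2 ^ n := by
      refine le_trans ?_ hpow6
      have h4 : (1 : ℝ) ≤ n := by exact_mod_cast (by omega : 1 ≤ n)
      have h5 : (n : ℝ) ^ 2 ≤ n ^ 6 := pow_le_pow_right₀ h4 (by norm_num)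
      nlinarith
    exact_mod_cast h3
  have h3 : n + q ≤ s := by
    -- real estimates
    have hq' : (q : ℝ) ≤ 2 ^ n / (2 * n ^ 4) := by
      rw [hq]
      have := @Nat.cast_div_le ℝ _ _ _ (2 ^ n) (2 * n ^ 4)
      push_cast at this
      exact this
    have hs' : (P : ℝ) / n - 1 ≤ s := by
      have := Nat.lt_div_mul_add (a := P) (b := n) (by omega)
      rw [← hs] at this
      have h2 : (P : ℝ) < s * n + n := by exact_mod_cast this
      rw [sub_le_iff_le_add, div_le_iff₀ hn0]
      linarith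
    have hP' : (2 : ℝ) ^ n / (n + 1) ≤ P := by
      rw [div_le_iff₀ (by positivity)]; linarith
    set T : ℝ := 2 ^ n with hT
    have hT0 : 0 < T := by positivity
    have hy := h.y_ge
    have hyle : y ≤ n := by
      rw [← h.pow]
      calc y = y ^ 1 := (pow_one y).symm
        _ ≤ y ^ 4 := pow_le_pow_right₀ (by linarith) (by norm_num)
    have hnge : (1000000 : ℝ) ≤ n := hy.trans hyle
    have h4 : T / (4 * n ^ 2) * 2 ≤ P / n := by
      rw [le_div_iff₀ hn0]
      refine le_trans ?_ hP'
      rw [le_div_iff₀ (by positivity)]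
      have : T / (4 * n ^ 2) * 2 * n * (n + 1) = T * ((n + 1) / (2 * n)) := by
        field_simp; ring
      rw [this]
      have : ((n : ℝ) + 1) / (2 * n) ≤ 1 := by
        rw [div_le_one (by positivity)]; linarith
      nlinarith
    have h5 : (T : ℝ) / (2 * n ^ 4) ≤ T / (4 * n ^ 2) := by
      apply div_le_div_of_nonneg_left hT0.le (by positivity)
      have : (n : ℝ) ^ 4 = n ^ 2 * n ^ 2 := by ring
      rw [this]
      have : (2 : ℝ) ≤ n ^ 2 := by nlinarith
      nlinarith [pow_pos hn0 2]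
    have h6 : (n : ℝ) + 1 ≤ T / (4 * n ^ 2) := by
      rw [le_div_iff₀ (by positivity)]
      refine le_trans ?_ hpow6
      have h7 : (n : ℝ) + 1 ≤ n ^ 2 := by nlinarith
      have h8 : (n : ℝ) ^ 6 = n ^ 2 * n ^ 2 * n ^ 2 := by ring
      have h9 : (2 : ℝ) ≤ n ^ 2 := by nlinarith
      calc ((n : ℝ) + 1) * (4 * (n : ℝ) ^ 2) ≤ (n : ℝ) ^ 2 * (4 * (n : ℝ) ^ 2) := by gcongr
        _ = 2 * ((n : ℝ) ^ 2 * (n : ℝ) ^ 2 * 2) := by ring
        _ ≤ 2 * ((n : ℝ) ^ 2 * (n : ℝ) ^ 2 * (n : ℝ) ^ 2) := by gcongr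
        _ = _ := by rw [h8]
    have h7 : (n : ℝ) + q ≤ s := by linarith
    exact_mod_cast h7
  calc n * ((n + 1) * 2 ^ q) = n * (n + 1) * 2 ^ q := by ring
    _ ≤ 2 ^ n * 2 ^ q := Nat.mul_le_mul_right _ h2
    _ = 2 ^ (n + q) := (pow_add 2 n q).symm
    _ ≤ 2 ^ s := Nat.pow_le_pow_right (by norm_num) h3

lemma eventually_large : ∀ᶠ n : ℕ in atTop, Large n ((n : ℝ) ^ (1 / 4 : ℝ)) := by
  have h1 := (isLittleO_log_rpow_rpow_atTop (2 : ℝ) (show (0 : ℝ) < 1 / 4 by norm_num)).bound
    (show (0 : ℝ) < 1 / 1000000 by norm_num)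
  have h2 := tendsto_natCast_atTop_atTop (R := ℝ) |>.eventually h1
  filter_upwards [h2, eventually_ge_atTop 3] with n hn hn3
  have hn0 : (0 : ℝ) < n := by exact_mod_cast (by omega : 0 < n)
  refine ⟨by positivity, ?_, ?_, hn3⟩
  · rw [← Real.rpow_natCast, ← Real.rpow_mul hn0.le]
    norm_num
  · rw [Real.norm_of_nonneg (by positivity : (0 : ℝ) ≤ (n : ℝ) ^ (1 / 4 : ℝ))] at hn
    have h3 := le_trans (le_abs_self _) hn
    rw [Real.rpow_two] at h3
    linarith

lemma mat_pos (n : ℕ) : 0 < (mat n).card :=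
  Finset.card_pos.2 ⟨Matroid.loopyOn Set.univ, mem_mat.2 rfl⟩

theorem tendsto_notGood :
    Tendsto (fun n : ℕ => ((notGood n).card : ℝ) / (mat n).card) atTop (𝓝 0) := by
  have hlim : Tendsto (fun n : ℕ => 4 * (n : ℝ) / 2 ^ ((n - 1) / 2) + 2 / (n : ℝ)) atTop (𝓝 0) := by
    have h1 : Tendsto (fun n : ℕ => 2 / (n : ℝ)) atTop (𝓝 0) :=
      tendsto_const_div_atTop_nhds_zero_nat 2
    have h2 : Tendsto (fun n : ℕ => 4 * (n : ℝ) / 2 ^ ((n - 1) / 2)) atTop (𝓝 0) := by
      have h3 : Tendsto (fun n : ℕ => 8 * ((n : ℝ) / (Real.sqrt 2) ^ n)) atTop (𝓝 0) := by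
        have h4 : (1 : ℝ) < Real.sqrt 2 := by
          rw [Real.lt_sqrt (by norm_num)]; norm_num
        have h5 := tendsto_pow_const_div_const_pow_of_one_lt 1 h4
        simp only [pow_one] at h5
        have := h5.const_mul 8
        rwa [mul_zero] at this
      refine squeeze_zero (fun n => by positivity) (fun n => ?_) h3
      have h5 : (Real.sqrt 2) ^ n ≤ 2 * 2 ^ ((n - 1) / 2) := by
        have h6 : (Real.sqrt 2) ^ (2 * ((n - 1) / 2 + 1)) = 2 * 2 ^ ((n - 1) / 2) := by
          rw [pow_mul, Real.sq_sqrt (by norm_num), pow_succ]; ring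
        rw [← h6]
        exact pow_le_pow_right₀ (by
          rw [Real.one_le_sqrt]; norm_num) (by omega)
      rw [mul_div_assoc', div_le_div_iff₀ (by positivity) (by positivity)]
      have h7 : (0 : ℝ) ≤ n := by positivity
      nlinarith
    simpa using h2.add h1
  refine squeeze_zero' (Eventually.of_forall fun n => by positivity) ?_ hlim
  filter_upwards [eventually_large, eventually_ge_atTop 3] with n hn hn3
  have hn0 : (0 : ℝ) < n := by exact_mod_cast (by omega : 0 < n)
  have hm : (0 : ℝ) < (mat n).card := by exact_mod_cast mat_pos n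
  rw [div_le_iff₀ hm]
  have h1 := notGood_card_le hn
  have h2 := near_sum_le hn
  have h3 := far_sum_le hn
  have h4 := matLC_card_le n
  have h1' : ((notGood n).card : ℝ) ≤ (matLC n).card + (∑ r ∈ farSet n, (matR n r).card : ℕ)
      + (∑ r ∈ nearSet n, (badR n r).card : ℕ) := by exact_mod_cast h1
  have h2' : (n : ℝ) * (∑ r ∈ nearSet n, (badR n r).card : ℕ) ≤ (mat n).card := by
    exact_mod_cast h2
  have h3' : (n : ℝ) * (∑ r ∈ farSet n, (matR n r).card : ℕ) ≤ (mat n).card := by
    exact_mod_cast h3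
  have h4' : ((matLC n).card : ℝ) * 2 ^ ((n - 1) / 2) ≤ 4 * n * (mat n).card := by
    exact_mod_cast h4
  have e2 : ((∑ r ∈ nearSet n, (badR n r).card : ℕ) : ℝ) ≤ (mat n).card / n := by
    rw [le_div_iff₀ hn0]; linarith
  have e3 : ((∑ r ∈ farSet n, (matR n r).card : ℕ) : ℝ) ≤ (mat n).card / n := by
    rw [le_div_iff₀ hn0]; linarith
  have e4 : ((matLC n).card : ℝ) ≤ 4 * n * (mat n).card / 2 ^ ((n - 1) / 2) := by
    rw [le_div_iff₀ (by positivity)]; exact h4'
  calc ((notGood n).card : ℝ) ≤ 4 * n * (mat n).card / 2 ^ ((n - 1) / 2)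
        + (mat n).card / n + (mat n).card / n := by linarith
    _ = _ := by ring

/-- The main theorem, in terms of `ncard`. -/
theorem main :
    Tendsto (fun m : ℕ =>
      (({M : Matroid (Fin m) | M.E = Set.univ ∧ HVecNondecreasing M}.ncard : ℕ) : ℝ) /
        (({M : Matroid (Fin m) | M.E = Set.univ}.ncard : ℕ) : ℝ)) atTop (𝓝 1) := by
  classical
  have h1 : ∀ m : ℕ, (({M : Matroid (Fin m) | M.E = Set.univ ∧ HVecNondecreasing M}.ncard : ℕ) : ℝ) /
        (({M : Matroid (Fin m) | M.E = Set.univ}.ncard : ℕ) : ℝ)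
        = 1 - ((notGood m).card : ℝ) / (mat m).card := by
    intro m
    have hm : (0 : ℝ) < (mat m).card := by exact_mod_cast mat_pos m
    have e1 : {M : Matroid (Fin m) | M.E = Set.univ} = ((mat m : Finset (Matroid (Fin m))) :
        Set (Matroid (Fin m))) := by
      ext M; simp [mem_mat]
    have e2 : {M : Matroid (Fin m) | M.E = Set.univ ∧ HVecNondecreasing M}
        = (((mat m).filter (fun M => HVecNondecreasing M) : Finset (Matroid (Fin m))) :
        Set (Matroid (Fin m))) := by
      ext M; simp [mem_mat]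
    rw [e1, e2, Set.ncard_coe_finset, Set.ncard_coe_finset]
    have e3 : ((mat m).filter (fun M => HVecNondecreasing M)).card + (notGood m).card
        = (mat m).card := by
      unfold notGood
      exact Finset.card_filter_add_card_filter_not _
    have e4 : (((mat m).filter (fun M => HVecNondecreasing M)).card : ℝ) + (notGood m).card
        = (mat m).card := by exact_mod_cast e3
    rw [eq_sub_iff_add_eq, ← add_div, e4, div_self hm.ne']
  simp_rw [h1]
  have h2 := tendsto_notGood.const_sub 1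
  rwa [sub_zero] at h2

end Pool.Agent.Helper77
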