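import Pool.Agent.Helper77.Ext

/-!
Exponential tail bounds for binomial coefficients, and the far ranks.
-/

open Finset

namespace Pool.Agent.Helper77

set_option linter.unusedSectionVars false

lemma sum_choose_exp_le (n : ℕ) (l : ℝ) :
    ∑ i ∈ Finset.range (n + 1), (n.choose i : ℝ) * Real.exp (l * (2 * i - n))
      ≤ 2 ^ n * Real.exp (n * l ^ 2 / 2) := by
  have h1 : ∑ i ∈ Finset.range (n + 1), (n.choose i : ℝ) * Real.exp (l * (2 * i - n))
      = (Real.exp l + Real.exp (-l)) ^ n := by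
    rw [add_pow]
    refine Finset.sum_congr rfl fun i hi => ?_
    rw [Finset.mem_range] at hi
    rw [mul_comm]
    congr 1
    rw [← Real.exp_nat_mul, ← Real.exp_nat_mul, ← Real.exp_add, Nat.cast_sub (by omega)]
    congr 1
    ring
  rw [h1]
  have h2 : Real.exp l + Real.exp (-l) = 2 * Real.cosh l := by
    rw [Real.cosh_eq]; ring
  rw [h2, mul_pow]
  have h3 : Real.exp (n * l ^ 2 / 2) = Real.exp (l ^ 2 / 2) ^ n := by
    rw [← Real.exp_nat_mul]; congr 1; ring
  rw [h3]
  have h4 := Real.cosh_le_exp_half_sq l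
  have h5 := Real.cosh_pos l
  gcongr

lemma choose_le_exp {n r : ℕ} (hn : 1 ≤ n) (hr : r ≤ n) :
    (n.choose r : ℝ) ≤ 2 ^ n * Real.exp (-((2 * r - n : ℝ) ^ 2 / (2 * n))) := by
  have hn0 : (0 : ℝ) < n := by exact_mod_cast hn
  set l : ℝ := (2 * r - n) / n with hl
  have h1 : (n.choose r : ℝ) * Real.exp (l * (2 * r - n)) ≤ 2 ^ n * Real.exp (n * l ^ 2 / 2) := by
    refine le_trans ?_ (sum_choose_exp_le n l)
    exact Finset.single_le_sum
      (f := fun i : ℕ => (n.choose i : ℝ) * Real.exp (l * (2 * i - n)))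
      (fun i _ => by positivity) (Finset.mem_range.2 (by omega))
  have h2 : (n.choose r : ℝ) = (n.choose r : ℝ) * Real.exp (l * (2 * r - n)) *
      Real.exp (-(l * (2 * r - n))) := by
    rw [mul_assoc, ← Real.exp_add, add_neg_cancel, Real.exp_zero, mul_one]
  rw [h2]
  calc (n.choose r : ℝ) * Real.exp (l * (2 * r - n)) * Real.exp (-(l * (2 * r - n)))
      ≤ 2 ^ n * Real.exp (n * l ^ 2 / 2) * Real.exp (-(l * (2 * r - n))) := by gcongr
    _ = _ := by
      rw [mul_assoc, ← Real.exp_add]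
      congr 2
      rw [hl]
      field_simp
      ring

lemma lowCount_le_exp {n k : ℕ} (hn : 1 ≤ n) (hk : 2 * k ≤ n) :
    (lowCount n k : ℝ) ≤ 2 ^ n * Real.exp (-((n - 2 * k : ℝ) ^ 2 / (2 * n))) := by
  have hn0 : (0 : ℝ) < n := by exact_mod_cast hn
  have hk' : (2 * k : ℝ) ≤ n := by exact_mod_cast hk
  set l : ℝ := -((n - 2 * k) / n) with hl
  have hl0 : l ≤ 0 := by
    rw [hl, neg_nonpos]; exact div_nonneg (by linarith) hn0.le
  have h1 : (lowCount n k : ℝ) * Real.exp (l * (2 * k - n))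
      ≤ 2 ^ n * Real.exp (n * l ^ 2 / 2) := by
    refine le_trans ?_ (sum_choose_exp_le n l)
    unfold lowCount
    push_cast
    rw [Finset.sum_mul]
    calc ∑ i ∈ Finset.range (k + 1), (n.choose i : ℝ) * Real.exp (l * (2 * k - n))
        ≤ ∑ i ∈ Finset.range (k + 1), (n.choose i : ℝ) * Real.exp (l * (2 * i - n)) := by
          refine Finset.sum_le_sum fun i hi => ?_
          rw [Finset.mem_range] at hi
          have hik : (i : ℝ) ≤ k := by exact_mod_cast (by omega : i ≤ k)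
          have : l * (2 * k - n) ≤ l * (2 * i - n) := by nlinarith
          gcongr
      _ ≤ _ := by
          refine Finset.sum_le_sum_of_subset_of_nonneg
            (Finset.range_subset_range.2 (by omega)) fun i _ _ => by positivity
  have h2 : (lowCount n k : ℝ) = (lowCount n k : ℝ) * Real.exp (l * (2 * k - n)) *
      Real.exp (-(l * (2 * k - n))) := by
    rw [mul_assoc, ← Real.exp_add, add_neg_cancel, Real.exp_zero, mul_one]
  rw [h2]
  calc (lowCount n k : ℝ) * Real.exp (l * (2 * k - n)) * Real.exp (-(l * (2 * k - n)))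
      ≤ 2 ^ n * Real.exp (n * l ^ 2 / 2) * Real.exp (-(l * (2 * k - n))) := by gcongr
    _ = _ := by
      rw [mul_assoc, ← Real.exp_add]
      congr 2
      rw [hl]
      field_simp
      ring

lemma two_pow_le_middle (n : ℕ) : 2 ^ n ≤ (n + 1) * n.choose (n / 2) := by
  rw [← Nat.sum_range_choose n]
  calc ∑ m ∈ Finset.range (n + 1), n.choose m
      ≤ ∑ _m ∈ Finset.range (n + 1), n.choose (n / 2) :=
        Finset.sum_le_sum fun m _ => Nat.choose_le_middle m n
    _ = (n + 1) * n.choose (n / 2) := by rw [Finset.sum_const, Finset.card_range, smul_eq_mul]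

/-- Upper bound for the number of steps in terms of the parameters. -/
lemma steps_le {n r Δ : ℕ} (hn : 3 ≤ n) (hr1 : 4 * n ≤ 10 * r) (hr2 : 10 * r ≤ 6 * n)
    (hΔ : n ≤ 4 * (Δ + 1)) (hN : n ≤ n.choose r) :
    steps n r Δ (n.choose r) ≤ 40 * (n.choose r : ℝ) * Real.log n / n ^ 2 := by
  set N := n.choose r with hNdef
  have hn0 : (0 : ℝ) < n := by exact_mod_cast (by omega : 0 < n)
  have hN0 : (0 : ℝ) < N := by exact_mod_cast (by omega : 0 < N)
  have hnN : (n : ℝ) ≤ N := by exact_mod_cast hN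
  have hlog : 1 ≤ Real.log n := by
    rw [Real.le_log_iff_exp_le hn0]
    have : (3 : ℝ) ≤ n := by exact_mod_cast hn
    linarith [Real.exp_one_lt_three]
  -- first bound
  have hb1 : ∀ k : ℕ, 1 / dlow n r Δ k ≤ 4 / n := by
    intro k
    have h1 : (n : ℝ) / 4 ≤ dlow n r Δ k := by
      refine le_trans ?_ (le_max_left _ _)
      have : (n : ℝ) ≤ 4 * (Δ + 1) := by exact_mod_cast hΔ
      linarith
    calc 1 / dlow n r Δ k ≤ 1 / ((n : ℝ) / 4) := one_div_le_one_div_of_le (by positivity) h1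
      _ = 4 / n := by field_simp
  -- second bound
  have hb2 : ∀ k : ℕ, 1 ≤ k → 1 / dlow n r Δ k ≤ 32 * N / (n ^ 2 * k) := by
    intro k hk
    have hk0 : (0 : ℝ) < k := by exact_mod_cast hk
    set x : ℝ := (r : ℝ) * (n - r + 1 : ℕ) * k / N with hx
    have hr1' : (4 * n : ℝ) ≤ 10 * r := by exact_mod_cast hr1
    have hr2' : (10 * r : ℝ) ≤ 6 * n := by exact_mod_cast hr2
    have hnr : (4 * n : ℝ) ≤ 10 * ((n - r + 1 : ℕ) : ℝ) := by
      exact_mod_cast (by omega : 4 * n ≤ 10 * (n - r + 1))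
    have hA : (0.16 : ℝ) * n ^ 2 ≤ (r : ℝ) * (n - r + 1 : ℕ) := by
      nlinarith
    have hx0 : (0.16 : ℝ) * n ^ 2 * k / N ≤ x := by
      rw [hx]; gcongr
    have h1 : x / 5 ≤ dlow n r Δ k := by
      by_cases hxr : 1.25 * r ≤ x
      · refine le_trans ?_ (le_max_right _ _)
        rw [← hNdef, ← hx]
        linarith
      · refine le_trans ?_ (le_max_left _ _)
        have : (n : ℝ) ≤ 4 * (Δ + 1) := by exact_mod_cast hΔ
        push Not at hxr
        linarith
    have h2 : (0.16 : ℝ) * n ^ 2 * k / N / 5 ≤ dlow n r Δ k := by linarith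
    have h3 : (0 : ℝ) < 0.16 * n ^ 2 * k / N / 5 := by positivity
    calc 1 / dlow n r Δ k ≤ 1 / (0.16 * n ^ 2 * k / N / 5) := one_div_le_one_div_of_le h3 h2
      _ = 31.25 * N / (n ^ 2 * k) := by field_simp; norm_num
      _ ≤ 32 * N / (n ^ 2 * k) := by gcongr; norm_num
  -- the split
  set j : ℕ := ⌈(N : ℝ) / n⌉₊ with hj
  have hj1 : (N : ℝ) / n ≤ j := Nat.le_ceil _
  have hj2 : (j : ℝ) < N / n + 1 := Nat.ceil_lt_add_one (by positivity)
  have hjpos : (0 : ℝ) < j := lt_of_lt_of_le (by positivity) hj1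
  have hj0 : 1 ≤ j := by exact_mod_cast Nat.pos_of_ne_zero (by rintro h; rw [h] at hjpos; simp at hjpos)
  have hjN : j ≤ N := by
    rw [hj, Nat.ceil_le]
    rw [div_le_iff₀ hn0]
    have : (1 : ℝ) ≤ n := by exact_mod_cast (by omega : 1 ≤ n)
    nlinarith
  have hsplit : steps n r Δ N = ∑ i ∈ Finset.range j, 1 / dlow n r Δ (i + 1)
      + ∑ i ∈ Finset.Ico j N, 1 / dlow n r Δ (i + 1) := by
    unfold steps
    rw [Finset.range_eq_Ico, Finset.range_eq_Ico, Finset.sum_Ico_consecutive _ (Nat.zero_le _) hjN]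
  have hs1 : ∑ i ∈ Finset.range j, 1 / dlow n r Δ (i + 1) ≤ 4 * N / n ^ 2 + 4 * N / n ^ 2 := by
    calc ∑ i ∈ Finset.range j, 1 / dlow n r Δ (i + 1)
        ≤ ∑ _i ∈ Finset.range j, (4 : ℝ) / n := Finset.sum_le_sum fun i _ => hb1 _
      _ = j * (4 / n) := by rw [Finset.sum_const, Finset.card_range, nsmul_eq_mul]
      _ ≤ (N / n + N / n) * (4 / n) := by
          have : (1 : ℝ) ≤ N / n := by rw [le_div_iff₀ hn0]; linarith
          gcongr
          linarith
      _ = _ := by field_simp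
  have htel : ∀ i : ℕ, 1 ≤ i → (1 : ℝ) / (i + 1 : ℕ) ≤ Real.log ((i + 1 : ℕ) : ℝ) - Real.log i := by
    intro i hi
    have hi0 : (0 : ℝ) < i := by exact_mod_cast hi
    have h1 := Real.log_le_sub_one_of_pos (x := (i : ℝ) / (i + 1 : ℕ)) (by positivity)
    rw [Real.log_div (by positivity) (by positivity)] at h1
    have h2 : (i : ℝ) / (i + 1 : ℕ) - 1 = - (1 / (i + 1 : ℕ)) := by
      push_cast
      field_simp
      ring
    rw [h2] at h1
    linarith
  have hs2 : ∑ i ∈ Finset.Ico j N, 1 / dlow n r Δ (i + 1) ≤ 32 * N / n ^ 2 * Real.log n := by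
    calc ∑ i ∈ Finset.Ico j N, 1 / dlow n r Δ (i + 1)
        ≤ ∑ i ∈ Finset.Ico j N, 32 * N / n ^ 2 *
            (Real.log ((i + 1 : ℕ) : ℝ) - Real.log i) := by
          refine Finset.sum_le_sum fun i hi => ?_
          rw [Finset.mem_Ico] at hi
          refine (hb2 (i + 1) (by omega)).trans ?_
          have h1 := htel i (by omega)
          calc 32 * (N : ℝ) / (n ^ 2 * (i + 1 : ℕ)) = 32 * N / n ^ 2 * (1 / (i + 1 : ℕ)) := by
                field_simp
            _ ≤ _ := by gcongr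
      _ = 32 * N / n ^ 2 * (Real.log N - Real.log j) := by
          rw [← Finset.mul_sum]
          congr 1
          exact Finset.sum_Ico_sub (fun i : ℕ => Real.log (i : ℝ)) hjN
      _ ≤ 32 * N / n ^ 2 * Real.log n := by
          have : Real.log N - Real.log j ≤ Real.log n := by
            rw [← Real.log_div hN0.ne' hjpos.ne']
            apply Real.log_le_log (by positivity)
            rw [div_le_iff₀ hjpos]
            rw [div_le_iff₀ hn0] at hj1
            linarith
          gcongr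
  rw [hsplit]
  calc _ ≤ (4 * N / n ^ 2 + 4 * N / n ^ 2) + 32 * N / n ^ 2 * Real.log n := add_le_add hs1 hs2
    _ ≤ (4 * N / n ^ 2 + 4 * N / n ^ 2) * Real.log n + 32 * N / n ^ 2 * Real.log n := by
        have : (0 : ℝ) ≤ 4 * N / n ^ 2 + 4 * N / n ^ 2 := by positivity
        nlinarith
    _ = _ := by ring

end Pool.Agent.Helper77
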