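import Pool.Agent.Helper77.MatroidLocal

/-!
Covering non-bases by circuits and cocircuits.
-/

open Finset Matroid

namespace Pool.Agent.Helper77

set_option linter.unusedSectionVars false

variable {α : Type*} [DecidableEq α] [Fintype α] {M : Matroid α}

/-- `X` is covered by the pair of families `z`. -/
def Cov (z : Finset (Finset α) × Finset (Finset α)) (X : Finset α) : Prop :=
  (∃ C ∈ z.1, C ⊆ X) ∨ (∃ D ∈ z.2, Disjoint D X)

/-- `X` is deduced to be a nonbase from the pair of families `z`. -/
def Ded (z : Finset (Finset α) × Finset (Finset α)) (X : Finset α) : Prop :=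
  (∃ C₁ ∈ z.1, ∃ C₂ ∈ z.1, C₁ ≠ C₂ ∧ ((C₁ ∪ C₂) \ X).card ≤ 1) ∨
  (∃ D₁ ∈ z.2, ∃ D₂ ∈ z.2, D₁ ≠ D₂ ∧ ((D₁ ∪ D₂) ∩ X).card ≤ 1)

/-- `z` consists of circuits and cocircuits of `M`. -/
def Valid (M : Matroid α) (z : Finset (Finset α) × Finset (Finset α)) : Prop :=
  (∀ C ∈ z.1, M.IsCircuit (C : Set α)) ∧ (∀ D ∈ z.2, M.IsCocircuit (D : Set α))

lemma not_isBase_of_cov {z : Finset (Finset α) × Finset (Finset α)} (hz : Valid M z)
    {X : Finset α} (h : Cov z X) : ¬ M.IsBase (X : Set α) := by
  intro hb
  rcases h with ⟨C, hC, hCX⟩ | ⟨D, hD, hDX⟩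
  · exact circuit_not_subset (hz.1 C hC) hb.indep hCX
  · exact cocircuit_not_disjoint (hz.2 D hD) hb hDX

lemma not_isBase_of_ded {z : Finset (Finset α) × Finset (Finset α)} (hz : Valid M z)
    {X : Finset α} (h : Ded z X) : ¬ M.IsBase (X : Set α) := by
  intro hb
  rcases h with ⟨C₁, hC₁, C₂, hC₂, hne, hcard⟩ | ⟨D₁, hD₁, D₂, hD₂, hne, hcard⟩
  · have h1 := hz.1 _ hC₁
    have h2 := hz.1 _ hC₂
    have hn1 : ¬ C₁ ⊆ X := circuit_not_subset h1 hb.indep
    obtain ⟨y, hy1, hyX⟩ := Finset.not_subset.1 hn1
    have hy : y ∈ (C₁ ∪ C₂) \ X := by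
      rw [Finset.mem_sdiff]; exact ⟨Finset.mem_union_left _ hy1, hyX⟩
    have hall : ∀ a ∈ (C₁ ∪ C₂) \ X, a = y := fun a ha =>
      Finset.card_le_one.1 hcard a ha y hy
    have hsub : ∀ C : Finset α, C ⊆ C₁ ∪ C₂ → (C : Set α) ⊆ insert y (X : Set α) := by
      intro C hC a ha
      by_cases haX : a ∈ X
      · exact Or.inr (by exact_mod_cast haX)
      · exact Or.inl (hall a (by
          rw [Finset.mem_sdiff]; exact ⟨hC (by exact_mod_cast ha), haX⟩))
    have e1 := h1.eq_fundCircuit_of_subset hb.indep (hsub C₁ Finset.subset_union_left)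
    have e2 := h2.eq_fundCircuit_of_subset hb.indep (hsub C₂ Finset.subset_union_right)
    apply hne
    have : (C₁ : Set α) = C₂ := e1.trans e2.symm
    exact_mod_cast this
  · have h1 := hz.2 _ hD₁
    have h2 := hz.2 _ hD₂
    have hn1 := cocircuit_not_disjoint h1 hb
    obtain ⟨y, hy1, hyX⟩ := Finset.not_disjoint_iff.1 hn1
    have hy : y ∈ (D₁ ∪ D₂) ∩ X := by
      rw [Finset.mem_inter]; exact ⟨Finset.mem_union_left _ hy1, hyX⟩
    have hall : ∀ a ∈ (D₁ ∪ D₂) ∩ X, a = y := fun a ha =>
      Finset.card_le_one.1 hcard a ha y hy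
    have hind : M✶.Indep (M✶.E \ (X : Set α)) := hb.compl_isBase_dual.indep
    have hsub : ∀ D : Finset α, D ⊆ D₁ ∪ D₂ → M.IsCocircuit (D : Set α) →
        (D : Set α) ⊆ insert y (M✶.E \ (X : Set α)) := by
      intro D hD hDc a ha
      by_cases haX : a ∈ X
      · exact Or.inl (hall a (by
          rw [Finset.mem_inter]; exact ⟨hD (by exact_mod_cast ha), haX⟩))
      · exact Or.inr ⟨hDc.isCircuit.subset_ground ha, fun h => haX (by exact_mod_cast h)⟩
    have e1 := IsCircuit.eq_fundCircuit_of_subset h1 hind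
      (hsub D₁ Finset.subset_union_left h1)
    have e2 := IsCircuit.eq_fundCircuit_of_subset h2 hind
      (hsub D₂ Finset.subset_union_right h2)
    apply hne
    have : (D₁ : Set α) = D₂ := e1.trans e2.symm
    exact_mod_cast this

/-- Claim B: an uncovered nonbase all of whose nonbase neighbours are covered (and which has a
nonbase neighbour) is deduced. -/
theorem ded_of_all_neighbours_cov (hE : M.E = Set.univ)
    (hloop : ∀ e, ¬ M.IsLoop e) (hcoloop : ∀ e, ¬ M.IsColoop e)
    {z : Finset (Finset α) × Finset (Finset α)} (hz : Valid M z)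
    {X : Finset α} (hXc : X.card = rk M) (hX : ¬ M.IsBase (X : Set α)) (hXu : ¬ Cov z X)
    (hcov : ∀ Y : Finset α, JAdj X Y → ¬ M.IsBase (Y : Set α) → Cov z Y)
    (hex : ∃ Y : Finset α, JAdj X Y ∧ ¬ M.IsBase (Y : Set α)) : Ded z X := by
  obtain ⟨Y, hXY, hY⟩ := hex
  obtain ⟨x, hx, y, hy, rfl⟩ := jadj_iff_swap.1 hXY
  obtain ⟨C₀, hC₀, hC₀X⟩ := exists_circuit hE hXc hX
  obtain ⟨D₀, hD₀, hD₀X⟩ := exists_cocircuit hE hXc hX
  -- every circuit / cocircuit has at least two elements
  have hC2 : ∀ C : Finset α, M.IsCircuit (C : Set α) → ∀ a ∈ C, ∃ b ∈ C, b ≠ a := by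
    intro C hC a ha
    by_contra hcon
    push Not at hcon
    have : C = {a} := by
      ext w
      rw [Finset.mem_singleton]
      exact ⟨fun h => hcon w h, fun h => h ▸ ha⟩
    apply hloop a
    rw [← singleton_isCircuit]
    rw [this] at hC
    simpa using hC
  have hD2 : ∀ D : Finset α, M.IsCocircuit (D : Set α) → ∀ a ∈ D, ∃ b ∈ D, b ≠ a := by
    intro D hD a ha
    by_contra hcon
    push Not at hcon
    have : D = {a} := by
      ext w
      rw [Finset.mem_singleton]
      exact ⟨fun h => hcon w h, fun h => h ▸ ha⟩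
    apply hcoloop a
    rw [← singleton_isCocircuit]
    rw [this] at hD
    simpa using hD
  rcases hcov _ hXY hY with ⟨C', hC', hC'Y⟩ | ⟨D', hD', hD'Y⟩
  · -- Case II
    have hC'c := hz.1 _ hC'
    have hC'X : ¬ C' ⊆ X := fun h => hXu (Or.inl ⟨C', hC', h⟩)
    have hyC' : y ∈ C' := by
      by_contra hyn
      apply hC'X
      intro w hw
      have := hC'Y hw
      rw [Finset.mem_insert] at this
      rcases this with rfl | h
      · exact absurd hw hyn
      · exact Finset.mem_of_mem_erase h
    have hC'mem : ∀ w ∈ C', w ≠ y → w ∈ X ∧ w ≠ x := by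
      intro w hw hwy
      have := hC'Y hw
      rw [Finset.mem_insert] at this
      rcases this with rfl | h
      · exact absurd rfl hwy
      · exact ⟨Finset.mem_of_mem_erase h, Finset.ne_of_mem_erase h⟩
    obtain ⟨e, he, hey⟩ := hC2 C' hC'c y hyC'
    obtain ⟨heX, hex⟩ := hC'mem e he hey
    -- y ∉ D₀
    have hyD₀ : y ∉ D₀ := by
      intro hyD
      apply circ_cocirc hC'c hD₀ y
      ext w
      simp only [Finset.mem_inter, Finset.mem_singleton]
      constructor
      · rintro ⟨h1, h2⟩
        by_contra hwy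
        exact Finset.disjoint_left.1 hD₀X h2 (hC'mem w h1 hwy).1
      · rintro rfl
        exact ⟨hyC', hyD⟩
    have hnb : ¬ M.IsBase ((insert y (X.erase e) : Finset α) : Set α) := by
      intro hb
      apply cocircuit_not_disjoint hD₀ hb
      rw [Finset.disjoint_left]
      intro w hw hw2
      rw [Finset.mem_insert] at hw2
      rcases hw2 with rfl | hw2
      · exact hyD₀ hw
      · exact Finset.disjoint_left.1 hD₀X hw (Finset.mem_of_mem_erase hw2)
    rcases hcov _ (jadj_swap heX hy) hnb with ⟨C'', hC'', hC''Y⟩ | ⟨D'', hD'', hD''Y⟩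
    · left
      refine ⟨C', hC', C'', hC'', ?_, ?_⟩
      · rintro rfl
        have := hC''Y he
        rw [Finset.mem_insert] at this
        rcases this with h | h
        · exact hey h
        · exact Finset.ne_of_mem_erase h rfl
      · rw [Finset.card_le_one]
        have hall : ∀ w ∈ (C' ∪ C'') \ X, w = y := by
          intro w hw
          rw [Finset.mem_sdiff, Finset.mem_union] at hw
          rcases hw.1 with h | h
          · by_contra hwy
            exact hw.2 (hC'mem w h hwy).1
          · have := hC''Y h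
            rw [Finset.mem_insert] at this
            rcases this with h | h
            · exact h
            · exact absurd (Finset.mem_of_mem_erase h) hw.2
        intro a ha b hb
        rw [hall a ha, hall b hb]
    · exfalso
      have hD''c := hz.2 _ hD''
      have hnd : ¬ Disjoint D'' X := fun h => hXu (Or.inr ⟨D'', hD'', h⟩)
      have hyD'' : y ∉ D'' := fun h =>
        Finset.disjoint_left.1 hD''Y h (Finset.mem_insert_self _ _)
      have hmem : ∀ w ∈ D'', w ∈ X → w = e := by
        intro w hw hwX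
        by_contra hwe
        exact Finset.disjoint_left.1 hD''Y hw
          (Finset.mem_insert_of_mem (Finset.mem_erase.2 ⟨hwe, hwX⟩))
      obtain ⟨w, hw, hwX⟩ := Finset.not_disjoint_iff.1 hnd
      have hwe := hmem w hw hwX
      rw [hwe] at hw
      apply circ_cocirc hC'c hD''c e
      ext v
      simp only [Finset.mem_inter, Finset.mem_singleton]
      constructor
      · rintro ⟨h1, h2⟩
        by_cases hvy : v = y
        · exact absurd (hvy ▸ h2) hyD''
        · exact hmem v h2 (hC'mem v h1 hvy).1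
      · rintro rfl
        exact ⟨he, hw⟩
  · -- Case I
    have hD'c := hz.2 _ hD'
    have hnd : ¬ Disjoint D' X := fun h => hXu (Or.inr ⟨D', hD', h⟩)
    have hmem : ∀ w ∈ D', w ∈ X → w = x := by
      intro w hw hwX
      by_contra hwe
      exact Finset.disjoint_left.1 hD'Y hw
        (Finset.mem_insert_of_mem (Finset.mem_erase.2 ⟨hwe, hwX⟩))
    obtain ⟨w, hw, hwX⟩ := Finset.not_disjoint_iff.1 hnd
    have hxD' : x ∈ D' := by rw [← hmem w hw hwX]; exact hw
    obtain ⟨d, hd, hdx⟩ := hD2 D' hD'c x hxD'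
    have hdX : d ∉ X := fun h => hdx (hmem d hd h)
    -- x ∉ C₀
    have hxC₀ : x ∉ C₀ := by
      intro hxC
      apply circ_cocirc hC₀ hD'c x
      ext v
      simp only [Finset.mem_inter, Finset.mem_singleton]
      constructor
      · rintro ⟨h1, h2⟩
        exact hmem v h2 (hC₀X h1)
      · rintro rfl
        exact ⟨hxC, hxD'⟩
    have hnb : ¬ M.IsBase ((insert d (X.erase x) : Finset α) : Set α) := by
      intro hb
      apply circuit_not_subset hC₀ hb.indep
      intro v hv
      refine Finset.mem_insert_of_mem (Finset.mem_erase.2 ⟨?_, hC₀X hv⟩)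
      rintro rfl
      exact hxC₀ hv
    rcases hcov _ (jadj_swap hx hdX) hnb with ⟨C'', hC'', hC''Y⟩ | ⟨D'', hD'', hD''Y⟩
    · exfalso
      have hC''c := hz.1 _ hC''
      have hC''X : ¬ C'' ⊆ X := fun h => hXu (Or.inl ⟨C'', hC'', h⟩)
      have hdC'' : d ∈ C'' := by
        by_contra hyn
        apply hC''X
        intro w hw
        have := hC''Y hw
        rw [Finset.mem_insert] at this
        rcases this with rfl | h
        · exact absurd hw hyn
        · exact Finset.mem_of_mem_erase h
      apply circ_cocirc hC''c hD'c d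
      ext v
      simp only [Finset.mem_inter, Finset.mem_singleton]
      constructor
      · rintro ⟨h1, h2⟩
        have := hC''Y h1
        rw [Finset.mem_insert] at this
        rcases this with h | h
        · exact h
        · exact absurd (hmem v h2 (Finset.mem_of_mem_erase h)) (Finset.ne_of_mem_erase h)
      · rintro rfl
        exact ⟨hdC'', hd⟩
    · right
      have hdD'' : d ∉ D'' := fun h =>
        Finset.disjoint_left.1 hD''Y h (Finset.mem_insert_self _ _)
      refine ⟨D', hD', D'', hD'', ?_, ?_⟩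
      · rintro rfl
        exact hdD'' hd
      · rw [Finset.card_le_one]
        have hall : ∀ w ∈ (D' ∪ D'') ∩ X, w = x := by
          intro w hw
          rw [Finset.mem_inter, Finset.mem_union] at hw
          rcases hw.1 with h | h
          · exact hmem w h hw.2
          · by_contra hwx
            exact Finset.disjoint_left.1 hD''Y h
              (Finset.mem_insert_of_mem (Finset.mem_erase.2 ⟨hwx, hw.2⟩))
        intro a ha b hb
        rw [hall a ha, hall b hb]

end Pool.Agent.Helper77
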