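import Pool.Agent.Helper77.Greedy

/-!
Decoding the set of non-bases from a code and a stable set.
-/

open Finset Matroid

namespace Pool.Agent.Helper77

set_option linter.unusedSectionVars false

variable {α : Type*} [DecidableEq α] [Fintype α] {M : Matroid α}

open scoped Classical in
/-- A step that stays inside the uncovered non-bases. -/
def Stepz (z : Finset (Finset α) × Finset (Finset α)) (Δ : ℕ) (X Y : Finset α) : Prop :=
  ∃ x ∈ X, ∃ y, y ∉ X ∧ Y = insert y (X.erase x) ∧ ¬ Cov z Y ∧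
    ((Finset.univ.filter (fun y' => y' ∉ X ∧ ¬ Cov z (insert y' (X.erase x)))).card ≤ Δ ∨
     (X.filter (fun x' => ¬ Cov z (insert y (X.erase x')))).card ≤ Δ)

/-- `z` is a code for `M`. -/
structure CodeFor (M : Matroid α) (c₀ d₀ Δ : ℕ) (z : Finset (Finset α) × Finset (Finset α)) :
    Prop where
  valid : Valid M z
  circ : ∀ C : Finset α, M.IsCircuit (C : Set α) → C.card ≤ c₀ → C ∈ z.1
  cocirc : ∀ D : Finset α, M.IsCocircuit (D : Set α) → D.card ≤ d₀ → D ∈ z.2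
  nbr : ∀ X ∈ Kunc M z, ∃ Y : Finset α, JAdj X Y ∧ M.IsBase (Y : Set α)
  stop : ∀ X ∈ Kunc M z, jdeg (Kunc M z) X ≤ Δ

lemma CodeFor.localPair (hE : M.E = Set.univ) {c₀ d₀ Δ : ℕ}
    {z : Finset (Finset α) × Finset (Finset α)} (h : CodeFor M c₀ d₀ Δ z) {X : Finset α}
    (hX : X ∈ Kunc M z) : ∃ C D : Finset α, LocalPair M X C D ∧ c₀ < C.card ∧ d₀ < D.card := by
  obtain ⟨Y, hXY, hY⟩ := h.nbr X hX
  obtain ⟨x₀, hx₀, y₀, hy₀, rfl⟩ := jadj_iff_swap.1 hXY
  rw [mem_Kunc] at hX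
  obtain ⟨C, D, hL⟩ := exists_localPair hE hX.2.1 hx₀ hy₀ hY
  refine ⟨C, D, hL, ?_, ?_⟩
  · by_contra hle
    exact hX.2.2 (Or.inl ⟨C, h.circ C hL.1 (by omega), hL.2.2.1⟩)
  · by_contra hle
    exact hX.2.2 (Or.inr ⟨D, h.cocirc D hL.2.1 (by omega), hL.2.2.2.1⟩)

lemma swap_inj_right {X : Finset α} {x y y' : α} (hy : y ∉ X)
    (h : insert y (X.erase x) = insert y' (X.erase x)) : y = y' := by
  have h1 : y ∈ insert y' (X.erase x) := by rw [← h]; exact Finset.mem_insert_self _ _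
  rcases Finset.mem_insert.1 h1 with h1 | h1
  · exact h1
  · exact absurd (Finset.mem_of_mem_erase h1) hy

lemma swap_inj_left {X : Finset α} {x x' y : α} (hx : x ∈ X) (hy : y ∉ X)
    (h : insert y (X.erase x) = insert y (X.erase x')) : x = x' := by
  by_contra hne
  have h1 : x ∈ insert y (X.erase x') :=
    Finset.mem_insert_of_mem (Finset.mem_erase.2 ⟨hne, hx⟩)
  rw [← h, Finset.mem_insert] at h1
  rcases h1 with h1 | h1
  · exact hy (h1 ▸ hx)
  · exact Finset.ne_of_mem_erase h1 rfl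

lemma CodeFor.stepz_iff (hE : M.E = Set.univ) {c₀ d₀ Δ : ℕ}
    {z : Finset (Finset α) × Finset (Finset α)} (h : CodeFor M c₀ d₀ Δ z)
    (hc : Δ < c₀) (hd : Δ < d₀) {X Y : Finset α}
    (hX : X ∈ Kunc M z) : Stepz z Δ X Y ↔ JAdj X Y ∧ Y ∈ Kunc M z := by
  classical
  obtain ⟨C, D, ⟨hC, hD, hCX, hDX, hloc⟩, hCc, hDc⟩ := h.localPair hE hX
  have hXK := mem_Kunc.1 hX
  constructor
  · rintro ⟨x, hx, y, hy, rfl, hcov, hor⟩
    refine ⟨jadj_swap hx hy, mem_Kunc.2 ⟨by rw [card_swap hx hy, hXK.1], ?_, hcov⟩⟩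
    rw [hloc x hx y hy]
    rintro ⟨hxC, hyD⟩
    rcases hor with h1 | h1
    · have : D.card ≤ (Finset.univ.filter
          (fun y' => y' ∉ X ∧ ¬ Cov z (insert y' (X.erase x)))).card := by
        refine Finset.card_le_card fun y' hy' => ?_
        have hy'X : y' ∉ X := Finset.disjoint_left.1 hDX hy'
        refine Finset.mem_filter.2 ⟨Finset.mem_univ _, hy'X, fun hc => ?_⟩
        exact not_isBase_of_cov h.valid hc ((hloc x hx y' hy'X).2 ⟨hxC, hy'⟩)
      omega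
    · have : C.card ≤ (X.filter (fun x' => ¬ Cov z (insert y (X.erase x')))).card := by
        refine Finset.card_le_card fun x' hx' => ?_
        refine Finset.mem_filter.2 ⟨hCX hx', fun hc => ?_⟩
        exact not_isBase_of_cov h.valid hc ((hloc x' (hCX hx') y hy).2 ⟨hx', hyD⟩)
      omega
  · rintro ⟨hXY, hYK⟩
    obtain ⟨x, hx, y, hy, rfl⟩ := jadj_iff_swap.1 hXY
    have hYK' := mem_Kunc.1 hYK
    refine ⟨x, hx, y, hy, rfl, hYK'.2.2, ?_⟩
    have hnb := hYK'.2.1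
    rw [hloc x hx y hy] at hnb
    have hst := h.stop X hX
    by_cases hxC : x ∈ C
    · have hyD : y ∉ D := fun h => hnb ⟨hxC, h⟩
      right
      refine le_trans ?_ hst
      refine Finset.card_le_card_of_injOn (fun x' => insert y (X.erase x')) ?_ ?_
      · intro x' hx'
        rw [Finset.mem_coe, Finset.mem_filter] at hx'
        rw [Finset.mem_coe, Finset.mem_filter]
        refine ⟨mem_Kunc.2 ⟨by rw [card_swap hx'.1 hy, hXK.1], ?_, hx'.2⟩, jadj_swap hx'.1 hy⟩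
        rw [hloc x' hx'.1 y hy]
        exact fun h => hyD h.2
      · intro x₁ hx₁ x₂ _ heq
        rw [Finset.mem_coe, Finset.mem_filter] at hx₁
        exact swap_inj_left hx₁.1 hy heq
    · left
      refine le_trans ?_ hst
      refine Finset.card_le_card_of_injOn (fun y' => insert y' (X.erase x)) ?_ ?_
      · intro y' hy'
        rw [Finset.mem_coe, Finset.mem_filter] at hy'
        rw [Finset.mem_coe, Finset.mem_filter]
        refine ⟨mem_Kunc.2 ⟨by rw [card_swap hx hy'.2.1, hXK.1], ?_, hy'.2.2⟩,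
          jadj_swap hx hy'.2.1⟩
        rw [hloc x hx y' hy'.2.1]
        exact fun h => hxC h.1
      · intro y₁ hy₁ y₂ _ heq
        rw [Finset.mem_coe, Finset.mem_filter] at hy₁
        exact swap_inj_right hy₁.2.1 heq

/-- number of nonbase neighbours of an uncovered nonbase -/
lemma CodeFor.card_nbrs_le (hE : M.E = Set.univ) {c₀ d₀ Δ t : ℕ}
    {z : Finset (Finset α) × Finset (Finset α)} (h : CodeFor M c₀ d₀ Δ z)
    (ht1 : rk M ≤ c₀ + t) (ht2 : Fintype.card α - rk M ≤ d₀ + t) {X : Finset α}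
    (hX : X ∈ Kunc M z) :
    ((NB M).filter (fun Y => JAdj X Y)).card ≤ t * Fintype.card α := by
  classical
  obtain ⟨C, D, ⟨hC, hD, hCX, hDX, hloc⟩, hCc, hDc⟩ := h.localPair hE hX
  have hXK := mem_Kunc.1 hX
  have hsub : (NB M).filter (fun Y => JAdj X Y) ⊆
      (((X \ C) ×ˢ Xᶜ) ∪ (X ×ˢ (Xᶜ \ D))).image
        (fun p : α × α => insert p.2 (X.erase p.1)) := by
    intro Y hY
    rw [Finset.mem_filter, mem_NB] at hY
    obtain ⟨x, hx, y, hy, rfl⟩ := jadj_iff_swap.1 hY.2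
    have hnb := hY.1.2
    rw [hloc x hx y hy] at hnb
    rw [Finset.mem_image]
    refine ⟨(x, y), ?_, rfl⟩
    rw [Finset.mem_union, Finset.mem_product, Finset.mem_product]
    by_cases hxC : x ∈ C
    · right
      exact ⟨hx, Finset.mem_sdiff.2 ⟨Finset.mem_compl.2 hy, fun h => hnb ⟨hxC, h⟩⟩⟩
    · left
      exact ⟨Finset.mem_sdiff.2 ⟨hx, hxC⟩, Finset.mem_compl.2 hy⟩
  have h1 : (X \ C).card ≤ t := by
    rw [Finset.card_sdiff_of_subset hCX]; omega
  have hDX' : D ⊆ Xᶜ := by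
    intro v hv
    rw [Finset.mem_compl]
    exact Finset.disjoint_left.1 hDX hv
  have h2 : (Xᶜ \ D).card ≤ t := by
    rw [Finset.card_sdiff_of_subset hDX', Finset.card_compl]; omega
  calc ((NB M).filter (fun Y => JAdj X Y)).card
      ≤ _ := Finset.card_le_card hsub
    _ ≤ _ := Finset.card_image_le
    _ ≤ _ := Finset.card_union_le _ _
    _ = (X \ C).card * (Xᶜ).card + X.card * (Xᶜ \ D).card := by
        rw [Finset.card_product, Finset.card_product]
    _ ≤ t * (Xᶜ).card + X.card * t := by gcongr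
    _ = t * (X.card + (Xᶜ).card) := by ring
    _ = t * Fintype.card α := by rw [Finset.card_add_card_compl]

open scoped Classical in
/-- the decoded set of non-bases -/
noncomputable def Kdec (r : ℕ) (z : Finset (Finset α) × Finset (Finset α)) (Δ : ℕ)
    (Q : Finset (Finset α)) : Finset (Finset α) :=
  (Finset.powersetCard r Finset.univ).filter (fun X => Cov z X ∨ Ded z X ∨
    ∃ Y ∈ Q, ¬ Cov z Y ∧ Relation.ReflTransGen (Stepz z Δ) Y X)

/-- `Q` is a valid certificate. -/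
structure Cert (M : Matroid α) (z : Finset (Finset α) × Finset (Finset α))
    (Q : Finset (Finset α)) : Prop where
  unc : ∀ Y ∈ Q, ¬ Cov z Y → Y ∈ Kunc M z
  iso : ∀ X ∈ Kunc M z, (∀ Y ∈ NB M, ¬ JAdj X Y) → X ∈ Q
  reach : ∀ X ∈ Kunc M z, ∀ Y ∈ Kunc M z, JAdj X Y → ∃ Z ∈ Q, Z ∈ Kunc M z ∧
    Relation.ReflTransGen (fun U V => JAdj U V ∧ U ∈ Kunc M z ∧ V ∈ Kunc M z) Z X

theorem CodeFor.kdec_eq (hE : M.E = Set.univ)
    (hloop : ∀ e, ¬ M.IsLoop e) (hcoloop : ∀ e, ¬ M.IsColoop e) {c₀ d₀ Δ : ℕ}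
    {z : Finset (Finset α) × Finset (Finset α)} (h : CodeFor M c₀ d₀ Δ z)
    (hc : Δ < c₀) (hd : Δ < d₀) {Q : Finset (Finset α)} (hQ : Cert M z Q) :
    Kdec (rk M) z Δ Q = NB M := by
  classical
  ext X
  rw [mem_NB]
  simp only [Kdec, Finset.mem_filter, Finset.mem_powersetCard, Finset.subset_univ, true_and]
  constructor
  · rintro ⟨hXc, hor⟩
    refine ⟨hXc, ?_⟩
    rcases hor with h1 | h1 | ⟨Y, hYQ, hYu, hreach⟩
    · exact not_isBase_of_cov h.valid h1
    · exact not_isBase_of_ded h.valid h1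
    · have hYK := hQ.unc Y hYQ hYu
      have : X ∈ Kunc M z := by
        clear hXc
        induction hreach with
        | refl => exact hYK
        | tail _ hstep ih => exact ((h.stepz_iff hE hc hd ih).1 hstep).2
      exact (mem_Kunc.1 this).2.1
  · rintro ⟨hXc, hXnb⟩
    refine ⟨hXc, ?_⟩
    by_cases hcov : Cov z X
    · exact Or.inl hcov
    right
    have hXK : X ∈ Kunc M z := mem_Kunc.2 ⟨hXc, hXnb, hcov⟩
    by_cases hiso : ∀ Y ∈ NB M, ¬ JAdj X Y
    · right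
      exact ⟨X, hQ.iso X hXK hiso, hcov, Relation.ReflTransGen.refl⟩
    push Not at hiso
    obtain ⟨Y₀, hY₀, hXY₀⟩ := hiso
    by_cases hall : ∀ Y : Finset α, JAdj X Y → ¬ M.IsBase (Y : Set α) → Cov z Y
    · left
      exact ded_of_all_neighbours_cov hE hloop hcoloop h.valid hXc hXnb hcov hall
        ⟨Y₀, hXY₀, (mem_NB.1 hY₀).2⟩
    · push Not at hall
      obtain ⟨Y, hXY, hYnb, hYu⟩ := hall
      have hYK : Y ∈ Kunc M z := mem_Kunc.2 ⟨by rw [← hXY.1, hXc], hYnb, hYu⟩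
      obtain ⟨Z, hZQ, hZK, hreach⟩ := hQ.reach X hXK Y hYK hXY
      right
      refine ⟨Z, hZQ, (mem_Kunc.1 hZK).2.2, ?_⟩
      refine Relation.ReflTransGen.mono ?_ _ _ hreach
      rintro U V ⟨hUV, hU, hV⟩
      exact (h.stepz_iff hE hc hd hU).2 ⟨hUV, hV⟩

end Pool.Agent.Helper77
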