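import Pool.Agent.Helper77.SparsePaving

/-!
Principal single-element extensions; matroids with loops or coloops are rare.
-/

open Set Matroid

namespace Pool.Agent.Helper77

set_option linter.unusedSectionVars false

variable {n : ℕ}

/-- independence predicate of the principal extension -/
def extIndep (N : Matroid (Fin n)) (e : Fin n) (S : Set (Fin n)) (I : Set (Fin n)) : Prop :=
  N.Indep (I \ {e}) ∧ (e ∈ I → ¬ S ⊆ N.closure (I \ {e}))

lemma ncard_le_of_subset_closure {N : Matroid (Fin n)} {I J : Set (Fin n)} (hI : N.Indep I)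
    (hJ : N.Indep J) (h : J ⊆ N.closure I) : J.ncard ≤ I.ncard := by
  have h1 := hJ.encard_le_eRk_of_subset h
  rw [N.eRk_closure_eq, hI.eRk_eq_encard] at h1
  rw [← (Set.toFinite J).cast_ncard_eq, ← (Set.toFinite I).cast_ncard_eq] at h1
  exact_mod_cast h1

lemma closure_eq_of_ncard {N : Matroid (Fin n)} {I J : Set (Fin n)} (hI : N.Indep I)
    (hJ : N.Indep J) (h : J ⊆ N.closure I) (hc : I.ncard ≤ J.ncard) :
    N.closure J = N.closure I := by
  have hJf : N.IsRkFinite J := N.isRkFinite_of_finite (Set.toFinite J)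
  have h1 : N.eRk (N.closure I) ≤ N.eRk J := by
    rw [N.eRk_closure_eq, hI.eRk_eq_encard, hJ.eRk_eq_encard,
      ← (Set.toFinite J).cast_ncard_eq, ← (Set.toFinite I).cast_ncard_eq]
    exact_mod_cast hc
  rw [hJf.closure_eq_closure_of_subset_of_eRk_ge_eRk h h1, N.closure_closure]

lemma extIndep_aug {N : Matroid (Fin n)} {e : Fin n} (he : e ∉ N.E) {S : Set (Fin n)}
    {I J : Set (Fin n)} (hI : extIndep N e S I) (hJ : extIndep N e S J)
    (hcard : I.ncard < J.ncard) : ∃ x ∈ J, x ∉ I ∧ extIndep N e S (insert x I) := by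
  obtain ⟨hI1, hI2⟩ := hI
  obtain ⟨hJ1, hJ2⟩ := hJ
  by_cases heI : e ∈ I
  · -- e ∈ I
    have hIc : (I \ {e}).ncard + 1 = I.ncard := Set.ncard_sdiff_singleton_add_one heI
    have hS := hI2 heI
    obtain ⟨s, hsS, hs⟩ := Set.not_subset.1 hS
    by_contra hcon
    push Not at hcon
    have key : ∀ x ∈ J \ {e}, x ∉ N.closure (I \ {e}) → S ⊆ N.closure (insert x (I \ {e})) := by
      intro x hx hxc
      have hxI : x ∉ I := fun h => hxc (N.subset_closure _ hI1.subset_ground ⟨h, hx.2⟩)
      have h1 := hcon x hx.1 hxI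
      have hxe : x ≠ e := hx.2
      have h2 : insert x I \ {e} = insert x (I \ {e}) := by
        ext v
        simp only [Set.mem_sdiff, Set.mem_insert_iff, Set.mem_singleton_iff]
        constructor
        · rintro ⟨h | h, h'⟩
          · exact Or.inl h
          · exact Or.inr ⟨h, h'⟩
        · rintro (h | ⟨h, h'⟩)
          · exact ⟨Or.inl h, by rw [h]; exact hxe⟩
          · exact ⟨Or.inr h, h'⟩
      unfold extIndep at h1
      rw [h2] at h1
      have h3 : N.Indep (insert x (I \ {e})) := by
        rw [hI1.insert_indep_iff_of_notMem (fun h => hxI h.1)]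
        exact ⟨hJ1.subset_ground hx, hxc⟩
      by_contra hSc
      exact h1 ⟨h3, fun _ => hSc⟩
    have hex : ∃ x ∈ J \ {e}, x ∉ N.closure (I \ {e}) := by
      by_contra hcon2
      push Not at hcon2
      have h1 := ncard_le_of_subset_closure hI1 hJ1 hcon2
      have h2 : J.ncard ≤ (J \ {e}).ncard + 1 := Set.ncard_le_ncard_sdiff_add_ncard J {e} |>.trans
        (by rw [Set.ncard_singleton])
      omega
    obtain ⟨x₀, hx₀, hx₀c⟩ := hex
    have hsx : s ∈ N.closure (insert x₀ (I \ {e})) := key x₀ hx₀ hx₀c hsS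
    have hsE : s ∈ N.E := N.closure_subset_ground _ hsx
    have hsI : s ∉ I \ {e} := fun h => hs (N.subset_closure _ hI1.subset_ground h)
    have hIs : N.Indep (insert s (I \ {e})) := by
      rw [hI1.insert_indep_iff_of_notMem hsI]
      exact ⟨hsE, hs⟩
    have hJs : J \ {e} ⊆ N.closure (insert s (I \ {e})) := by
      intro x hx
      by_cases hxc : x ∈ N.closure (I \ {e})
      · exact N.closure_subset_closure (Set.subset_insert _ _) hxc
      · exact (closure_exchange ⟨key x hx hxc hsS, hs⟩).1
    have hcs := ncard_le_of_subset_closure hIs hJ1 hJs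
    rw [Set.ncard_insert_of_notMem hsI] at hcs
    by_cases heJ : e ∈ J
    · have hJc : (J \ {e}).ncard + 1 = J.ncard := Set.ncard_sdiff_singleton_add_one heJ
      have hcl := closure_eq_of_ncard hIs hJ1 hJs
        (by rw [Set.ncard_insert_of_notMem hsI]; omega)
      apply hJ2 heJ
      rw [hcl]
      have h4 : N.closure (insert x₀ (I \ {e})) = N.closure (insert s (I \ {e})) :=
        (closure_insert_congr ⟨hsx, hs⟩).symm
      rw [← h4]
      exact key x₀ hx₀ hx₀c
    · rw [Set.sdiff_singleton_eq_self heJ] at hcs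
      omega
  · -- e ∉ I
    have hIe : I \ {e} = I := Set.sdiff_singleton_eq_self heI
    rw [hIe] at hI1
    by_cases hex : ∃ x ∈ J \ {e}, x ∉ N.closure I
    · obtain ⟨x, hx, hxc⟩ := hex
      have hxI : x ∉ I := fun h => hxc (N.subset_closure _ hI1.subset_ground h)
      have hxe : x ≠ e := hx.2
      refine ⟨x, hx.1, hxI, ?_, ?_⟩
      · have h2 : insert x I \ {e} = insert x I := by
          apply Set.sdiff_singleton_eq_self
          rw [Set.mem_insert_iff]
          exact not_or.2 ⟨hxe.symm, heI⟩
        rw [h2, hI1.insert_indep_iff_of_notMem hxI]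
        exact ⟨hJ1.subset_ground hx, hxc⟩
      · intro h
        rw [Set.mem_insert_iff] at h
        exact absurd h (not_or.2 ⟨hxe.symm, heI⟩)
    · push Not at hex
      have h1 := ncard_le_of_subset_closure hI1 hJ1 hex
      by_cases heJ : e ∈ J
      · have hJc : (J \ {e}).ncard + 1 = J.ncard := Set.ncard_sdiff_singleton_add_one heJ
        have hcl := closure_eq_of_ncard hI1 hJ1 hex (by omega)
        refine ⟨e, heJ, heI, ?_⟩
        have h2 : insert e I \ {e} = I := by
          rw [Set.insert_sdiff_of_mem _ (Set.mem_singleton e), hIe]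
        unfold extIndep
        rw [h2]
        refine ⟨hI1, fun _ => ?_⟩
        rw [← hcl]
        exact hJ2 heJ
      · rw [Set.sdiff_singleton_eq_self heJ] at h1
        omega

/-- the principal extension of `N` by `e` along `S` -/
noncomputable def extMatroid (N : Matroid (Fin n)) {e : Fin n} (he : N.E = {e}ᶜ)
    (S : Set (Fin n)) : Matroid (Fin n) :=
  (IndepMatroid.ofFinite (E := Set.univ) Set.finite_univ (extIndep N e S)
    ⟨by simp, fun h => absurd h (Set.notMem_empty e)⟩
    (by
      rintro I J ⟨h1, h2⟩ hIJ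
      have hsub : I \ {e} ⊆ J \ {e} := Set.sdiff_subset_sdiff_left hIJ
      exact ⟨h1.subset hsub, fun h hS => h2 (hIJ h) (hS.trans (N.closure_subset_closure hsub))⟩)
    (by
      intro I J hI hJ hc
      exact extIndep_aug (by rw [he]; simp) hI hJ hc)
    (fun _ _ => Set.subset_univ _)).matroid

lemma extMatroid_E (N : Matroid (Fin n)) {e : Fin n} (he : N.E = {e}ᶜ)
    (S : Set (Fin n)) : (extMatroid N he S).E = Set.univ := rfl

lemma extMatroid_indep (N : Matroid (Fin n)) {e : Fin n} (he : N.E = {e}ᶜ)
    (S : Set (Fin n)) (I : Set (Fin n)) :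
    (extMatroid N he S).Indep I ↔ extIndep N e S I := Iff.rfl

/-- a fixed base, as a finset -/
noncomputable def baseOf (N : Matroid (Fin n)) : Finset (Fin n) :=
  (exists_coe_finset (N.exists_isBase.choose)).choose

lemma baseOf_isBase (N : Matroid (Fin n)) : N.IsBase (baseOf N : Set (Fin n)) := by
  unfold baseOf
  rw [(exists_coe_finset (N.exists_isBase.choose)).choose_spec]
  exact N.exists_isBase.choose_spec

lemma baseOf_card (N : Matroid (Fin n)) : (baseOf N).card = rk N := isBase_card (baseOf_isBase N)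

lemma extMatroid_inj_left {N N' : Matroid (Fin n)} {e : Fin n} (he : N.E = {e}ᶜ)
    (he' : N'.E = {e}ᶜ) {S S' : Set (Fin n)} (h : extMatroid N he S = extMatroid N' he' S') :
    N = N' := by
  apply Matroid.ext_indep (he.trans he'.symm)
  intro I hI
  have heI : e ∉ I := fun h => by
    have := hI h
    rw [he] at this
    exact this rfl
  have h1 := extMatroid_indep N he S I
  have h2 := extMatroid_indep N' he' S' I
  rw [h, h2] at h1
  unfold extIndep at h1
  rw [Set.sdiff_singleton_eq_self heI] at h1
  simp only [heI, false_imp_iff, and_true] at h1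
  exact h1.symm

lemma extMatroid_mem {N : Matroid (Fin n)} {e : Fin n} (he : N.E = {e}ᶜ)
    {S : Set (Fin n)} (hS : S ⊆ baseOf N) {b : Fin n} (hb : b ∈ baseOf N) :
    b ∈ S ↔ (extMatroid N he S).Indep (insert e ((baseOf N : Set (Fin n)) \ {b})) := by
  have hB := baseOf_isBase N
  have heB : e ∉ (baseOf N : Set (Fin n)) := fun h => by
    have := hB.subset_ground h
    rw [he] at this
    exact this rfl
  rw [extMatroid_indep]
  unfold extIndep
  have h1 : insert e ((baseOf N : Set (Fin n)) \ {b}) \ {e} = (baseOf N : Set (Fin n)) \ {b} := by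
    rw [Set.insert_sdiff_of_mem _ (Set.mem_singleton e)]
    exact Set.sdiff_singleton_eq_self (fun h => heB h.1)
  rw [h1]
  constructor
  · intro hbS
    refine ⟨hB.indep.subset Set.sdiff_subset, fun _ hsub => ?_⟩
    exact hB.indep.notMem_closure_sdiff_of_mem (by exact_mod_cast hb) (hsub hbS)
  · rintro ⟨_, h2⟩
    by_contra hbS
    apply h2 (Set.mem_insert _ _)
    intro s hs
    have h3 : s ∈ (baseOf N : Set (Fin n)) \ {b} := by
      refine ⟨hS hs, ?_⟩
      rintro rfl
      exact hbS hs
    exact N.subset_closure _ (Set.sdiff_subset.trans hB.subset_ground) h3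

open scoped Classical in
/-- matroids on the complement of `e` -/
noncomputable def matE (n : ℕ) (e : Fin n) : Finset (Matroid (Fin n)) :=
  Finset.univ.filter (fun N => N.E = {e}ᶜ)

lemma mem_matE {e : Fin n} {N : Matroid (Fin n)} : N ∈ matE n e ↔ N.E = {e}ᶜ := by
  classical
  simp [matE]

theorem sum_ext_le (e : Fin n) :
    ∑ N ∈ matE n e, 2 ^ (rk N) ≤ (mat n).card := by
  classical
  have h1 : ∑ N ∈ matE n e, 2 ^ (rk N)
      = ((matE n e).sigma (fun N => (baseOf N).powerset)).card := by
    rw [Finset.card_sigma]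
    refine Finset.sum_congr rfl fun N _ => ?_
    rw [Finset.card_powerset, baseOf_card]
  rw [h1]
  refine Finset.card_le_card_of_injOn
    (fun p => if h : p.1.E = {e}ᶜ then extMatroid p.1 h (p.2 : Set (Fin n)) else p.1) ?_ ?_
  · rintro ⟨N, S⟩ hp
    rw [Finset.mem_coe, Finset.mem_sigma, mem_matE] at hp
    simp only at hp
    rw [Finset.mem_coe, mem_mat]
    simp only [hp.1, dif_pos]
    rfl
  · rintro ⟨N, S⟩ hp ⟨N', S'⟩ hp' heq
    rw [Finset.mem_coe, Finset.mem_sigma, mem_matE] at hp hp'
    simp only at hp hp' heq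
    rw [dif_pos hp.1, dif_pos hp'.1] at heq
    have hN := extMatroid_inj_left hp.1 hp'.1 heq
    subst hN
    have hS : S = S' := by
      rw [Finset.mem_powerset] at hp hp'
      ext b
      by_cases hb : b ∈ baseOf N
      · have e1 := extMatroid_mem hp.1 (S := (S : Set (Fin n))) (by exact_mod_cast hp.2) hb
        have e2 := extMatroid_mem hp'.1 (S := (S' : Set (Fin n))) (by exact_mod_cast hp'.2) hb
        rw [heq] at e1
        have e3 := e1.trans e2.symm
        simpa using e3
      · exact ⟨fun h => absurd (hp.2 h) hb, fun h => absurd (hp'.2 h) hb⟩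
    subst hS
    rfl

lemma rk_add_rk_dual {N : Matroid (Fin n)} {e : Fin n} (he : N.E = {e}ᶜ) :
    rk N + rk N✶ = n - 1 := by
  have h := N.eRank_add_eRank_dual
  have h1 : N.eRank ≠ ⊤ := by
    rw [Matroid.eRank_ne_top_iff]; infer_instance
  have h2 : N✶.eRank ≠ ⊤ := by
    rw [Matroid.eRank_ne_top_iff]; infer_instance
  have h3 : N.E.encard = ((n - 1 : ℕ) : ℕ∞) := by
    rw [he, ← (Set.toFinite _).cast_ncard_eq, Set.ncard_compl, Set.ncard_singleton,
      Nat.card_eq_fintype_card, Fintype.card_fin]
  rw [h3, ← ENat.natCast_toNat h1, ← ENat.natCast_toNat h2] at h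
  unfold rk
  exact_mod_cast h

theorem matE_card_le (e : Fin n) : (matE n e).card * 2 ^ ((n - 1) / 2) ≤ 2 * (mat n).card := by
  classical
  set a := (n - 1) / 2 with ha
  set A := (matE n e).filter (fun N => a ≤ rk N) with hA
  have h1 : (matE n e).card ≤ A.card + A.card := by
    have h2 : (matE n e).card = A.card + ((matE n e).filter (fun N => ¬ a ≤ rk N)).card :=
      (Finset.card_filter_add_card_filter_not _).symm
    have h3 : ((matE n e).filter (fun N => ¬ a ≤ rk N)).card ≤ A.card := by
      refine Finset.card_le_card_of_injOn (fun N => N✶) ?_ ?_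
      · intro N hN
        rw [Finset.mem_coe, Finset.mem_filter, mem_matE] at hN
        rw [Finset.mem_coe, Finset.mem_filter, mem_matE]
        have h4 := rk_add_rk_dual hN.1
        refine ⟨by rw [Matroid.dual_ground]; exact hN.1, ?_⟩
        have h5 := hN.2
        change a ≤ rk N✶
        omega
      · intro N _ N' _ heq
        exact Matroid.dual_inj.1 heq
    omega
  have h5 : A.card * 2 ^ a ≤ (mat n).card := by
    calc A.card * 2 ^ a = ∑ _N ∈ A, 2 ^ a := by rw [Finset.sum_const, smul_eq_mul]
      _ ≤ ∑ N ∈ A, 2 ^ (rk N) := Finset.sum_le_sum fun N hN =>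
          Nat.pow_le_pow_right (by norm_num) (Finset.mem_filter.1 hN).2
      _ ≤ ∑ N ∈ matE n e, 2 ^ (rk N) :=
          Finset.sum_le_sum_of_subset (Finset.filter_subset _ _)
      _ ≤ (mat n).card := sum_ext_le e
  calc (matE n e).card * 2 ^ a ≤ (A.card + A.card) * 2 ^ a := Nat.mul_le_mul_right _ h1
    _ = 2 * (A.card * 2 ^ a) := by ring
    _ ≤ 2 * (mat n).card := Nat.mul_le_mul_left _ h5

open scoped Classical in
/-- matroids with a loop or a coloop -/
noncomputable def matLC (n : ℕ) : Finset (Matroid (Fin n)) :=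
  (mat n).filter (fun M => (∃ e, M.IsLoop e) ∨ (∃ e, M.IsColoop e))

lemma mem_matLC {M : Matroid (Fin n)} :
    M ∈ matLC n ↔ M.E = Set.univ ∧ ((∃ e, M.IsLoop e) ∨ (∃ e, M.IsColoop e)) := by
  classical
  unfold matLC
  rw [Finset.mem_filter, mem_mat]

theorem matLC_card_le (n : ℕ) : (matLC n).card * 2 ^ ((n - 1) / 2) ≤ 4 * n * (mat n).card := by
  classical
  have hloop : ∀ e : Fin n, ((mat n).filter (fun M => M.IsLoop e)).card ≤ (matE n e).card := by
    intro e
    refine Finset.card_le_card_of_injOn (fun M => M ↾ {e}ᶜ) ?_ ?_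
    · intro M _
      rw [Finset.mem_coe, mem_matE]
      rfl
    · intro M hM M' hM' heq
      rw [Finset.mem_coe, Finset.mem_filter, mem_mat] at hM hM'
      simp only at heq
      apply Matroid.ext_indep (hM.1.trans hM'.1.symm)
      intro I _
      have key : ∀ M : Matroid (Fin n), M.IsLoop e →
          (M.Indep I ↔ e ∉ I ∧ (M ↾ {e}ᶜ).Indep I) := by
        intro M hM
        rw [Matroid.restrict_indep_iff, Set.subset_compl_singleton_iff]
        constructor
        · intro h
          exact ⟨hM.notMem_of_indep h, h, hM.notMem_of_indep h⟩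
        · exact fun h => h.2.1
      rw [key M hM.2, key M' hM'.2, heq]
  have hcoloop : ∀ e : Fin n,
      ((mat n).filter (fun M => M.IsColoop e)).card ≤ (matE n e).card := by
    intro e
    refine le_trans ?_ (hloop e)
    refine Finset.card_le_card_of_injOn (fun N => N✶) ?_ ?_
    · intro N hN
      rw [Finset.mem_coe, Finset.mem_filter, mem_mat] at hN
      rw [Finset.mem_coe, Finset.mem_filter, mem_mat]
      exact ⟨by rw [Matroid.dual_ground]; exact hN.1, hN.2.dual_isLoop⟩
    · intro N _ N' _ heq
      exact Matroid.dual_inj.1 heq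
  have h1 : (matLC n).card ≤ ∑ e : Fin n, ((matE n e).card + (matE n e).card) := by
    calc (matLC n).card
        ≤ ((Finset.univ : Finset (Fin n)).biUnion (fun e =>
          (mat n).filter (fun M => M.IsLoop e) ∪ (mat n).filter (fun M => M.IsColoop e))).card := by
          refine Finset.card_le_card fun M hM => ?_
          rw [mem_matLC] at hM
          rw [Finset.mem_biUnion]
          rcases hM.2 with ⟨e, he⟩ | ⟨e, he⟩
          · exact ⟨e, Finset.mem_univ _, Finset.mem_union_left _
              (Finset.mem_filter.2 ⟨mem_mat.2 hM.1, he⟩)⟩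
          · exact ⟨e, Finset.mem_univ _, Finset.mem_union_right _
              (Finset.mem_filter.2 ⟨mem_mat.2 hM.1, he⟩)⟩
      _ ≤ ∑ e : Fin n, ((mat n).filter (fun M => M.IsLoop e) ∪
            (mat n).filter (fun M => M.IsColoop e)).card := Finset.card_biUnion_le
      _ ≤ _ := Finset.sum_le_sum fun e _ => (Finset.card_union_le _ _).trans
          (Nat.add_le_add (hloop e) (hcoloop e))
  calc (matLC n).card * 2 ^ ((n - 1) / 2)
      ≤ (∑ e : Fin n, ((matE n e).card + (matE n e).card)) * 2 ^ ((n - 1) / 2) :=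
        Nat.mul_le_mul_right _ h1
    _ = ∑ e : Fin n, 2 * ((matE n e).card * 2 ^ ((n - 1) / 2)) := by
        rw [Finset.sum_mul]
        refine Finset.sum_congr rfl fun e _ => by ring
    _ ≤ ∑ _e : Fin n, 2 * (2 * (mat n).card) :=
        Finset.sum_le_sum fun e _ => Nat.mul_le_mul_left _ (matE_card_le e)
    _ = 4 * n * (mat n).card := by
        rw [Finset.sum_const, Finset.card_univ, Fintype.card_fin, smul_eq_mul]
        ring

end Pool.Agent.Helper77
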