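import Pool.Agent.Helper77.Decode

/-!
Many certificates for each matroid with many covered non-bases.
-/

open Finset Matroid

namespace Pool.Agent.Helper77

set_option linter.unusedSectionVars false

variable {α : Type*} [DecidableEq α] [Fintype α] {M : Matroid α}

/-- the graph on the uncovered non-bases -/
def GK (M : Matroid α) (z : Finset (Finset α) × Finset (Finset α)) :
    SimpleGraph (Finset α) where
  Adj U V := JAdj U V ∧ U ∈ Kunc M z ∧ V ∈ Kunc M z
  symm := ⟨fun _ _ h => ⟨h.1.symm, h.2.2, h.2.1⟩⟩
  loopless := ⟨fun U h => not_jadj_self U h.1⟩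

open scoped Classical in
/-- isolated uncovered non-bases -/
noncomputable def Iso (M : Matroid α) (z : Finset (Finset α) × Finset (Finset α)) :
    Finset (Finset α) :=
  (Kunc M z).filter (fun X => ∀ Y ∈ NB M, ¬ JAdj X Y)

lemma mem_Iso {z : Finset (Finset α) × Finset (Finset α)} {X : Finset α} :
    X ∈ Iso M z ↔ X ∈ Kunc M z ∧ ∀ Y ∈ NB M, ¬ JAdj X Y := by
  classical
  simp [Iso]

open scoped Classical in
/-- covered non-bases -/
noncomputable def CovV (M : Matroid α) (z : Finset (Finset α) × Finset (Finset α)) :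
    Finset (Finset α) := (NB M).filter (fun X => Cov z X)

lemma mem_CovV {z : Finset (Finset α) × Finset (Finset α)} {X : Finset α} :
    X ∈ CovV M z ↔ X ∈ NB M ∧ Cov z X := by
  classical
  simp [CovV]

lemma Kunc_subset_NB {z : Finset (Finset α) × Finset (Finset α)} : Kunc M z ⊆ NB M := by
  intro X hX
  rw [mem_Kunc] at hX
  exact mem_NB.2 ⟨hX.1, hX.2.1⟩

lemma card_NB_eq (z : Finset (Finset α) × Finset (Finset α)) :
    (NB M).card = (CovV M z).card + (Kunc M z).card := by
  classical
  unfold CovV Kunc
  exact (Finset.card_filter_add_card_filter_not _).symm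

noncomputable instance (z : Finset (Finset α) × Finset (Finset α)) :
    Fintype (GK M z).ConnectedComponent := Fintype.ofFinite _

open scoped Classical in
/-- components with at least two vertices -/
noncomputable def Big (M : Matroid α) (z : Finset (Finset α) × Finset (Finset α)) :
    Finset (GK M z).ConnectedComponent :=
  Finset.univ.filter (fun c => ∃ U V, (GK M z).Adj U V ∧ (GK M z).connectedComponentMk U = c)

lemma mem_Big {z : Finset (Finset α) × Finset (Finset α)} {c : (GK M z).ConnectedComponent} :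
    c ∈ Big M z ↔ ∃ U V, (GK M z).Adj U V ∧ (GK M z).connectedComponentMk U = c := by
  classical
  simp [Big]

/-- the general construction of certificates -/
theorem cert_aux {z : Finset (Finset α) × Finset (Finset α)}
    (f : (GK M z).ConnectedComponent → Finset α)
    (hf : ∀ c ∈ Big M z, (GK M z).connectedComponentMk (f c) = c ∧ f c ∈ Kunc M z)
    (W : Finset (Finset α)) (hW : W ⊆ CovV M z) (hWs : JStable W)
    (hWf : ∀ w ∈ W, ∀ c ∈ Big M z, ¬ JAdj (f c) w) :
    Iso M z ∪ (Big M z).image f ∪ W ⊆ Finset.powersetCard (rk M) Finset.univ ∧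
      JStable (Iso M z ∪ (Big M z).image f ∪ W) ∧ Cert M z (Iso M z ∪ (Big M z).image f ∪ W) := by
  classical
  have hmem : ∀ X, X ∈ Iso M z ∪ (Big M z).image f ∪ W ↔
      (X ∈ Iso M z ∨ ∃ c ∈ Big M z, f c = X) ∨ X ∈ W := by
    intro X
    rw [Finset.mem_union, Finset.mem_union, Finset.mem_image]
  have hNB : ∀ X ∈ Iso M z ∪ (Big M z).image f ∪ W, X ∈ NB M := by
    intro X hX
    rw [hmem] at hX
    rcases hX with (h | ⟨c, hc, rfl⟩) | h
    · exact Kunc_subset_NB (mem_Iso.1 h).1
    · exact Kunc_subset_NB (hf c hc).2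
    · exact (mem_CovV.1 (hW h)).1
  refine ⟨?_, ?_, ?_, ?_, ?_⟩
  · intro X hX
    rw [Finset.mem_powersetCard]
    exact ⟨Finset.subset_univ _, (mem_NB.1 (hNB X hX)).1⟩
  · intro X hX Y hY hadj
    have hX' := hX
    have hY' := hY
    rw [hmem] at hX' hY'
    rcases hX' with (h | ⟨c, hc, rfl⟩) | h
    · exact (mem_Iso.1 h).2 Y (hNB Y hY) hadj
    · rcases hY' with (h' | ⟨c', hc', rfl⟩) | h'
      · exact (mem_Iso.1 h').2 _ (hNB _ hX) hadj.symm
      · have hG : (GK M z).Adj (f c) (f c') := ⟨hadj, (hf c hc).2, (hf c' hc').2⟩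
        have h1 : (GK M z).connectedComponentMk (f c) = (GK M z).connectedComponentMk (f c') :=
          SimpleGraph.ConnectedComponent.sound hG.reachable
        rw [(hf c hc).1, (hf c' hc').1] at h1
        subst h1
        exact not_jadj_self _ hadj
      · exact hWf Y h' c hc hadj
    · rcases hY' with (h' | ⟨c', hc', rfl⟩) | h'
      · exact (mem_Iso.1 h').2 _ (hNB _ hX) hadj.symm
      · exact hWf X h c' hc' hadj.symm
      · exact hWs X h Y h' hadj
  · intro Y hY hYu
    rw [hmem] at hY
    rcases hY with (h | ⟨c, hc, rfl⟩) | h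
    · exact (mem_Iso.1 h).1
    · exact (hf c hc).2
    · exact absurd (mem_CovV.1 (hW h)).2 hYu
  · intro X hX hiso
    rw [hmem]
    exact Or.inl (Or.inl (mem_Iso.2 ⟨hX, hiso⟩))
  · intro X hX Y hY hXY
    have hG : (GK M z).Adj X Y := ⟨hXY, hX, hY⟩
    have hc : (GK M z).connectedComponentMk X ∈ Big M z := mem_Big.2 ⟨X, Y, hG, rfl⟩
    refine ⟨f ((GK M z).connectedComponentMk X), ?_, (hf _ hc).2, ?_⟩
    · rw [hmem]
      exact Or.inl (Or.inr ⟨_, hc, rfl⟩)
    · have h1 := (hf _ hc).1
      have h2 : (GK M z).Reachable (f ((GK M z).connectedComponentMk X)) X :=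
        SimpleGraph.ConnectedComponent.exact h1
      exact (SimpleGraph.reachable_iff_reflTransGen _ _).1 h2

/-- Many certificates. -/
theorem exists_family {n : ℕ} (hn : 1 ≤ n) {M : Matroid (Fin n)} (hE : M.E = Set.univ)
    (hloop : ∀ e, ¬ M.IsLoop e) (hcoloop : ∀ e, ¬ M.IsColoop e) {c₀ d₀ Δ t g : ℕ}
    {z : Finset (Finset (Fin n)) × Finset (Finset (Fin n))} (h : CodeFor M c₀ d₀ Δ z)
    (hc : Δ < c₀) (hd : Δ < d₀) (ht1 : rk M ≤ c₀ + t) (ht2 : n - rk M ≤ d₀ + t)
    (hcov : g * n * (t + 1) ≤ (CovV M z).card) :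
    ∃ 𝒬 : Finset (Finset (Finset (Fin n))), 2 ^ g ≤ 𝒬.card ∧
      ∀ Q ∈ 𝒬, Q ⊆ Finset.powersetCard (rk M) Finset.univ ∧ JStable Q ∧
        Kdec (rk M) z Δ Q = NB M := by
  classical
  have hBig : ∀ c : (GK M z).ConnectedComponent, ∃ p : Finset (Fin n) × Finset (Fin n),
      c ∈ Big M z → (GK M z).Adj p.1 p.2 ∧ (GK M z).connectedComponentMk p.1 = c := by
    intro c
    by_cases hc : c ∈ Big M z
    · obtain ⟨U, V, h1, h2⟩ := mem_Big.1 hc
      exact ⟨(U, V), fun _ => ⟨h1, h2⟩⟩
    · exact ⟨(∅, ∅), fun h => absurd h hc⟩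
  choose p hp using hBig
  have ha : ∀ c ∈ Big M z, (GK M z).connectedComponentMk (p c).1 = c ∧ (p c).1 ∈ Kunc M z :=
    fun c hc => ⟨(hp c hc).2, (hp c hc).1.2.1⟩
  have hb : ∀ c ∈ Big M z, (GK M z).connectedComponentMk (p c).2 = c ∧ (p c).2 ∈ Kunc M z := by
    intro c hc
    refine ⟨?_, (hp c hc).1.2.2⟩
    exact (SimpleGraph.ConnectedComponent.sound (hp c hc).1.reachable).symm.trans (hp c hc).2
  by_cases hq : g ≤ (Big M z).card
  · -- strategy 1
    set f : Finset (GK M z).ConnectedComponent → (GK M z).ConnectedComponent → Finset (Fin n) :=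
      fun ε c => if c ∈ ε then (p c).1 else (p c).2 with hf
    have hf' : ∀ ε, ∀ c ∈ Big M z,
        (GK M z).connectedComponentMk (f ε c) = c ∧ f ε c ∈ Kunc M z := by
      intro ε c hc
      simp only [hf]
      split_ifs
      · exact ha c hc
      · exact hb c hc
    refine ⟨(Big M z).powerset.image (fun ε => Iso M z ∪ (Big M z).image (f ε) ∪ ∅), ?_, ?_⟩
    · rw [Finset.card_image_of_injOn, Finset.card_powerset]
      · exact Nat.pow_le_pow_right (by norm_num) hq
      · have key : ∀ ε : Finset (GK M z).ConnectedComponent, ∀ c ∈ Big M z,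
            (c ∈ ε ↔ (p c).1 ∈ Iso M z ∪ (Big M z).image (f ε) ∪ ∅) := by
          intro ε c hc
          rw [Finset.union_empty, Finset.mem_union, Finset.mem_image]
          constructor
          · intro hce
            right
            exact ⟨c, hc, by simp [hf, hce]⟩
          · rintro (h1 | ⟨c', hc', heq⟩)
            · exfalso
              exact (mem_Iso.1 h1).2 _ (Kunc_subset_NB (hp c hc).1.2.2) (hp c hc).1.1
            · have h2 := (hf' ε c' hc').1
              rw [heq, (hp c hc).2] at h2
              subst h2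
              by_contra hce
              simp only [hf, hce, if_false] at heq
              have := (hp c hc).1.1
              rw [heq] at this
              exact not_jadj_self _ this
        intro ε hε ε' hε' heq
        rw [Finset.mem_coe, Finset.mem_powerset] at hε hε'
        simp only at heq
        ext c
        constructor
        · intro hc
          rw [key ε' c (hε hc), ← heq, ← key ε c (hε hc)]
          exact hc
        · intro hc
          rw [key ε c (hε' hc), heq, ← key ε' c (hε' hc)]
          exact hc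
    · intro Q hQ
      rw [Finset.mem_image] at hQ
      obtain ⟨ε, _, rfl⟩ := hQ
      obtain ⟨h1, h2, h3⟩ := cert_aux (f ε) (hf' ε) ∅ (Finset.empty_subset _)
        (fun X hX => absurd hX (Finset.notMem_empty _))
        (fun w hw => absurd hw (Finset.notMem_empty _))
      exact ⟨h1, h2, h.kdec_eq hE hloop hcoloop hc hd h3⟩
  · -- strategy 2
    push Not at hq
    set N : Finset (Finset (Fin n)) :=
      (Big M z).biUnion (fun c => (NB M).filter (fun Y => JAdj (p c).1 Y)) with hN
    have hNcard : N.card ≤ (Big M z).card * (t * n) := by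
      refine Finset.card_biUnion_le_card_mul _ _ _ fun c hc => ?_
      have := h.card_nbrs_le hE (t := t) ht1 (by rw [Fintype.card_fin]; exact ht2) (ha c hc).2
      rwa [Fintype.card_fin] at this
    obtain ⟨S, hS, hSst, hScard⟩ := exists_stable_subset hn (CovV M z \ N)
    have hgS : g ≤ S.card := by
      have h1 : (CovV M z).card ≤ (CovV M z \ N).card + N.card := by
        have := Finset.le_card_sdiff N (CovV M z)
        omega
      have h2 : (Big M z).card * (t * n) ≤ g * (t * n) := Nat.mul_le_mul_right _ hq.le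
      have h3 : g * n * (t + 1) = g * (t * n) + g * n := by ring
      have h4 : g * n ≤ n * S.card := by omega
      rw [mul_comm g n] at h4
      exact Nat.le_of_mul_le_mul_left h4 (by omega)
    refine ⟨S.powerset.image (fun W => Iso M z ∪ (Big M z).image (fun c => (p c).1) ∪ W),
      ?_, ?_⟩
    · rw [Finset.card_image_of_injOn, Finset.card_powerset]
      · exact Nat.pow_le_pow_right (by norm_num) hgS
      · have key : ∀ W : Finset (Finset (Fin n)), W ⊆ S →
            (Iso M z ∪ (Big M z).image (fun c => (p c).1) ∪ W).filter (fun X => Cov z X) = W := by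
          intro W hW
          ext X
          rw [Finset.mem_filter, Finset.mem_union, Finset.mem_union, Finset.mem_image]
          constructor
          · rintro ⟨(h1 | ⟨c, hc, rfl⟩) | h1, h2⟩
            · exact absurd h2 (mem_Kunc.1 (mem_Iso.1 h1).1).2.2
            · exact absurd h2 (mem_Kunc.1 (ha c hc).2).2.2
            · exact h1
          · intro hX
            exact ⟨Or.inr hX, (mem_CovV.1 (Finset.mem_sdiff.1 (hS (hW hX))).1).2⟩
        intro W hW W' hW' heq
        rw [Finset.mem_coe, Finset.mem_powerset] at hW hW'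
        simp only at heq
        rw [← key W hW, heq, key W' hW']
    · intro Q hQ
      rw [Finset.mem_image] at hQ
      obtain ⟨W, hW, rfl⟩ := hQ
      rw [Finset.mem_powerset] at hW
      obtain ⟨h1, h2, h3⟩ := cert_aux (fun c => (p c).1) ha W
        (fun X hX => (Finset.mem_sdiff.1 (hS (hW hX))).1)
        (fun X hX Y hY => hSst X (hW hX) Y (hW hY))
        (by
          intro w hw c hc hadj
          have h1 := Finset.mem_sdiff.1 (hS (hW hw))
          apply h1.2
          rw [hN, Finset.mem_biUnion]
          exact ⟨c, hc, Finset.mem_filter.2 ⟨(mem_CovV.1 h1.1).1, hadj⟩⟩)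
      exact ⟨h1, h2, h.kdec_eq hE hloop hcoloop hc hd h3⟩

end Pool.Agent.Helper77
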