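import Pool.Agent.Helper77.Family

/-!
Counting matroids by codes.
-/

open Finset Matroid

namespace Pool.Agent.Helper77

set_option linter.unusedSectionVars false

lemma matroid_eq_of_NB {α : Type*} [DecidableEq α] [Fintype α] {M M' : Matroid α}
    (hE : M.E = Set.univ) (hE' : M'.E = Set.univ) (hr : rk M = rk M') (h : NB M = NB M') :
    M = M' := by
  apply Matroid.ext_isBase (hE.trans hE'.symm)
  intro B _
  obtain ⟨B, rfl⟩ := exists_coe_finset B
  have key : ∀ {M M' : Matroid α}, rk M = rk M' → NB M = NB M' →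
      M.IsBase (B : Set α) → M'.IsBase (B : Set α) := by
    intro M M' hr h hB
    by_contra hB'
    have h1 : B ∈ NB M' := mem_NB.2 ⟨by rw [← hr]; exact isBase_card hB, hB'⟩
    rw [← h] at h1
    exact (mem_NB.1 h1).2 hB
  exact ⟨key hr h, key hr.symm h.symm⟩

open scoped Classical in
/-- stable families of `r`-subsets of `Fin n` -/
noncomputable def stab (n r : ℕ) : Finset (Finset (Finset (Fin n))) :=
  (Finset.powersetCard r (Finset.univ : Finset (Fin n))).powerset.filter JStable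

lemma mem_stab {n r : ℕ} {Q : Finset (Finset (Fin n))} :
    Q ∈ stab n r ↔ Q ⊆ Finset.powersetCard r Finset.univ ∧ JStable Q := by
  classical
  simp [stab]

theorem fiber_card_le {n r : ℕ} (hn : 1 ≤ n) {c₀ d₀ Δ t g : ℕ} (hc : Δ < c₀) (hd : Δ < d₀)
    (ht1 : r ≤ c₀ + t) (ht2 : n - r ≤ d₀ + t)
    (z : Finset (Finset (Fin n)) × Finset (Finset (Fin n)))
    (F : Finset (Matroid (Fin n)))
    (hF : ∀ M ∈ F, M.E = Set.univ ∧ rk M = r ∧ (∀ e, ¬ M.IsLoop e) ∧ (∀ e, ¬ M.IsColoop e) ∧
      CodeFor M c₀ d₀ Δ z ∧ g * n * (t + 1) ≤ (CovV M z).card) :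
    F.card * 2 ^ g ≤ (stab n r).card := by
  classical
  have h1 : ∀ M : Matroid (Fin n), ∃ 𝒬 : Finset (Finset (Finset (Fin n))), M ∈ F →
      2 ^ g ≤ 𝒬.card ∧ ∀ Q ∈ 𝒬, Q ∈ stab n r ∧ Kdec r z Δ Q = NB M := by
    intro M
    by_cases hM : M ∈ F
    · obtain ⟨hE, hr, hl, hcl, hcode, hcov⟩ := hF M hM
      obtain ⟨𝒬, hg, hQ⟩ := exists_family hn hE hl hcl hcode hc hd (by rw [hr]; exact ht1)
        (by rw [hr]; exact ht2) hcov
      refine ⟨𝒬, fun _ => ⟨hg, fun Q h => ?_⟩⟩
      obtain ⟨h1, h2, h3⟩ := hQ Q h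
      rw [hr] at h1 h3
      exact ⟨mem_stab.2 ⟨h1, h2⟩, h3⟩
    · exact ⟨∅, fun h => absurd h hM⟩
  choose 𝒬 h𝒬 using h1
  have hdisj : ∀ M ∈ F, ∀ M' ∈ F, M ≠ M' → Disjoint (𝒬 M) (𝒬 M') := by
    intro M hM M' hM' hne
    rw [Finset.disjoint_left]
    intro Q hQ hQ'
    apply hne
    have e1 := ((h𝒬 M hM).2 Q hQ).2
    have e2 := ((h𝒬 M' hM').2 Q hQ').2
    exact matroid_eq_of_NB (hF M hM).1 (hF M' hM').1
      ((hF M hM).2.1.trans (hF M' hM').2.1.symm) (e1.symm.trans e2)
  calc F.card * 2 ^ g = ∑ _M ∈ F, 2 ^ g := by rw [Finset.sum_const, smul_eq_mul]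
    _ ≤ ∑ M ∈ F, (𝒬 M).card := Finset.sum_le_sum fun M hM => (h𝒬 M hM).1
    _ = (F.biUnion 𝒬).card := (Finset.card_biUnion hdisj).symm
    _ ≤ (stab n r).card := by
        refine Finset.card_le_card ?_
        intro Q hQ
        rw [Finset.mem_biUnion] at hQ
        obtain ⟨M, hM, hQM⟩ := hQ
        exact ((h𝒬 M hM).2 Q hQM).1

/-- Counting matroids by codes. -/
theorem card_le_of_codes {n r : ℕ} (hn : 1 ≤ n) {c₀ d₀ Δ t g : ℕ} (hc : Δ < c₀) (hd : Δ < d₀)
    (ht1 : r ≤ c₀ + t) (ht2 : n - r ≤ d₀ + t)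
    (Z : Finset (Finset (Finset (Fin n)) × Finset (Finset (Fin n))))
    (F : Finset (Matroid (Fin n)))
    (hF : ∀ M ∈ F, M.E = Set.univ ∧ rk M = r ∧ (∀ e, ¬ M.IsLoop e) ∧ (∀ e, ¬ M.IsColoop e) ∧
      ∃ z ∈ Z, CodeFor M c₀ d₀ Δ z ∧ g * n * (t + 1) ≤ (CovV M z).card) :
    F.card * 2 ^ g ≤ Z.card * (stab n r).card := by
  classical
  have h1 : F.card ≤ ∑ z ∈ Z, (F.filter (fun M => CodeFor M c₀ d₀ Δ z ∧
      g * n * (t + 1) ≤ (CovV M z).card)).card := by
    refine le_trans ?_ Finset.card_biUnion_le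
    refine Finset.card_le_card ?_
    intro M hM
    obtain ⟨_, _, _, _, z, hz, h1, h2⟩ := hF M hM
    rw [Finset.mem_biUnion]
    exact ⟨z, hz, Finset.mem_filter.2 ⟨hM, h1, h2⟩⟩
  calc F.card * 2 ^ g
      ≤ (∑ z ∈ Z, (F.filter (fun M => CodeFor M c₀ d₀ Δ z ∧
        g * n * (t + 1) ≤ (CovV M z).card)).card) * 2 ^ g := Nat.mul_le_mul_right _ h1
    _ = ∑ z ∈ Z, (F.filter (fun M => CodeFor M c₀ d₀ Δ z ∧
        g * n * (t + 1) ≤ (CovV M z).card)).card * 2 ^ g := Finset.sum_mul _ _ _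
    _ ≤ ∑ _z ∈ Z, (stab n r).card := by
        refine Finset.sum_le_sum fun z _ => ?_
        refine fiber_card_le hn hc hd ht1 ht2 z _ fun M hM => ?_
        rw [Finset.mem_filter] at hM
        obtain ⟨h1, h2, h3, h4, _⟩ := hF M hM.1
        exact ⟨h1, h2, h3, h4, hM.2.1, hM.2.2⟩
    _ = Z.card * (stab n r).card := by rw [Finset.sum_const, smul_eq_mul]

/-- number of subsets of `Fin n` with at most `c` elements -/
def lowCount (n c : ℕ) : ℕ := ∑ i ∈ Finset.range (c + 1), n.choose i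

lemma card_filter_card_le (n c : ℕ) :
    ((Finset.univ : Finset (Finset (Fin n))).filter (fun C => C.card ≤ c)).card
      = lowCount n c := by
  classical
  unfold lowCount
  rw [Finset.card_eq_sum_card_fiberwise (f := Finset.card) (t := Finset.range (c + 1))]
  · refine Finset.sum_congr rfl fun i hi => ?_
    rw [Finset.mem_range] at hi
    have : (Finset.univ.filter (fun C : Finset (Fin n) => C.card ≤ c)).filter
        (fun C => C.card = i) = Finset.powersetCard i Finset.univ := by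
      ext C
      simp only [Finset.mem_filter, Finset.mem_univ, true_and, Finset.mem_powersetCard,
        Finset.subset_univ]
      omega
    rw [this, Finset.card_powersetCard, Finset.card_univ, Fintype.card_fin]
  · intro C hC
    rw [Finset.mem_coe, Finset.mem_filter] at hC
    rw [Finset.mem_coe, Finset.mem_range]
    omega

/-- existence of a small code for a matroid, in terms of the parameters -/
theorem exists_codeFor {n : ℕ} {M : Matroid (Fin n)} (hE : M.E = Set.univ) (hr : 1 ≤ rk M)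
    (c₀ d₀ Δ : ℕ) (hd : Δ < d₀) :
    ∃ z : Finset (Finset (Fin n)) × Finset (Finset (Fin n)), CodeFor M c₀ d₀ Δ z ∧
      (z.1.card : ℝ) ≤ lowCount n c₀ + steps n (rk M) Δ (n.choose (rk M)) ∧
      (z.2.card : ℝ) ≤ lowCount n d₀ + steps n (rk M) Δ (n.choose (rk M)) := by
  classical
  set z₀ : Finset (Finset (Fin n)) × Finset (Finset (Fin n)) :=
    ((Finset.univ.filter (fun C : Finset (Fin n) => C.card ≤ c₀)).filter
        (fun C => M.IsCircuit (C : Set (Fin n))),
      (Finset.univ.filter (fun D : Finset (Fin n) => D.card ≤ d₀)).filter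
        (fun D => M.IsCocircuit (D : Set (Fin n)))) with hz₀
  have hv : Valid M z₀ :=
    ⟨fun C hC => (Finset.mem_filter.1 hC).2, fun D hD => (Finset.mem_filter.1 hD).2⟩
  obtain ⟨z, h1, h2, hval, hstop, hc1, hc2⟩ := exists_code hE hr Δ _ z₀ hv rfl
  have hK1 : (K1 M z₀).card ≤ n.choose (rk M) := by
    have : K1 M z₀ ⊆ Finset.powersetCard (rk M) Finset.univ := by
      intro Y hY
      rw [Finset.mem_powersetCard]
      exact ⟨Finset.subset_univ _, (mem_Kunc.1 (mem_K1.1 hY).1).1⟩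
    have := Finset.card_le_card this
    rwa [Finset.card_powersetCard, Finset.card_univ, Fintype.card_fin] at this
  have hst := steps_mono n (rk M) Δ hK1
  rw [Fintype.card_fin] at hc1 hc2
  have hco : ∀ D : Finset (Fin n), M.IsCocircuit (D : Set (Fin n)) → D.card ≤ d₀ → D ∈ z.2 := by
    intro D hD hDc
    exact h2 (Finset.mem_filter.2 ⟨Finset.mem_filter.2 ⟨Finset.mem_univ _, hDc⟩, hD⟩)
  have hnbr : ∀ X ∈ Kunc M z, ∃ Y : Finset (Fin n), JAdj X Y ∧ M.IsBase (Y : Set (Fin n)) :=
    fun X hX => exists_base_neighbour hE hval hco hstop hd hX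
  have hKeq : Kunc M z = K1 M z := by
    apply Finset.Subset.antisymm
    · intro X hX
      exact mem_K1.2 ⟨hX, hnbr X hX⟩
    · exact K1_subset M z
  refine ⟨z, ⟨hval, ?_, hco, hnbr, ?_⟩, ?_, ?_⟩
  · intro C hC hCc
    exact h1 (Finset.mem_filter.2 ⟨Finset.mem_filter.2 ⟨Finset.mem_univ _, hCc⟩, hC⟩)
  · rw [hKeq]; exact hstop
  · have h3 : z₀.1.card ≤ lowCount n c₀ := by
      rw [← card_filter_card_le]
      exact Finset.card_filter_le _ _
    have h4 : (z₀.1.card : ℝ) ≤ lowCount n c₀ := by exact_mod_cast h3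
    linarith
  · have h3 : z₀.2.card ≤ lowCount n d₀ := by
      rw [← card_filter_card_le]
      exact Finset.card_filter_le _ _
    have h4 : (z₀.2.card : ℝ) ≤ lowCount n d₀ := by exact_mod_cast h3
    linarith

/-- few uncovered non-bases -/
lemma CodeFor.card_Kunc_le {n : ℕ} {M : Matroid (Fin n)} (hr : 1 ≤ rk M) (hrn : rk M ≤ n)
    {c₀ d₀ Δ : ℕ} {z : Finset (Finset (Fin n)) × Finset (Finset (Fin n))}
    (h : CodeFor M c₀ d₀ Δ z) :
    rk M * (n - rk M + 1) * (Kunc M z).card ≤ n.choose (rk M) * (Δ + rk M) := by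
  classical
  by_cases hne : (Kunc M z).Nonempty
  · have hsub : Kunc M z ⊆ Finset.powersetCard (rk M) Finset.univ := by
      intro Y hY
      rw [Finset.mem_powersetCard]
      exact ⟨Finset.subset_univ _, (mem_Kunc.1 hY).1⟩
    obtain ⟨X, hX, hdeg⟩ := exists_jdeg_ge hr (by rwa [Fintype.card_fin]) _ hsub hne
    rw [Fintype.card_fin] at hdeg
    refine hdeg.trans (Nat.mul_le_mul_left _ ?_)
    have := h.stop X hX
    omega
  · rw [Finset.not_nonempty_iff_eq_empty] at hne
    rw [hne]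
    simp

/-- pairs of families with at most `K` members each -/
noncomputable def codes (n K : ℕ) : Finset (Finset (Finset (Fin n)) × Finset (Finset (Fin n))) :=
  (Finset.univ.filter (fun A : Finset (Finset (Fin n)) => A.card ≤ K)) ×ˢ
    (Finset.univ.filter (fun A : Finset (Finset (Fin n)) => A.card ≤ K))

lemma mem_codes {n K : ℕ} {z : Finset (Finset (Fin n)) × Finset (Finset (Fin n))} :
    z ∈ codes n K ↔ z.1.card ≤ K ∧ z.2.card ≤ K := by
  simp [codes]

lemma card_small_subsets {β : Type*} [Fintype β] [DecidableEq β] (K : ℕ) :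
    ((Finset.univ : Finset (Finset β)).filter (fun A => A.card ≤ K)).card
      = ∑ i ∈ Finset.range (K + 1), (Fintype.card β).choose i := by
  classical
  rw [Finset.card_eq_sum_card_fiberwise (f := Finset.card) (t := Finset.range (K + 1))]
  · refine Finset.sum_congr rfl fun i hi => ?_
    rw [Finset.mem_range] at hi
    have : (Finset.univ.filter (fun C : Finset β => C.card ≤ K)).filter
        (fun C => C.card = i) = Finset.powersetCard i Finset.univ := by
      ext C
      simp only [Finset.mem_filter, Finset.mem_univ, true_and, Finset.mem_powersetCard,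
        Finset.subset_univ]
      omega
    rw [this, Finset.card_powersetCard, Finset.card_univ]
  · intro C hC
    rw [Finset.mem_coe, Finset.mem_filter] at hC
    rw [Finset.mem_coe, Finset.mem_range]
    omega

lemma sum_choose_le (L K : ℕ) (hK : 1 ≤ K) (hKL : K ≤ L) :
    ((∑ i ∈ Finset.range (K + 1), L.choose i : ℕ) : ℝ)
      ≤ (Real.exp 1 * L / K) ^ K := by
  have hK0 : (0 : ℝ) < K := by exact_mod_cast hK
  have hL0 : (0 : ℝ) < L := by exact_mod_cast (by omega : 0 < L)
  have hLK : (1 : ℝ) ≤ L / K := by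
    rw [le_div_iff₀ hK0, one_mul]; exact_mod_cast hKL
  push_cast
  calc (∑ i ∈ Finset.range (K + 1), (L.choose i : ℝ))
      ≤ ∑ i ∈ Finset.range (K + 1), (L.choose i : ℝ) * ((L : ℝ) / K) ^ (K - i) := by
        refine Finset.sum_le_sum fun i _ => ?_
        exact le_mul_of_one_le_right (by positivity) (one_le_pow₀ hLK)
    _ = ∑ i ∈ Finset.range (K + 1),
          ((L : ℝ) / K) ^ K * (((K : ℝ) / L) ^ i * 1 ^ (L - i) * (L.choose i : ℝ)) := by
        refine Finset.sum_congr rfl fun i hi => ?_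
        rw [Finset.mem_range] at hi
        have hi' : i ≤ K := by omega
        have h1 : ((L : ℝ) / K) ^ K = ((L : ℝ) / K) ^ (K - i) * ((L : ℝ) / K) ^ i := by
          rw [← pow_add]; congr 1; omega
        have h2 : ((L : ℝ) / K) ^ i * ((K : ℝ) / L) ^ i = 1 := by
          rw [← mul_pow]
          have : (L : ℝ) / K * (K / L) = 1 := by field_simp
          rw [this, one_pow]
        rw [h1, one_pow]
        calc (L.choose i : ℝ) * ((L : ℝ) / K) ^ (K - i)
            = (L.choose i : ℝ) * ((L : ℝ) / K) ^ (K - i) *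
              (((L : ℝ) / K) ^ i * ((K : ℝ) / L) ^ i) := by rw [h2, mul_one]
          _ = _ := by ring
    _ ≤ ∑ i ∈ Finset.range (L + 1),
          ((L : ℝ) / K) ^ K * (((K : ℝ) / L) ^ i * 1 ^ (L - i) * (L.choose i : ℝ)) := by
        refine Finset.sum_le_sum_of_subset_of_nonneg
          (Finset.range_subset_range.2 (by omega)) fun i _ _ => by positivity
    _ = ((L : ℝ) / K) ^ K * ((K : ℝ) / L + 1) ^ L := by
        rw [← Finset.mul_sum, ← add_pow]
    _ ≤ ((L : ℝ) / K) ^ K * Real.exp 1 ^ K := by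
        gcongr
        calc ((K : ℝ) / L + 1) ^ L ≤ (Real.exp ((K : ℝ) / L)) ^ L := by
              gcongr
              exact Real.add_one_le_exp _
          _ = Real.exp 1 ^ K := by
              rw [← Real.exp_nat_mul, ← Real.exp_nat_mul]
              congr 1
              field_simp
    _ = (Real.exp 1 * L / K) ^ K := by
        rw [← mul_pow]; congr 1; ring

lemma card_codes_le (n K : ℕ) (hK : 1 ≤ K) (hKL : K ≤ 2 ^ n) :
    ((codes n K).card : ℝ) ≤ (Real.exp 1 * 2 ^ n / K) ^ (2 * K) := by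
  classical
  have h1 : (codes n K).card = (∑ i ∈ Finset.range (K + 1), (2 ^ n).choose i) ^ 2 := by
    unfold codes
    rw [Finset.card_product, card_small_subsets, Fintype.card_finset, Fintype.card_fin, sq]
  rw [h1]
  have h2 := sum_choose_le (2 ^ n) K hK hKL
  push_cast at h2 ⊢
  calc (∑ i ∈ Finset.range (K + 1), ((2 ^ n).choose i : ℝ)) ^ 2
      ≤ ((Real.exp 1 * 2 ^ n / K) ^ K) ^ 2 := by
        refine pow_le_pow_left₀ (Finset.sum_nonneg fun _ _ => by positivity) h2 2
    _ = _ := by rw [← pow_mul, mul_comm K 2]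

end Pool.Agent.Helper77
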