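import Pool.Agent.Helper77.Unc

/-!
Greedy construction of a small covering code.
-/

open Finset Matroid

namespace Pool.Agent.Helper77

set_option linter.unusedSectionVars false

variable {α : Type*} [DecidableEq α] [Fintype α] {M : Matroid α}

lemma Cov.mono {z z' : Finset (Finset α) × Finset (Finset α)} (h1 : z.1 ⊆ z'.1)
    (h2 : z.2 ⊆ z'.2) {X : Finset α} (h : Cov z X) : Cov z' X := by
  rcases h with ⟨C, hC, hCX⟩ | ⟨D, hD, hDX⟩
  · exact Or.inl ⟨C, h1 hC, hCX⟩
  · exact Or.inr ⟨D, h2 hD, hDX⟩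

/-- the (real) lower bound for the largest degree -/
noncomputable def dlow (n r Δ : ℕ) (k : ℕ) : ℝ :=
  max ((Δ : ℝ) + 1) ((r : ℝ) * (n - r + 1 : ℕ) * k / (n.choose r) - r)

lemma dlow_pos (n r Δ k : ℕ) : 0 < dlow n r Δ k :=
  lt_of_lt_of_le (by positivity) (le_max_left _ _)

lemma dlow_mono (n r Δ : ℕ) {k k' : ℕ} (h : k ≤ k') : dlow n r Δ k ≤ dlow n r Δ k' := by
  unfold dlow
  gcongr

/-- the number of steps -/
noncomputable def steps (n r Δ : ℕ) (k : ℕ) : ℝ := ∑ i ∈ Finset.range k, 1 / dlow n r Δ (i + 1)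

lemma steps_nonneg (n r Δ k : ℕ) : 0 ≤ steps n r Δ k :=
  Finset.sum_nonneg fun _ _ => (div_pos one_pos (dlow_pos _ _ _ _)).le

lemma steps_mono (n r Δ : ℕ) {k k' : ℕ} (h : k ≤ k') : steps n r Δ k ≤ steps n r Δ k' :=
  Finset.sum_le_sum_of_subset_of_nonneg (Finset.range_subset_range.2 h)
    fun _ _ _ => (div_pos one_pos (dlow_pos _ _ _ _)).le

lemma steps_step (n r Δ : ℕ) {k k₁ j : ℕ} (h : k₁ + j ≤ k) (hj : dlow n r Δ k ≤ j) :
    1 + steps n r Δ k₁ ≤ steps n r Δ k := by
  have hk : k₁ ≤ k := by omega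
  have h1 : steps n r Δ k = steps n r Δ k₁ + ∑ i ∈ Finset.Ico k₁ k, 1 / dlow n r Δ (i + 1) := by
    unfold steps
    rw [Finset.range_eq_Ico, Finset.range_eq_Ico, Finset.sum_Ico_consecutive _ (Nat.zero_le _) hk]
  have h2 : ∑ _i ∈ Finset.Ico k₁ k, 1 / dlow n r Δ k
      ≤ ∑ i ∈ Finset.Ico k₁ k, 1 / dlow n r Δ (i + 1) := by
    refine Finset.sum_le_sum fun i hi => ?_
    rw [Finset.mem_Ico] at hi
    exact one_div_le_one_div_of_le (dlow_pos _ _ _ _) (dlow_mono _ _ _ (by omega))
  rw [Finset.sum_const, Nat.card_Ico, nsmul_eq_mul] at h2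
  have h3 : (1 : ℝ) ≤ ((k - k₁ : ℕ) : ℝ) * (1 / dlow n r Δ k) := by
    rw [mul_one_div, le_div_iff₀ (dlow_pos _ _ _ _), one_mul]
    refine hj.trans ?_
    exact_mod_cast (by omega : j ≤ k - k₁)
  linarith

/-- one greedy step -/
lemma greedy_step (hE : M.E = Set.univ)
    {z : Finset (Finset α) × Finset (Finset α)} (hz : Valid M z) {X : Finset α}
    (hX : X ∈ K1 M z) :
    ∃ C D : Finset α, Valid M (insert C z.1, insert D z.2) ∧
      (K1 M (insert C z.1, insert D z.2)).card + jdeg (K1 M z) X < (K1 M z).card := by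
  classical
  have hX' := mem_K1.1 hX
  obtain ⟨hXK, Y, hXY, hY⟩ := hX'
  rw [mem_Kunc] at hXK
  obtain ⟨x₀, hx₀, y₀, hy₀, rfl⟩ := jadj_iff_swap.1 hXY
  obtain ⟨C, D, hC, hD, hCX, hDX, hloc⟩ := exists_localPair hE hXK.2.1 hx₀ hy₀ hY
  refine ⟨C, D, ⟨?_, ?_⟩, ?_⟩
  · intro C' hC'
    rcases Finset.mem_insert.1 hC' with rfl | h
    · exact hC
    · exact hz.1 _ h
  · intro D' hD'
    rcases Finset.mem_insert.1 hD' with rfl | h
    · exact hD
    · exact hz.2 _ h
  · set z' : Finset (Finset α) × Finset (Finset α) := (insert C z.1, insert D z.2) with hz'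
    have hsub : K1 M z' ⊆ K1 M z := by
      intro Y hY
      rw [mem_K1, mem_Kunc] at hY ⊢
      refine ⟨⟨hY.1.1, hY.1.2.1, fun h => hY.1.2.2 ?_⟩, hY.2⟩
      exact h.mono (Finset.subset_insert _ _) (Finset.subset_insert _ _)
    set R := insert X ((K1 M z).filter (fun Y => JAdj X Y)) with hR
    have hRcard : R.card = jdeg (K1 M z) X + 1 := by
      rw [hR, Finset.card_insert_of_notMem]
      · rfl
      · rw [Finset.mem_filter]
        exact fun h => not_jadj_self _ h.2
    have hRsub : R ⊆ K1 M z := by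
      intro Y hY
      rcases Finset.mem_insert.1 hY with rfl | h
      · exact hX
      · exact (Finset.mem_filter.1 h).1
    have hdisj : Disjoint (K1 M z') R := by
      rw [Finset.disjoint_left]
      intro Y hY hYR
      have hYu := (mem_Kunc.1 (mem_K1.1 hY).1).2.2
      rcases Finset.mem_insert.1 hYR with rfl | h
      · exact hYu (Or.inl ⟨C, Finset.mem_insert_self _ _, hCX⟩)
      · obtain ⟨h1, h2⟩ := Finset.mem_filter.1 h
        obtain ⟨x, hx, y, hy, rfl⟩ := jadj_iff_swap.1 h2
        have hnb := (mem_Kunc.1 (mem_K1.1 hY).1).2.1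
        rw [hloc x hx y hy] at hnb
        by_cases hxC : x ∈ C
        · have hyD : y ∉ D := fun h => hnb ⟨hxC, h⟩
          apply hYu
          right
          refine ⟨D, Finset.mem_insert_self _ _, ?_⟩
          rw [Finset.disjoint_left]
          intro v hv hv2
          rcases Finset.mem_insert.1 hv2 with rfl | h
          · exact hyD hv
          · exact Finset.disjoint_left.1 hDX hv (Finset.mem_of_mem_erase h)
        · apply hYu
          left
          refine ⟨C, Finset.mem_insert_self _ _, ?_⟩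
          intro v hv
          refine Finset.mem_insert_of_mem (Finset.mem_erase.2 ⟨?_, hCX hv⟩)
          rintro rfl
          exact hxC hv
    have h1 : (K1 M z' ∪ R).card ≤ (K1 M z).card :=
      Finset.card_le_card (Finset.union_subset hsub hRsub)
    rw [Finset.card_union_of_disjoint hdisj, hRcard] at h1
    omega

/-- existence of a small code -/
theorem exists_code (hE : M.E = Set.univ) (hr : 1 ≤ rk M) (Δ : ℕ)
    (k : ℕ) : ∀ z : Finset (Finset α) × Finset (Finset α), Valid M z → (K1 M z).card = k →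
    ∃ z' : Finset (Finset α) × Finset (Finset α), z.1 ⊆ z'.1 ∧ z.2 ⊆ z'.2 ∧ Valid M z' ∧
      (∀ X ∈ K1 M z', jdeg (K1 M z') X ≤ Δ) ∧
      (z'.1.card : ℝ) ≤ z.1.card + steps (Fintype.card α) (rk M) Δ k ∧
      (z'.2.card : ℝ) ≤ z.2.card + steps (Fintype.card α) (rk M) Δ k := by
  classical
  induction k using Nat.strong_induction_on with
  | _ k ih =>
    intro z hz hk
    by_cases hstop : ∀ X ∈ K1 M z, jdeg (K1 M z) X ≤ Δ
    · refine ⟨z, Finset.Subset.refl _, Finset.Subset.refl _, hz, hstop, ?_, ?_⟩ <;>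
      · have := steps_nonneg (Fintype.card α) (rk M) Δ k
        linarith
    · push Not at hstop
      obtain ⟨X₀, hX₀, hdeg₀⟩ := hstop
      have hne : (K1 M z).Nonempty := ⟨X₀, hX₀⟩
      obtain ⟨X, hX, hmax⟩ := Finset.exists_max_image (K1 M z) (jdeg (K1 M z)) hne
      have hsubV : K1 M z ⊆ Finset.powersetCard (rk M) Finset.univ := by
        intro Y hY
        rw [Finset.mem_powersetCard]
        exact ⟨Finset.subset_univ _, (mem_Kunc.1 (mem_K1.1 hY).1).1⟩
      have hXc : X.card = rk M := (mem_Kunc.1 (mem_K1.1 hX).1).1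
      have hrn : rk M ≤ Fintype.card α := by rw [← hXc]; exact Finset.card_le_univ _
      obtain ⟨X', hX', hX'deg⟩ := exists_jdeg_ge hr hrn (K1 M z) hsubV hne
      obtain ⟨C, D, hval, hcard⟩ := greedy_step hE hz hX
      set z₁ : Finset (Finset α) × Finset (Finset α) := (insert C z.1, insert D z.2) with hz₁
      have hk₁ : (K1 M z₁).card < k := by omega
      obtain ⟨z', hs1, hs2, hv, hst, hc1, hc2⟩ := ih _ hk₁ z₁ hval rfl
      have hdl : dlow (Fintype.card α) (rk M) Δ k ≤ ((jdeg (K1 M z) X : ℕ) : ℝ) := by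
        unfold dlow
        apply max_le
        · have h1 := hmax X₀ hX₀
          have h2 : Δ + 1 ≤ jdeg (K1 M z) X := by omega
          exact_mod_cast h2
        · have h1 := hmax X' hX'
          have hNpos : (0 : ℝ) < ((Fintype.card α).choose (rk M) : ℕ) := by
            exact_mod_cast Nat.choose_pos hrn
          rw [sub_le_iff_le_add, div_le_iff₀ hNpos]
          have h2 : rk M * (Fintype.card α - rk M + 1) * k
              ≤ (Fintype.card α).choose (rk M) * (jdeg (K1 M z) X + rk M) := by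
            calc rk M * (Fintype.card α - rk M + 1) * k
                ≤ (Fintype.card α).choose (rk M) * (jdeg (K1 M z) X' + rk M) := by
                  rw [← hk]; exact hX'deg
              _ ≤ _ := Nat.mul_le_mul_left _ (by omega)
          have h3 : ((rk M * (Fintype.card α - rk M + 1) * k : ℕ) : ℝ)
              ≤ (((Fintype.card α).choose (rk M) * (jdeg (K1 M z) X + rk M) : ℕ) : ℝ) := by
            exact_mod_cast h2
          push_cast at h3
          push_cast
          linarith
      have hstep := steps_step (Fintype.card α) (rk M) Δ (k := k) (k₁ := (K1 M z₁).card)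
        (j := jdeg (K1 M z) X) (by omega) hdl
      refine ⟨z', (Finset.subset_insert _ _).trans hs1, (Finset.subset_insert _ _).trans hs2,
        hv, hst, ?_, ?_⟩
      · have h1 : (z₁.1.card : ℝ) ≤ z.1.card + 1 := by
          exact_mod_cast Finset.card_insert_le _ _
        linarith
      · have h1 : (z₁.2.card : ℝ) ≤ z.2.card + 1 := by
          exact_mod_cast Finset.card_insert_le _ _
        linarith

end Pool.Agent.Helper77
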