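import Pool.Agent.Helper77.HVecDefs

/-!
Deletion-contraction for the h-polynomial of a matroid, nonnegativity of the H-vector,
`H_i (M / e) ≤ H_i M`, and McMullen's sum formula.
-/

open Polynomial Matroid Set

namespace Pool.Agent.Helper77

set_option linter.unusedSectionVars false

variable {α : Type*} [Fintype α] [DecidableEq α]

open scoped Classical in
/-- The finset of all independent finsets. -/
noncomputable def indepFS (M : Matroid α) : Finset (Finset α) :=
  Finset.univ.filter (fun I => M.Indep (I : Set α))

lemma mem_indepFS {M : Matroid α} {I : Finset α} : I ∈ indepFS M ↔ M.Indep (I : Set α) := by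
  classical
  simp [indepFS]

/-- weight of a set of size `k` in rank `r` -/
noncomputable def wt (r k : ℕ) : ℤ[X] := X ^ k * (1 - X) ^ (r - k)

lemma rk_eq_of_isBase {M : Matroid α} {B : Set α} (hB : M.IsBase B) : rk M = B.ncard := by
  rw [rk, ← hB.encard_eq_eRank]; rfl

lemma card_le_rk {M : Matroid α} {I : Finset α} (hI : M.Indep (I : Set α)) : I.card ≤ rk M := by
  obtain ⟨B, hB, hIB⟩ := hI.exists_isBase_superset
  rw [rk_eq_of_isBase hB, ← Set.ncard_coe_finset]
  exact Set.ncard_le_ncard hIB (Set.toFinite _)

lemma hPoly_eq_sum (M : Matroid α) :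
    hPoly M = ∑ I ∈ indepFS M, wt (rk M) I.card := by
  classical
  have h1 : ∑ I ∈ indepFS M, wt (rk M) I.card
      = ∑ i ∈ Finset.range (rk M + 1), ∑ I ∈ (indepFS M).filter (fun I => I.card = i),
        wt (rk M) I.card := by
    symm
    apply Finset.sum_fiberwise_of_maps_to
    intro I hI
    rw [mem_indepFS] at hI
    have := card_le_rk hI
    simp only [Finset.mem_range]
    omega
  rw [h1, hPoly]
  refine Finset.sum_congr rfl fun i _ => ?_
  have h2 : ∀ I ∈ (indepFS M).filter (fun I => I.card = i), wt (rk M) I.card = wt (rk M) i := by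
    intro I hI
    rw [Finset.mem_filter] at hI
    rw [hI.2]
  rw [Finset.sum_congr rfl h2, Finset.sum_const]
  have h3 : indepCount M i = ((indepFS M).filter (fun I => I.card = i)).card := by
    rw [indepCount, ← Set.ncard_coe_finset]
    congr 1
    ext I
    simp [mem_indepFS]
  rw [h3, wt, nsmul_eq_mul]
  simp [mul_assoc]

section DC

variable {M : Matroid α} {e : α}

/-- independent sets of the deletion -/
lemma indepFS_delete (M : Matroid α) (e : α) :
    indepFS (M ＼ {e}) = (indepFS M).filter (fun I => e ∉ I) := by
  classical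
  ext I
  simp [mem_indepFS, deleteElem_indep_iff]

lemma sum_indep_contract (he : M.IsNonloop e) (f : ℕ → ℤ[X]) :
    ∑ I ∈ (indepFS M).filter (fun I => e ∈ I), f I.card
      = ∑ I ∈ indepFS (M ／ {e}), f (I.card + 1) := by
  classical
  symm
  refine Finset.sum_bij' (fun I _ => insert e I) (fun I _ => I.erase e) ?_ ?_ ?_ ?_ ?_
  · intro I hI
    rw [mem_indepFS, he.contractElem_indep_iff] at hI
    simp [mem_indepFS, hI.2]
  · intro I hI
    rw [Finset.mem_filter, mem_indepFS] at hI
    rw [mem_indepFS, he.contractElem_indep_iff]
    refine ⟨by simp, ?_⟩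
    rw [Finset.coe_erase, Set.insert_sdiff_singleton, Set.insert_eq_of_mem (by exact_mod_cast hI.2)]
    exact hI.1
  · intro I hI
    rw [mem_indepFS, he.contractElem_indep_iff] at hI
    exact Finset.erase_insert (by exact_mod_cast hI.1)
  · intro I hI
    rw [Finset.mem_filter] at hI
    exact Finset.insert_erase hI.2
  · intro I hI
    rw [mem_indepFS, he.contractElem_indep_iff] at hI
    rw [Finset.card_insert_of_notMem (by exact_mod_cast hI.1)]

/-- rank of a contraction by a nonloop -/
lemma rk_contract (he : M.IsNonloop e) : rk M = rk (M ／ {e}) + 1 := by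
  classical
  obtain ⟨B, hB⟩ := (M ／ {e}).exists_isBase
  have hI : M.Indep {e} := indep_singleton.2 he
  have h := hI.contract_isBase_iff.1 hB
  rw [rk_eq_of_isBase hB, rk_eq_of_isBase h.1]
  have heB : e ∉ B := by simpa using h.2
  rw [Set.union_singleton, Set.ncard_insert_of_notMem heB (Set.toFinite _)]

/-- rank of a deletion of a non-coloop -/
lemma rk_delete (he : ¬ M.IsColoop e) : rk (M ＼ {e}) = rk M := by
  classical
  by_cases heE : e ∈ M.E
  · have h : ∃ B, M.IsBase B ∧ e ∉ B := by
      rw [isColoop_iff_forall_mem_isBase] at he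
      push Not at he
      exact he
    obtain ⟨B, hB, heB⟩ := h
    have hB' : (M ＼ {e}).IsBase B := by
      rw [delete_isBase_iff]
      refine hB.isBasis_of_subset (by exact Set.sdiff_subset) ?_
      exact Set.subset_sdiff_singleton hB.subset_ground heB
    rw [rk_eq_of_isBase hB, rk_eq_of_isBase hB']
  · rw [deleteElem_eq_self heE]

lemma hPoly_delete_loop (he : ¬ M.IsNonloop e) : hPoly (M ＼ {e}) = hPoly M := by
  classical
  have hnc : ¬ M.IsColoop e := fun h => he h.isNonloop
  rw [hPoly_eq_sum, hPoly_eq_sum, rk_delete hnc, indepFS_delete]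
  congr 1
  apply Finset.filter_true_of_mem
  intro I hI heI
  rw [mem_indepFS] at hI
  exact he (hI.isNonloop_of_mem (by exact_mod_cast heI))

lemma hPoly_dc (he : M.IsNonloop e) (he' : ¬ M.IsColoop e) :
    hPoly M = hPoly (M ＼ {e}) + X * hPoly (M ／ {e}) := by
  classical
  rw [hPoly_eq_sum, hPoly_eq_sum, hPoly_eq_sum, rk_delete he', indepFS_delete,
    ← Finset.sum_filter_add_sum_filter_not (indepFS M) (fun I => e ∉ I)]
  congr 1
  simp only [not_not]
  rw [sum_indep_contract he, Finset.mul_sum]
  refine Finset.sum_congr rfl fun I _ => ?_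
  rw [rk_contract he, wt, wt]
  rw [Nat.add_sub_add_right, pow_succ]
  ring

lemma hPoly_coloop (he : M.IsColoop e) : hPoly (M ／ {e}) = hPoly M := by
  classical
  have hn := he.isNonloop
  have hdc : M ／ {e} = M ＼ {e} :=
    contract_eq_delete_of_subset_coloops (Set.singleton_subset_iff.2 he)
  rw [hPoly_eq_sum, hPoly_eq_sum,
    ← Finset.sum_filter_add_sum_filter_not (indepFS M) (fun I => e ∉ I)]
  simp only [not_not]
  rw [sum_indep_contract hn, ← indepFS_delete, ← hdc, ← Finset.sum_add_distrib]
  refine Finset.sum_congr rfl fun I hI => ?_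
  rw [mem_indepFS] at hI
  have := card_le_rk hI
  rw [rk_contract hn, wt, wt, wt, Nat.add_sub_add_right, pow_succ,
    show rk (M ／ {e}) + 1 - I.card = (rk (M ／ {e}) - I.card) + 1 by omega, pow_succ]
  ring

lemma hPoly_coloop' (he : M.IsColoop e) : hPoly (M ＼ {e}) = hPoly M := by
  rw [← contract_eq_delete_of_subset_coloops (Set.singleton_subset_iff.2 he), hPoly_coloop he]

end DC

lemma rk_of_ground_empty {M : Matroid α} (hE : M.E = ∅) : rk M = 0 := by
  obtain ⟨B, hB⟩ := M.exists_isBase
  have := hB.subset_ground
  rw [hE, Set.subset_empty_iff] at this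
  rw [rk_eq_of_isBase hB, this]
  simp

lemma hPoly_of_ground_empty {M : Matroid α} (hE : M.E = ∅) : hPoly M = 1 := by
  classical
  rw [hPoly_eq_sum, rk_of_ground_empty hE]
  have : indepFS M = {∅} := by
    ext I
    rw [mem_indepFS, Finset.mem_singleton]
    constructor
    · intro h
      have := h.subset_ground
      rw [hE, Set.subset_empty_iff] at this
      exact_mod_cast this
    · rintro rfl
      simp
  rw [this]
  simp [wt]

/-- The H-vector of a matroid is nonnegative. -/
theorem hPoly_coeff_nonneg (M : Matroid α) (i : ℕ) : 0 ≤ (hPoly M).coeff i := by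
  classical
  induction h : M.E.ncard generalizing M i with
  | zero =>
    have hE : M.E = ∅ := by
      rwa [Set.ncard_eq_zero (Set.toFinite _)] at h
    rw [hPoly_of_ground_empty hE, coeff_one]
    split_ifs <;> norm_num
  | succ n ih =>
    have hne : M.E.Nonempty := by
      rw [← Set.ncard_pos (Set.toFinite _)]; omega
    obtain ⟨e, he⟩ := hne
    have hd : (M ＼ {e}).E.ncard = n := by
      rw [delete_ground, Set.ncard_sdiff_singleton_of_mem he]; omega
    have hc : (M ／ {e}).E.ncard = n := by
      rw [contract_ground, Set.ncard_sdiff_singleton_of_mem he]; omega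
    by_cases hn : M.IsNonloop e
    · by_cases hco : M.IsColoop e
      · rw [← hPoly_coloop hco]
        exact ih _ _ hc
      · rw [hPoly_dc hn hco, coeff_add]
        have h1 := ih (M ＼ {e}) i hd
        have h2 : 0 ≤ (X * hPoly (M ／ {e})).coeff i := by
          cases i with
          | zero => simp
          | succ j => rw [coeff_X_mul]; exact ih _ _ hc
        linarith
    · rw [← hPoly_delete_loop hn]
      exact ih _ _ hd

/-- `H_i (M / e) ≤ H_i M` for every nonloop `e`. -/
theorem hPoly_contract_le (M : Matroid α) (e : α) (he : M.IsNonloop e) (i : ℕ) :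
    (hPoly (M ／ {e})).coeff i ≤ (hPoly M).coeff i := by
  classical
  induction h : M.E.ncard generalizing M i with
  | zero =>
    have hE : M.E = ∅ := by
      rwa [Set.ncard_eq_zero (Set.toFinite _)] at h
    have := he.mem_ground
    simp [hE] at this
  | succ n ih =>
    by_cases hco : M.IsColoop e
    · rw [hPoly_coloop hco]
    -- e is not a coloop: find another element
    have hex : ∃ f ∈ M.E, f ≠ e := by
      by_contra hcon
      push Not at hcon
      apply hco
      rw [isColoop_iff_forall_mem_isBase]
      intro B hB
      by_contra heB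
      have hBe : B = ∅ := by
        rw [Set.eq_empty_iff_forall_notMem]
        intro x hx
        have := hcon x (hB.subset_ground hx)
        rw [this] at hx
        exact heB hx
      have hI : M.Indep {e} := indep_singleton.2 he
      have := hB.eq_of_subset_indep hI (by simp [hBe])
      rw [hBe] at this
      exact (Set.singleton_nonempty e).ne_empty this.symm
    obtain ⟨f, hfE, hfe⟩ := hex
    have hd : (M ＼ {f}).E.ncard = n := by
      rw [delete_ground, Set.ncard_sdiff_singleton_of_mem hfE]; omega
    have hc : (M ／ {f}).E.ncard = n := by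
      rw [contract_ground, Set.ncard_sdiff_singleton_of_mem hfE]; omega
    have hcomm : M ／ {e} ＼ {f} = M ＼ {f} ／ {e} :=
      contract_delete_comm M (by simpa using hfe.symm)
    have heD : (M ＼ {f}).IsNonloop e := by
      rw [delete_isNonloop_iff]
      exact ⟨he, by simpa using hfe.symm⟩
    have ihd := fun j => ih (M ＼ {f}) heD j hd
    by_cases hfn : M.IsNonloop f
    · by_cases hfc : M.IsColoop f
      · -- f coloop
        have hfc' : (M ／ {e}).IsColoop f := by
          rw [contract_isColoop_iff]
          exact ⟨hfc, by simpa using hfe⟩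
        rw [← hPoly_coloop' hfc, ← hPoly_coloop' hfc', hcomm]
        exact ihd i
      · have hX : ∀ N : Matroid α, 0 ≤ (X * hPoly N).coeff i := by
          intro N
          cases i with
          | zero => simp
          | succ j => rw [coeff_X_mul]; exact hPoly_coeff_nonneg _ _
        by_cases hpar : (M ／ {e}).IsNonloop f
        · have hfc' : ¬ (M ／ {e}).IsColoop f := by
            rw [contract_isColoop_iff]
            exact fun h => hfc h.1
          rw [hPoly_dc hfn hfc, hPoly_dc hpar hfc', hcomm, coeff_add, coeff_add]
          have heC : (M ／ {f}).IsNonloop e := by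
            rw [contract_isNonloop_iff] at hpar ⊢
            refine ⟨he.mem_ground, fun hmem => hpar.2 ?_⟩
            exact (he.mem_closure_comm hfn).2 hmem
          have h1 := ihd i
          have h2 : (X * hPoly (M ／ {e} ／ {f})).coeff i ≤ (X * hPoly (M ／ {f})).coeff i := by
            rw [contract_comm]
            cases i with
            | zero => simp
            | succ j =>
              rw [coeff_X_mul, coeff_X_mul]
              exact ih (M ／ {f}) heC j hc
          linarith
        · rw [hPoly_dc hfn hfc, ← hPoly_delete_loop hpar, hcomm, coeff_add]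
          have h1 := ihd i
          have h2 := hX (M ／ {f})
          linarith
    · have hfn' : ¬ (M ／ {e}).IsNonloop f := fun h => hfn h.of_contract
      rw [← hPoly_delete_loop hfn, ← hPoly_delete_loop hfn', hcomm]
      exact ihd i

end Pool.Agent.Helper77
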