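import Mathlib

/-!
Definitions for the H-vector of a matroid (problem MP_41cc10_co).
-/

open Polynomial

namespace Pool.Agent.Helper77

variable {α : Type*}

/-- `F_i`: the number of independent sets of `M` of size `i`. -/
noncomputable def indepCount (M : Matroid α) (i : ℕ) : ℕ :=
  {I : Finset α | M.Indep (I : Set α) ∧ I.card = i}.ncard

/-- The rank of `M`, as a natural number. -/
noncomputable def rk (M : Matroid α) : ℕ := M.eRank.toNat

/-- The polynomial `∑_{i ≤ r} F_i x^i (1 - x)^(r - i)`, with `r` the rank of `M`. -/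
noncomputable def hPoly (M : Matroid α) : ℤ[X] :=
  ∑ i ∈ Finset.range (rk M + 1),
    C (indepCount M i : ℤ) * X ^ i * (1 - X) ^ (rk M - i)

/-- The entry `H_i` of the H-vector: the coefficient of `x^i` in `hPoly M`. -/
noncomputable def hVec (M : Matroid α) (i : ℕ) : ℤ := (hPoly M).coeff i

/-- The H-vector is nondecreasing: `H_0 ≤ H_1 ≤ ... ≤ H_r`. -/
def HVecNondecreasing (M : Matroid α) : Prop :=
  ∀ i, i < rk M → hVec M i ≤ hVec M (i + 1)

end Pool.Agent.Helper77
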