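import Mathlib

/-!
Combinatorics of the Johnson graph: adjacency of finite sets, an average degree bound,
stable sets, and the Graham-Sloane colouring.
-/

open Finset

namespace Pool.Agent.Helper77

set_option linter.unusedSectionVars false

variable {α : Type*} [DecidableEq α]

/-- Johnson adjacency: same size, and intersection one smaller. -/
def JAdj (X Y : Finset α) : Prop := X.card = Y.card ∧ (X ∩ Y).card + 1 = X.card

lemma JAdj.symm {X Y : Finset α} (h : JAdj X Y) : JAdj Y X := by
  refine ⟨h.1.symm, ?_⟩
  rw [Finset.inter_comm, h.2, h.1]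

lemma jadj_comm {X Y : Finset α} : JAdj X Y ↔ JAdj Y X := ⟨JAdj.symm, JAdj.symm⟩

lemma JAdj.ne {X Y : Finset α} (h : JAdj X Y) : X ≠ Y := by
  rintro rfl
  have := h.2
  rw [Finset.inter_self] at this
  omega

lemma not_jadj_self (X : Finset α) : ¬ JAdj X X := fun h => h.ne rfl

instance (X Y : Finset α) : Decidable (JAdj X Y) := by unfold JAdj; infer_instance

lemma card_swap {X : Finset α} {x y : α} (hx : x ∈ X) (hy : y ∉ X) :
    (insert y (X.erase x)).card = X.card := by
  rw [Finset.card_insert_of_notMem (fun h => hy (Finset.mem_of_mem_erase h)),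
    Finset.card_erase_of_mem hx]
  have := Finset.card_pos.2 ⟨x, hx⟩
  omega

lemma jadj_swap {X : Finset α} {x y : α} (hx : x ∈ X) (hy : y ∉ X) :
    JAdj X (insert y (X.erase x)) := by
  refine ⟨(card_swap hx hy).symm, ?_⟩
  have : X ∩ insert y (X.erase x) = X.erase x := by
    ext z
    simp only [Finset.mem_inter, Finset.mem_insert, Finset.mem_erase]
    constructor
    · rintro ⟨h1, h2 | h2⟩
      · exact absurd (h2 ▸ h1) hy
      · exact h2
    · rintro ⟨h1, h2⟩
      exact ⟨h2, Or.inr ⟨h1, h2⟩⟩
  rw [this, Finset.card_erase_of_mem hx]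
  have := Finset.card_pos.2 ⟨x, hx⟩
  omega

lemma jadj_iff_swap {X Y : Finset α} :
    JAdj X Y ↔ ∃ x ∈ X, ∃ y, y ∉ X ∧ Y = insert y (X.erase x) := by
  constructor
  · rintro ⟨h1, h2⟩
    have hX : (X \ Y).card = 1 := by
      have := Finset.card_sdiff_add_card_inter X Y
      omega
    have hY : (Y \ X).card = 1 := by
      have := Finset.card_sdiff_add_card_inter Y X
      rw [Finset.inter_comm] at this
      omega
    obtain ⟨x, hx⟩ := Finset.card_eq_one.1 hX
    obtain ⟨y, hy⟩ := Finset.card_eq_one.1 hY
    have hx' : x ∈ X \ Y := by rw [hx]; simp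
    have hy' : y ∈ Y \ X := by rw [hy]; simp
    rw [Finset.mem_sdiff] at hx' hy'
    refine ⟨x, hx'.1, y, hy'.2, ?_⟩
    ext z
    simp only [Finset.mem_insert, Finset.mem_erase]
    constructor
    · intro hz
      by_cases hzX : z ∈ X
      · right
        refine ⟨?_, hzX⟩
        rintro rfl
        exact hx'.2 hz
      · left
        have : z ∈ Y \ X := Finset.mem_sdiff.2 ⟨hz, hzX⟩
        rw [hy] at this
        simpa using this
    · rintro (rfl | ⟨h, h'⟩)
      · exact hy'.1
      · by_contra hz
        have : z ∈ X \ Y := Finset.mem_sdiff.2 ⟨h', hz⟩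
        rw [hx] at this
        exact h (by simpa using this)
  · rintro ⟨x, hx, y, hy, rfl⟩
    exact jadj_swap hx hy

/-- A family of finite sets is stable if it has no two Johnson-adjacent members. -/
def JStable (Q : Finset (Finset α)) : Prop := ∀ X ∈ Q, ∀ Y ∈ Q, ¬ JAdj X Y

variable [Fintype α]

/-- degree inside a family -/
def jdeg (A : Finset (Finset α)) (X : Finset α) : ℕ := (A.filter (fun Y => JAdj X Y)).card

/-- average degree bound -/
lemma exists_jdeg_ge {r : ℕ} (hr : 1 ≤ r) (hrn : r ≤ Fintype.card α) (A : Finset (Finset α))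
    (hA : A ⊆ Finset.powersetCard r Finset.univ) (hne : A.Nonempty) :
    ∃ X ∈ A, r * (Fintype.card α - r + 1) * A.card
      ≤ (Fintype.card α).choose r * (jdeg A X + r) := by
  classical
  by_contra hcon
  push Not at hcon
  set n := Fintype.card α with hn
  set P := Finset.powersetCard (r - 1) (Finset.univ : Finset α) with hP
  have hPcard : P.card = n.choose (r - 1) := by
    rw [hP, Finset.card_powersetCard, Finset.card_univ]
  set a : Finset α → ℕ := fun B => (A.filter (fun X => B ⊆ X)).card with ha
  -- sum of a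
  have h1 : ∑ B ∈ P, a B = r * A.card := by
    simp only [ha]
    have e0 := Finset.sum_card_bipartiteAbove_eq_sum_card_bipartiteBelow (s := P) (t := A)
      (fun B X : Finset α => B ⊆ X)
    simp only [Finset.bipartiteAbove] at e0
    rw [e0]
    have : ∀ X ∈ A, (P.bipartiteBelow (fun B X => B ⊆ X) X).card = r := by
      intro X hX
      have hXc : X.card = r := (Finset.mem_powersetCard.1 (hA hX)).2
      have : P.bipartiteBelow (fun B X => B ⊆ X) X = Finset.powersetCard (r - 1) X := by
        ext B
        simp only [Finset.bipartiteBelow, hP, Finset.mem_filter, Finset.mem_powersetCard,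
          Finset.subset_univ, true_and]
        tauto
      rw [this, Finset.card_powersetCard, hXc]
      obtain ⟨s, rfl⟩ := Nat.exists_eq_add_of_le hr
      rw [show 1 + s - 1 = s by omega, show 1 + s = s + 1 by omega, Nat.choose_succ_self_right]
    rw [Finset.sum_congr rfl this, Finset.sum_const, smul_eq_mul, mul_comm]
  -- sum of squares
  have h2 : ∑ B ∈ P, a B ^ 2 = ∑ X ∈ A, (jdeg A X + r) := by
    have e1 : ∀ B ∈ P, a B ^ 2 = ∑ X ∈ A, ∑ Y ∈ A, if B ⊆ X ∧ B ⊆ Y then 1 else 0 := by
      intro B _
      simp only [ha]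
      rw [sq, Finset.card_filter, Finset.sum_mul_sum]
      refine Finset.sum_congr rfl fun X _ => Finset.sum_congr rfl fun Y _ => ?_
      by_cases h1 : B ⊆ X <;> by_cases h2 : B ⊆ Y <;> simp [h1, h2]
    rw [Finset.sum_congr rfl e1, Finset.sum_comm]
    refine Finset.sum_congr rfl fun X hX => ?_
    rw [Finset.sum_comm]
    have hXc : X.card = r := (Finset.mem_powersetCard.1 (hA hX)).2
    have e2 : ∀ Y ∈ A, ∑ B ∈ P, (if B ⊆ X ∧ B ⊆ Y then 1 else 0)
        = (if JAdj X Y then 1 else 0) + (if X = Y then r else 0) := by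
      intro Y hY
      have hYc : Y.card = r := (Finset.mem_powersetCard.1 (hA hY)).2
      rw [← Finset.card_filter]
      have : P.filter (fun B => B ⊆ X ∧ B ⊆ Y) = Finset.powersetCard (r - 1) (X ∩ Y) := by
        ext B
        simp only [hP, Finset.mem_filter, Finset.mem_powersetCard, Finset.subset_univ, true_and,
          Finset.subset_inter_iff]
        tauto
      rw [this, Finset.card_powersetCard]
      by_cases hXY : X = Y
      · subst hXY
        rw [Finset.inter_self, hXc]
        simp only [not_jadj_self, if_false, if_true, zero_add]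
        obtain ⟨s, rfl⟩ := Nat.exists_eq_add_of_le hr
        rw [show 1 + s - 1 = s by omega, show 1 + s = s + 1 by omega, Nat.choose_succ_self_right]
      · simp only [hXY, if_false, add_zero]
        by_cases hadj : JAdj X Y
        · simp only [hadj, if_true]
          have := hadj.2
          rw [hXc] at this
          rw [show (X ∩ Y).card = r - 1 by omega, Nat.choose_self]
        · simp only [hadj, if_false]
          apply Nat.choose_eq_zero_of_lt
          have hle : (X ∩ Y).card ≤ r := hXc ▸ Finset.card_le_card Finset.inter_subset_left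
          have hne1 : (X ∩ Y).card ≠ r := by
            intro h
            have e3 : X ∩ Y = X :=
              Finset.eq_of_subset_of_card_le Finset.inter_subset_left (by omega)
            have e4 : X ∩ Y = Y :=
              Finset.eq_of_subset_of_card_le Finset.inter_subset_right (by omega)
            exact hXY (e3.symm.trans e4)
          have hne2 : (X ∩ Y).card + 1 ≠ r := by
            intro h
            exact hadj ⟨by omega, by omega⟩
          omega
    rw [Finset.sum_congr rfl e2, Finset.sum_add_distrib, ← Finset.card_filter, jdeg,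
      Finset.sum_ite_eq]
    simp [hX]
  -- Cauchy-Schwarz
  have h3 : (∑ B ∈ P, a B) ^ 2 ≤ P.card * ∑ B ∈ P, a B ^ 2 := sq_sum_le_card_mul_sum_sq
  rw [h1, h2, hPcard] at h3
  -- strict upper bound
  have h4 : n.choose r * ∑ X ∈ A, (jdeg A X + r) < A.card * (r * (n - r + 1) * A.card) := by
    rw [Finset.mul_sum]
    calc ∑ X ∈ A, n.choose r * (jdeg A X + r)
        < ∑ _X ∈ A, r * (n - r + 1) * A.card := Finset.sum_lt_sum_of_nonempty hne hcon
      _ = A.card * (r * (n - r + 1) * A.card) := by rw [Finset.sum_const, smul_eq_mul]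
  have h5 : n.choose (r - 1) * (n - r + 1) = n.choose r * r := by
    obtain ⟨s, rfl⟩ := Nat.exists_eq_add_of_le hr
    have := Nat.choose_succ_right_eq n s
    rw [show 1 + s - 1 = s by omega, show 1 + s = s + 1 by omega,
      show n - (s + 1) + 1 = n - s by omega]
    exact this.symm
  have h6 : (r * A.card) ^ 2 * (n - r + 1)
      ≤ r * (n.choose r * ∑ X ∈ A, (jdeg A X + r)) := by
    calc (r * A.card) ^ 2 * (n - r + 1)
        ≤ (n.choose (r - 1) * ∑ X ∈ A, (jdeg A X + r)) * (n - r + 1) :=
          Nat.mul_le_mul_right _ h3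
      _ = (n.choose (r - 1) * (n - r + 1)) * ∑ X ∈ A, (jdeg A X + r) := by ring
      _ = (n.choose r * r) * ∑ X ∈ A, (jdeg A X + r) := by rw [h5]
      _ = _ := by ring
  have h7 : r * (n.choose r * ∑ X ∈ A, (jdeg A X + r))
      < r * (A.card * (r * (n - r + 1) * A.card)) := by
    exact Nat.mul_lt_mul_of_pos_left h4 (by omega)
  have h8 : r * (A.card * (r * (n - r + 1) * A.card)) = (r * A.card) ^ 2 * (n - r + 1) := by ring
  omega


/-- Graham-Sloane: every family of subsets of `Fin n` contains a stable family of at least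
a `1/n` proportion. -/
lemma exists_stable_subset {n : ℕ} (hn : 1 ≤ n) (W : Finset (Finset (Fin n))) :
    ∃ S ⊆ W, JStable S ∧ W.card ≤ n * S.card := by
  classical
  haveI : NeZero n := ⟨by omega⟩
  let col : Finset (Fin n) → ZMod n := fun X => ∑ x ∈ X, ((x : ℕ) : ZMod n)
  have hcol : ∀ X Y : Finset (Fin n), JAdj X Y → col X ≠ col Y := by
    intro X Y h
    obtain ⟨x, hx, y, hy, rfl⟩ := jadj_iff_swap.1 h
    intro heq
    have h1 : col (insert y (X.erase x)) = ((y : ℕ) : ZMod n) + ∑ z ∈ X.erase x, ((z : ℕ) : ZMod n) :=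
      Finset.sum_insert (fun h => hy (Finset.mem_of_mem_erase h))
    have h2 : col X = ((x : ℕ) : ZMod n) + ∑ z ∈ X.erase x, ((z : ℕ) : ZMod n) :=
      (Finset.add_sum_erase X _ hx).symm
    rw [h1, h2] at heq
    have h3 : ((x : ℕ) : ZMod n) = ((y : ℕ) : ZMod n) := add_right_cancel heq
    rw [ZMod.natCast_eq_natCast_iff'] at h3
    rw [Nat.mod_eq_of_lt x.2, Nat.mod_eq_of_lt y.2] at h3
    have : x = y := Fin.ext h3
    subst this
    exact hy hx
  by_contra hcon
  push Not at hcon
  have h1 : ∀ c : ZMod n, n * (W.filter (fun X => col X = c)).card < W.card := by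
    intro c
    refine hcon _ (Finset.filter_subset _ _) ?_
    intro X hX Y hY hadj
    rw [Finset.mem_filter] at hX hY
    exact hcol X Y hadj (hX.2.trans hY.2.symm)
  have h2 : W.card = ∑ c : ZMod n, (W.filter (fun X => col X = c)).card :=
    Finset.card_eq_sum_card_fiberwise (fun X _ => Finset.mem_univ _)
  have h3 : n * W.card < n * W.card := by
    calc n * W.card = ∑ c : ZMod n, n * (W.filter (fun X => col X = c)).card := by
          rw [← Finset.mul_sum, ← h2]
      _ < ∑ _c : ZMod n, W.card :=
          Finset.sum_lt_sum_of_nonempty Finset.univ_nonempty (fun c _ => h1 c)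
      _ = n * W.card := by
          rw [Finset.sum_const, Finset.card_univ, ZMod.card, smul_eq_mul]
  exact lt_irrefl _ h3

end Pool.Agent.Helper77
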