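import Pool.Agent.Helper77.Johnson
import Pool.Agent.Helper77.HVecDC

/-!
Local structure of non-bases of a matroid: circuits, cocircuits, coverings.
-/

open Finset Matroid

namespace Pool.Agent.Helper77

set_option linter.unusedSectionVars false

variable {α : Type*} [DecidableEq α] [Fintype α] {M : Matroid α}

lemma exists_coe_finset (S : Set α) : ∃ T : Finset α, (T : Set α) = S :=
  ⟨(Set.toFinite S).toFinset, by simp⟩

lemma isBase_card {B : Finset α} (hB : M.IsBase (B : Set α)) : B.card = rk M := by
  rw [rk_eq_of_isBase hB, Set.ncard_coe_finset]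

lemma isBase_of_subset_card {B X : Finset α} (hB : M.IsBase (B : Set α)) (hBX : B ⊆ X)
    (hX : X.card = rk M) : M.IsBase (X : Set α) := by
  have : B = X := Finset.eq_of_subset_of_card_le hBX (by rw [hX, isBase_card hB])
  rwa [← this]

lemma isBase_of_indep_card {X : Finset α} (hI : M.Indep (X : Set α)) (hX : X.card = rk M) :
    M.IsBase (X : Set α) := by
  obtain ⟨B, hB, hXB⟩ := hI.exists_isBase_superset
  obtain ⟨B', rfl⟩ := exists_coe_finset B
  have : X = B' := Finset.eq_of_subset_of_card_le (by exact_mod_cast hXB)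
    (by rw [hX, isBase_card hB])
  rwa [this]

lemma circuit_not_subset {C B : Finset α} (hC : M.IsCircuit (C : Set α))
    (hB : M.Indep (B : Set α)) : ¬ C ⊆ B := fun h =>
  hC.not_indep (hB.subset (by exact_mod_cast h))

lemma cocircuit_not_disjoint {D B : Finset α} (hD : M.IsCocircuit (D : Set α))
    (hB : M.IsBase (B : Set α)) : ¬ Disjoint D B := by
  rw [isCocircuit_iff_minimal] at hD
  have h := hD.1 _ hB
  rw [Finset.disjoint_iff_inter_eq_empty]
  intro h2
  rw [← Finset.coe_inter, h2] at h
  simp at h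

lemma circ_cocirc {C D : Finset α} (hC : M.IsCircuit (C : Set α))
    (hD : M.IsCocircuit (D : Set α)) (e : α) : C ∩ D ≠ {e} := by
  intro h
  apply hC.inter_isCocircuit_ne_singleton hD (e := e)
  rw [← Finset.coe_inter, h]
  simp

variable (hE : M.E = Set.univ)

include hE in
lemma exists_circuit {X : Finset α} (hX : X.card = rk M) (hnb : ¬ M.IsBase (X : Set α)) :
    ∃ C : Finset α, M.IsCircuit (C : Set α) ∧ C ⊆ X := by
  have hni : ¬ M.Indep (X : Set α) := fun h => hnb (isBase_of_indep_card h hX)
  have hd : M.Dep (X : Set α) := ⟨hni, by rw [hE]; exact Set.subset_univ _⟩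
  obtain ⟨C, hCX, hC⟩ := hd.exists_isCircuit_subset
  obtain ⟨C', rfl⟩ := exists_coe_finset C
  exact ⟨C', hC, by exact_mod_cast hCX⟩

include hE in
lemma exists_cocircuit {X : Finset α} (hX : X.card = rk M) (hnb : ¬ M.IsBase (X : Set α)) :
    ∃ D : Finset α, M.IsCocircuit (D : Set α) ∧ Disjoint D X := by
  by_contra hcon
  push Not at hcon
  have hco : M.Coindep (((X : Set α))ᶜ) := by
    rw [coindep_iff_forall_subset_not_isCocircuit]
    refine ⟨fun K hK hK' => ?_, by rw [hE]; exact Set.subset_univ _⟩
    obtain ⟨K', rfl⟩ := exists_coe_finset K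
    refine hcon K' hK' ?_
    rw [Finset.disjoint_left]
    intro a ha haX
    exact hK (by exact_mod_cast ha) (by exact_mod_cast haX)
  obtain ⟨B, hB, hBX⟩ := hco.exists_isBase_subset_compl
  rw [hE, ← Set.compl_eq_univ_sdiff, compl_compl] at hBX
  obtain ⟨B', rfl⟩ := exists_coe_finset B
  exact hnb (isBase_of_subset_card hB (by exact_mod_cast hBX) hX)

/-- The circuit and the cocircuit attached to a nonbase `X` of rank `r - 1`. -/
def LocalPair (M : Matroid α) (X C D : Finset α) : Prop :=
  M.IsCircuit (C : Set α) ∧ M.IsCocircuit (D : Set α) ∧ C ⊆ X ∧ Disjoint D X ∧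
    ∀ x ∈ X, ∀ y, y ∉ X → (M.IsBase ((insert y (X.erase x) : Finset α) : Set α) ↔ x ∈ C ∧ y ∈ D)

include hE in
lemma exists_localPair {X : Finset α} (hnb : ¬ M.IsBase (X : Set α)) {x₀ y₀ : α}
    (hx₀ : x₀ ∈ X) (hy₀ : y₀ ∉ X)
    (hB : M.IsBase ((insert y₀ (X.erase x₀) : Finset α) : Set α)) :
    ∃ C D : Finset α, LocalPair M X C D := by
  have hXc : X.card = rk M := by rw [← isBase_card hB, card_swap hx₀ hy₀]
  have hni : ¬ M.Indep (X : Set α) := fun h => hnb (isBase_of_indep_card h hXc)
  set B : Finset α := insert y₀ (X.erase x₀) with hBdef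
  have hx₀B : x₀ ∉ B := by
    simp only [hBdef, Finset.mem_insert, Finset.mem_erase, not_or, not_and]
    exact ⟨fun h => hy₀ (h ▸ hx₀), fun h => absurd rfl h⟩
  have hy₀B : y₀ ∈ B := Finset.mem_insert_self _ _
  obtain ⟨C, hC⟩ := exists_coe_finset (M.fundCircuit x₀ (B : Set α))
  obtain ⟨D, hD⟩ := exists_coe_finset (M.fundCocircuit y₀ (B : Set α))
  have hCcirc : M.IsCircuit (C : Set α) := by
    rw [hC]
    exact hB.fundCircuit_isCircuit (by rw [hE]; trivial) (by exact_mod_cast hx₀B)
  have hDco : M.IsCocircuit (D : Set α) := by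
    rw [hD]
    exact fundCocircuit_isCocircuit (by exact_mod_cast hy₀B) hB
  have hcl : x₀ ∈ M.closure (B : Set α) := by
    rw [hB.closure_eq, hE]; trivial
  have hmemC : ∀ x, x ∈ C ↔ M.Indep ((insert x₀ B : Finset α).erase x : Set α) := by
    intro x
    have := hB.indep.mem_fundCircuit_iff (x := x) hcl (by exact_mod_cast hx₀B)
    rw [← hC] at this
    rw [Finset.mem_coe] at this
    rw [this]
    simp
  have hmemD : ∀ y, y ∉ B → (y ∈ D ↔ M.Indep ((insert y B : Finset α).erase y₀ : Set α)) := by
    intro y hy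
    have h1 := hB.mem_fundCocircuit_iff_mem_fundCircuit (e := y) (f := y₀)
    rw [← hD, Finset.mem_coe] at h1
    rw [h1]
    have hcl' : y ∈ M.closure (B : Set α) := by
      rw [hB.closure_eq, hE]; trivial
    have := hB.indep.mem_fundCircuit_iff (x := y₀) hcl' (by exact_mod_cast hy)
    rw [this]
    simp
  have hinsX : (insert x₀ B : Finset α) = insert y₀ X := by
    ext z
    simp only [hBdef, Finset.mem_insert, Finset.mem_erase]
    by_cases hz : z = x₀
    · subst hz; simp [hx₀]
    · simp [hz]
  have hy₀C : y₀ ∉ C := by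
    rw [hmemC, hinsX, Finset.erase_insert hy₀]
    exact hni
  have hCX : C ⊆ X := by
    intro z hz
    have h1 : (C : Set α) ⊆ insert x₀ (B : Set α) := by
      rw [hC]; exact M.fundCircuit_subset_insert _ _
    have h2 : z ∈ insert x₀ B := by
      have := h1 (by exact_mod_cast hz : z ∈ (C : Set α))
      exact_mod_cast this
    rw [hinsX, Finset.mem_insert] at h2
    rcases h2 with rfl | h2
    · exact absurd hz hy₀C
    · exact h2
  -- disjointness of D and X
  have hDsub : ∀ z ∈ D, z = y₀ ∨ z ∉ B := by
    intro z hz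
    have h1 : (D : Set α) ⊆ insert y₀ (M.E \ (B : Set α)) := by
      rw [hD]; exact M.fundCocircuit_subset_insert_compl _ _
    have h2 := h1 (by exact_mod_cast hz : z ∈ (D : Set α))
    rcases h2 with h2 | h2
    · exact Or.inl h2
    · exact Or.inr (fun h => h2.2 (by exact_mod_cast h))
  have hDX : Disjoint D X := by
    rw [Finset.disjoint_left]
    intro z hz hzX
    rcases hDsub z hz with rfl | hzB
    · exact hy₀ hzX
    · -- z ∈ X, z ∉ B so z = x₀
      have hzx : z = x₀ := by
        by_contra hne
        exact hzB (by simp [hBdef, hne, hzX])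
      subst hzx
      rw [hmemD z hzB, hinsX, Finset.erase_insert hy₀] at hz
      exact hni hz
  have hy₀D : y₀ ∈ D := by
    have : y₀ ∈ (D : Set α) := by rw [hD]; exact M.mem_fundCocircuit _ _
    exact_mod_cast this
  refine ⟨C, D, hCcirc, hDco, hCX, hDX, ?_⟩
  intro x hx y hy
  constructor
  · intro hb
    constructor
    · by_contra hxC
      apply circuit_not_subset hCcirc hb.indep
      intro z hz
      refine Finset.mem_insert_of_mem (Finset.mem_erase.2 ⟨?_, hCX hz⟩)
      rintro rfl
      exact hxC hz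
    · by_contra hyD
      apply cocircuit_not_disjoint hDco hb
      rw [Finset.disjoint_left]
      intro z hz hz2
      rw [Finset.mem_insert] at hz2
      rcases hz2 with rfl | hz2
      · exact hyD hz
      · exact Finset.disjoint_left.1 hDX hz (Finset.mem_of_mem_erase hz2)
  · rintro ⟨hxC, hyD⟩
    -- B₁ = X - x + y₀ is a base
    have e1 : (insert x₀ B : Finset α).erase x = insert y₀ (X.erase x) := by
      rw [hinsX, Finset.erase_insert_of_ne]
      rintro rfl
      exact hy₀ hx
    have hB1i : M.Indep ((insert y₀ (X.erase x) : Finset α) : Set α) := by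
      rw [← e1]; exact (hmemC x).1 hxC
    have hB1 : M.IsBase ((insert y₀ (X.erase x) : Finset α) : Set α) :=
      isBase_of_indep_card hB1i (by rw [card_swap hx hy₀, hXc])
    set B₁ : Finset α := insert y₀ (X.erase x) with hB₁
    -- D is the fundamental cocircuit of y₀ in B₁
    have hsub : (D : Set α) ⊆ insert y₀ (M✶.E \ (B₁ : Set α)) := by
      intro z hz
      by_cases hzy : z = y₀
      · exact Or.inl hzy
      · right
        refine ⟨by rw [dual_ground, hE]; trivial, fun hzB => ?_⟩
        have hzB' : z ∈ B₁ := by exact_mod_cast hzB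
        rw [hB₁, Finset.mem_insert] at hzB'
        rcases hzB' with h | h
        · exact hzy h
        · exact Finset.disjoint_left.1 hDX (by exact_mod_cast hz) (Finset.mem_of_mem_erase h)
    have hind : M✶.Indep (M✶.E \ (B₁ : Set α)) := hB1.compl_isBase_dual.indep
    have hDeq : (D : Set α) = M.fundCocircuit y₀ (B₁ : Set α) :=
      hDco.eq_fundCircuit_of_subset hind hsub
    have h3 : y ∈ M.fundCocircuit y₀ (B₁ : Set α) := by
      rw [← hDeq]; exact_mod_cast hyD
    rw [hB1.mem_fundCocircuit_iff_mem_fundCircuit] at h3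
    by_cases hyy : y = y₀
    · rw [hyy]; exact hB1
    have hyB1 : y ∉ B₁ := by
      simp only [hB₁, Finset.mem_insert, Finset.mem_erase, not_or, not_and]
      exact ⟨hyy, fun _ => hy⟩
    have hcl' : y ∈ M.closure (B₁ : Set α) := by
      rw [hB1.closure_eq, hE]; trivial
    rw [hB1.indep.mem_fundCircuit_iff hcl' (by exact_mod_cast hyB1)] at h3
    have e2 : (insert y (B₁ : Set α) \ {y₀}) = ((insert y (X.erase x) : Finset α) : Set α) := by
      ext z
      simp only [hB₁, Finset.coe_insert, Finset.coe_erase, Set.mem_sdiff, Set.mem_insert_iff,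
        Set.mem_singleton_iff, Finset.mem_coe]
      constructor
      · rintro ⟨h1 | h1 | h1, h2⟩
        · exact Or.inl h1
        · exact absurd h1 h2
        · exact Or.inr h1
      · rintro (h1 | h1)
        · exact ⟨Or.inl h1, by rw [h1]; exact hyy⟩
        · refine ⟨Or.inr (Or.inr h1), ?_⟩
          rintro rfl
          exact hy₀ h1.1
    rw [e2] at h3
    exact isBase_of_indep_card h3 (by rw [card_swap hx hy, hXc])

end Pool.Agent.Helper77
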