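import Pool.Agent.Helper77.Binom

/-!
For ranks near `n / 2`, few matroids have many non-bases.
-/

open Finset Matroid

namespace Pool.Agent.Helper77

set_option linter.unusedSectionVars false

open scoped Classical in
/-- loopless and coloopless matroids of rank `r` with many non-bases -/
noncomputable def badR (n r : ℕ) : Finset (Matroid (Fin n)) :=
  (matR n r).filter (fun M => (∀ e, ¬ M.IsLoop e) ∧ (∀ e, ¬ M.IsColoop e) ∧
    n.choose r < 10 * (NB M).card)

lemma mem_badR {n r : ℕ} {M : Matroid (Fin n)} : M ∈ badR n r ↔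
    (M.E = Set.univ ∧ rk M = r) ∧ (∀ e, ¬ M.IsLoop e) ∧ (∀ e, ¬ M.IsColoop e) ∧
    n.choose r < 10 * (NB M).card := by
  classical
  unfold badR
  rw [Finset.mem_filter, mem_matR]

/-- numerical facts for large `n` -/
structure Large (n : ℕ) (y : ℝ) : Prop where
  pos : 0 < y
  pow : y ^ 4 = n
  big : 1000000 * (Real.log n) ^ 2 ≤ y
  three : 3 ≤ n

lemma Large.log_ge {n : ℕ} {y : ℝ} (h : Large n y) : 1 ≤ Real.log n := by
  have hn0 : (0 : ℝ) < n := by exact_mod_cast (by have := h.three; omega : 0 < n)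
  rw [Real.le_log_iff_exp_le hn0]
  have : (3 : ℝ) ≤ n := by exact_mod_cast h.three
  linarith [Real.exp_one_lt_three]

lemma Large.log_le {n : ℕ} {y : ℝ} (h : Large n y) : 1000000 * Real.log n ≤ y := by
  have h1 := h.log_ge
  have h2 := h.big
  nlinarith

lemma Large.y_ge {n : ℕ} {y : ℝ} (h : Large n y) : 1000000 ≤ y := by
  have h1 := h.log_ge
  have h2 := h.log_le
  linarith

lemma exp_nat_mul_log {n : ℕ} (hn : 0 < n) (k : ℕ) : Real.exp (k * Real.log n) = (n : ℝ) ^ k := by
  have hn0 : (0 : ℝ) < n := by exact_mod_cast hn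
  rw [Real.exp_nat_mul, Real.exp_log hn0]

lemma Large.pow_le {n : ℕ} {y : ℝ} (h : Large n y) : 2 * (n : ℝ) ^ 6 ≤ 2 ^ n := by
  have hy := h.y_ge
  have hL := h.log_le
  have hL1 := h.log_ge
  have hn : 0 < n := by have := h.three; omega
  have hlog2 : (0.69 : ℝ) < Real.log 2 := by have := Real.log_two_gt_d9; linarith
  have hlog2' : Real.log 2 < 0.7 := by have := Real.log_two_lt_d9; linarith
  have hyn : y ≤ n := by
    rw [← h.pow]
    nlinarith [pow_pos h.pos 2, pow_pos h.pos 3, mul_pos h.pos h.pos]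
  have h1 : Real.log 2 + 6 * Real.log n ≤ n * Real.log 2 := by nlinarith
  calc 2 * (n : ℝ) ^ 6 = Real.exp (Real.log 2 + 6 * Real.log n) := by
        rw [Real.exp_add, Real.exp_log (by norm_num)]
        have := exp_nat_mul_log hn 6
        push_cast at this
        rw [this]
    _ ≤ Real.exp (n * Real.log 2) := Real.exp_le_exp.2 h1
    _ = 2 ^ n := by rw [Real.exp_nat_mul, Real.exp_log (by norm_num)]

/-- near ranks are close to `n / 2` -/
lemma near_close {n r : ℕ} {y : ℝ} (h : Large n y) (hr : r ≤ n)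
    (hnear : (2 : ℝ) ^ n ≤ 2 * n ^ 4 * (n.choose r)) : |(2 * r - n : ℝ)| ≤ y ^ 3 := by
  have hy := h.y_ge
  have hL := h.log_le
  have hL1 := h.log_ge
  have hn : 0 < n := by have := h.three; omega
  have hn0 : (0 : ℝ) < n := by exact_mod_cast hn
  have hlog2' : Real.log 2 < 0.7 := by have := Real.log_two_lt_d9; linarith
  have h1 := choose_le_exp (n := n) (r := r) (by omega) hr
  set a : ℝ := (2 * r - n : ℝ) ^ 2 / (2 * n) with ha
  have h2 : (2 : ℝ) ^ n ≤ 2 * n ^ 4 * (2 ^ n * Real.exp (-a)) := by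
    refine hnear.trans ?_
    gcongr
  have h3 : Real.exp a ≤ 2 * n ^ 4 := by
    have hp : (0 : ℝ) < 2 ^ n := by positivity
    have h4 : (2 : ℝ) ^ n * 1 ≤ 2 ^ n * (2 * n ^ 4 * Real.exp (-a)) := by
      rw [mul_one]; calc (2 : ℝ) ^ n ≤ _ := h2
        _ = _ := by ring
    have h5 := le_of_mul_le_mul_left h4 hp
    rw [Real.exp_neg, ← div_eq_mul_inv, le_div_iff₀ (Real.exp_pos _), one_mul] at h5
    exact h5
  have h4 : a ≤ Real.log 2 + 4 * Real.log n := by
    have := (Real.le_log_iff_exp_le (by positivity : (0 : ℝ) < 2 * n ^ 4)).2 h3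
    rwa [Real.log_mul (by norm_num) (by positivity), Real.log_pow] at this
  have h5 : (2 * r - n : ℝ) ^ 2 ≤ (y ^ 3) ^ 2 := by
    have h6 : (2 * r - n : ℝ) ^ 2 = a * (2 * n) := by
      rw [ha]; field_simp
    rw [h6]
    have h7 : a ≤ 5 * Real.log n := by linarith
    have h8 : 10 * Real.log n ≤ y ^ 2 := by nlinarith
    calc a * (2 * n) ≤ 5 * Real.log n * (2 * n) := by gcongr
      _ = (10 * Real.log n) * y ^ 4 := by rw [h.pow]; ring
      _ ≤ y ^ 2 * y ^ 4 := by gcongr
      _ = _ := by ring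
  exact abs_le_of_sq_le_sq h5 (by positivity)

lemma cmp_aux {u L y g b : ℝ} (hu : 1 ≤ u) (hL1 : 1 ≤ L) (hL2 : 1000000 * L ^ 2 ≤ y)
    (hg : u * y / 40 - 1 ≤ g) (hb : 0.69 < b) : L + 504 * (u * L) * L ≤ g * b := by
  have hu0 : 0 < u := by linarith
  have h1 : L ≤ L ^ 2 := by nlinarith
  have h2 : L ^ 2 ≤ u * L ^ 2 := le_mul_of_one_le_left (by positivity) hu
  have h3 : u * (1000000 * L ^ 2) ≤ u * y := by gcongr
  set w := u * L ^ 2 with hw
  have h4 : u * (1000000 * L ^ 2) = 1000000 * w := by rw [hw]; ring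
  have h5 : 20000 * w ≤ g := by linarith
  have h6 : 504 * (u * L) * L = 504 * w := by rw [hw]; ring
  rw [h6]
  have hw0 : 0 ≤ w := by linarith
  have hg0 : 0 ≤ g := by linarith
  calc L + 504 * w ≤ 20000 * w * 0.69 := by linarith
    _ ≤ g * b := by gcongr

theorem near_bound {n r : ℕ} {y : ℝ} (h : Large n y) (hr : r ≤ n)
    (hnear : (2 : ℝ) ^ n ≤ 2 * n ^ 4 * (n.choose r)) :
    n * (badR n r).card ≤ (stab n r).card := by
  classical
  have hy := h.y_ge
  have hy0 := h.pos
  have hL := h.log_le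
  have hL2 := h.big
  have hL1 := h.log_ge
  have hn : 0 < n := by have := h.three; omega
  have hn0 : (0 : ℝ) < n := by exact_mod_cast hn
  have hyn := h.pow
  have hlog2 : (0.69 : ℝ) < Real.log 2 := by have := Real.log_two_gt_d9; linarith
  have hlog2' : Real.log 2 < 0.7 := by have := Real.log_two_lt_d9; linarith
  have hclose := near_close h hr hnear
  rw [abs_le] at hclose
  have hpow6 := h.pow_le
  set L := Real.log n with hLdef
  set N := n.choose r with hNdef
  -- N is large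
  have hNn : (n : ℝ) ^ 2 ≤ N := by
    have h1 : 2 * (n : ℝ) ^ 4 * n ^ 2 ≤ 2 * n ^ 4 * N := by
      calc 2 * (n : ℝ) ^ 4 * n ^ 2 = 2 * n ^ 6 := by ring
        _ ≤ 2 ^ n := hpow6
        _ ≤ _ := hnear
    exact le_of_mul_le_mul_left h1 (by positivity)
  have hyle : y ≤ n := by
    rw [← hyn]
    calc y = y ^ 1 := (pow_one y).symm
      _ ≤ y ^ 4 := pow_le_pow_right₀ (by linarith) (by norm_num)
  have hnge : (1000000 : ℝ) ≤ n := hy.trans hyle
  have hN0 : (0 : ℝ) < N := lt_of_lt_of_le (by positivity) hNn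
  have hnN : n ≤ N := by
    have : (n : ℝ) ≤ N := by nlinarith only [hNn, hnge]
    exact_mod_cast this
  -- t
  set t : ℕ := ⌈y ^ 3⌉₊ with ht
  have ht1 : y ^ 3 ≤ t := Nat.le_ceil _
  have ht2 : (t : ℝ) < y ^ 3 + 1 := Nat.ceil_lt_add_one (by positivity)
  have hy3 : (1 : ℝ) ≤ y ^ 3 := one_le_pow₀ (by linarith)
  have h8t : 8 * t < n := by
    have : (8 : ℝ) * t < n := by
      rw [← hyn]
      have : y ^ 4 = y * y ^ 3 := by ring
      nlinarith only [this, ht2, hy3, hy]
    exact_mod_cast this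
  have hr1 : 2 * r ≤ n + t := by
    have : (2 : ℝ) * r ≤ n + t := by linarith [hclose.2]
    exact_mod_cast this
  have hr2 : n ≤ 2 * r + t := by
    have : (n : ℝ) ≤ 2 * r + t := by linarith [hclose.1]
    exact_mod_cast this
  set c₀ := r - t with hc₀
  set d₀ := n - r - t with hd₀
  set Δ := n / 4 with hΔ
  have hc : Δ < c₀ := by omega
  have hd : Δ < d₀ := by omega
  -- tails
  have htail : (2 : ℝ) ^ n * Real.exp (-(y ^ 2 / 2)) ≤ N * L / n ^ 2 := by
    have h1 : Real.exp (-(y ^ 2 / 2)) * (2 * n ^ 6) ≤ 1 := by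
      have h2 : 2 * (n : ℝ) ^ 6 = Real.exp (Real.log 2 + 6 * L) := by
        rw [Real.exp_add, Real.exp_log (by norm_num)]
        have := exp_nat_mul_log hn 6
        push_cast at this
        rw [this]
      rw [h2, ← Real.exp_add, Real.exp_le_one_iff]
      nlinarith only [hlog2', hL, hL1, hy]
    rw [le_div_iff₀ (by positivity)]
    calc (2 : ℝ) ^ n * Real.exp (-(y ^ 2 / 2)) * n ^ 2
        ≤ (2 * n ^ 4 * N) * Real.exp (-(y ^ 2 / 2)) * n ^ 2 := by gcongr
      _ = N * (Real.exp (-(y ^ 2 / 2)) * (2 * n ^ 6)) := by ring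
      _ ≤ N * 1 := by gcongr
      _ ≤ N * L := by gcongr
  have hlow : ∀ k : ℕ, 2 * k ≤ n → y ^ 3 ≤ (n : ℝ) - 2 * k → (lowCount n k : ℝ) ≤ N * L / n ^ 2 := by
    intro k hk hk'
    refine (lowCount_le_exp (by omega) hk).trans (le_trans ?_ htail)
    have h1 : y ^ 2 / 2 ≤ (n - 2 * k : ℝ) ^ 2 / (2 * n) := by
      rw [le_div_iff₀ (by positivity)]
      calc y ^ 2 / 2 * (2 * n) = (y ^ 3) ^ 2 := by rw [← hyn]; ring
        _ ≤ _ := by gcongr
    gcongr
  have hlow1 : (lowCount n c₀ : ℝ) ≤ N * L / n ^ 2 := by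
    refine hlow c₀ (by omega) ?_
    have : (c₀ : ℝ) = r - t := by rw [hc₀, Nat.cast_sub (by omega)]
    rw [this]; linarith [hclose.2]
  have hlow2 : (lowCount n d₀ : ℝ) ≤ N * L / n ^ 2 := by
    refine hlow d₀ (by omega) ?_
    have : (d₀ : ℝ) = n - r - t := by
      rw [hd₀, Nat.cast_sub (by omega), Nat.cast_sub (by omega)]
    rw [this]; linarith [hclose.1]
  have hst : steps n r Δ N ≤ 40 * N * L / n ^ 2 :=
    steps_le h.three (by omega) (by omega) (by omega) hnN
  -- K
  set K : ℕ := ⌈41 * N * L / n ^ 2⌉₊ with hK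
  have hK1 : 41 * N * L / n ^ 2 ≤ (K : ℝ) := Nat.le_ceil _
  have hNLn : 1 ≤ N * L / n ^ 2 := by
    rw [le_div_iff₀ (by positivity)]
    nlinarith only [hNn, hL1, hN0]
  have hK2 : (K : ℝ) ≤ 42 * (N * L / n ^ 2) := by
    have h1 : (K : ℝ) < 41 * N * L / n ^ 2 + 1 := Nat.ceil_lt_add_one (by positivity)
    have h2 : 41 * N * L / (n : ℝ) ^ 2 = 41 * (N * L / n ^ 2) := by ring
    linarith
  have hK0 : (0 : ℝ) < K := by
    refine lt_of_lt_of_le ?_ hK1
    positivity
  have hKpos : 1 ≤ K := by exact_mod_cast hK0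
  have hNle : N ≤ 2 ^ n := Nat.choose_le_two_pow _ _
  have hLn : 42 * L ≤ n ^ 2 := by
    nlinarith only [hyle, hL, hL1, hnge]
  have hKle : K ≤ 2 ^ n := by
    have h1 : (K : ℝ) ≤ N := by
      refine hK2.trans ?_
      rw [mul_div_assoc', div_le_iff₀ (by positivity)]
      nlinarith only [hLn, hN0]
    have h2 : K ≤ N := by exact_mod_cast h1
    exact h2.trans hNle
  -- number of codes
  have hcodes : ((codes n K).card : ℝ) ≤ Real.exp (504 * (N * L / n ^ 2) * L) := by
    have h1 : Real.exp 1 * 2 ^ n / K ≤ n ^ 6 := by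
      rw [div_le_iff₀ hK0]
      have h2 : Real.exp 1 * 2 ^ n ≤ 3 * (2 * n ^ 4 * N) := by
        gcongr
        exact Real.exp_one_lt_three.le
      refine h2.trans ?_
      have h3 : (n : ℝ) ^ 6 * (41 * N * L / n ^ 2) ≤ n ^ 6 * K := by gcongr
      refine le_trans ?_ h3
      have h4 : (n : ℝ) ^ 6 * (41 * N * L / n ^ 2) = 41 * n ^ 4 * N * L := by field_simp
      rw [h4]
      have h5 : (0 : ℝ) < n ^ 4 * N := by positivity
      nlinarith only [h5, hL1]
    calc ((codes n K).card : ℝ) ≤ (Real.exp 1 * 2 ^ n / K) ^ (2 * K) := card_codes_le n K hKpos hKle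
      _ ≤ ((n : ℝ) ^ 6) ^ (2 * K) := by gcongr
      _ = Real.exp (((12 * K : ℕ) : ℝ) * L) := by
          rw [hLdef, exp_nat_mul_log hn, ← pow_mul]; congr 1; ring
      _ ≤ Real.exp (504 * (N * L / n ^ 2) * L) := by
          apply Real.exp_le_exp.2
          push_cast
          have : 12 * (K : ℝ) ≤ 504 * (N * L / n ^ 2) := by linarith
          gcongr
  -- g
  set g : ℕ := N / (20 * n * (t + 1)) with hg
  have hg1 : 20 * (g * n * (t + 1)) ≤ N := by
    calc 20 * (g * n * (t + 1)) = N / (20 * n * (t + 1)) * (20 * n * (t + 1)) := by rw [hg]; ring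
      _ ≤ N := Nat.div_mul_le_self _ _
  have hg2 : (N : ℝ) * y / (40 * n ^ 2) - 1 ≤ g := by
    have h1 : (N : ℝ) / ((20 * n * (t + 1) : ℕ) : ℝ) - 1 ≤ g := by
      have := Nat.lt_div_mul_add (a := N) (b := 20 * n * (t + 1)) (by positivity)
      rw [← hg] at this
      have h2 : (N : ℝ) < g * ((20 * n * (t + 1) : ℕ) : ℝ) + ((20 * n * (t + 1) : ℕ) : ℝ) := by
        exact_mod_cast this
      have h3 : (0 : ℝ) < ((20 * n * (t + 1) : ℕ) : ℝ) := by positivity
      rw [sub_le_iff_le_add, div_le_iff₀ h3]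
      linarith
    refine le_trans ?_ h1
    have h2 : (N : ℝ) * y / (40 * n ^ 2) ≤ N / ((20 * n * (t + 1) : ℕ) : ℝ) := by
      have h3 : (N : ℝ) * y / (40 * n ^ 2) = N / (40 * n * y ^ 3) := by
        rw [div_eq_div_iff (by positivity) (by positivity)]
        have : (n : ℝ) ^ 2 = n * y ^ 4 := by rw [hyn]; ring
        rw [this]; ring
      rw [h3]
      push_cast
      have h4 : (20 * n * (t + 1) : ℝ) ≤ 40 * n * y ^ 3 := by
        have hy3' : y ≤ y ^ 3 := by
          calc y = y ^ 1 := (pow_one y).symm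
            _ ≤ y ^ 3 := pow_le_pow_right₀ (by linarith) (by norm_num)
        have : (t + 1 : ℝ) ≤ 2 * y ^ 3 := by linarith
        nlinarith only [this, hn0]
      gcongr
    linarith
  -- the covering condition
  have hF : ∀ M ∈ badR n r, M.E = Set.univ ∧ rk M = r ∧ (∀ e, ¬ M.IsLoop e) ∧
      (∀ e, ¬ M.IsColoop e) ∧ ∃ z ∈ codes n K, CodeFor M c₀ d₀ Δ z ∧
        g * n * (t + 1) ≤ (CovV M z).card := by
    intro M hM
    rw [mem_badR] at hM
    obtain ⟨⟨hE, hrk⟩, hl, hcl, hNB⟩ := hM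
    obtain ⟨z, hz, hz1, hz2⟩ := exists_codeFor hE (by omega) c₀ d₀ Δ hd
    rw [hrk, ← hNdef] at hz1 hz2
    have hsum : N * L / n ^ 2 + 40 * N * L / n ^ 2 = 41 * N * L / n ^ 2 := by ring
    refine ⟨hE, hrk, hl, hcl, z, ?_, hz, ?_⟩
    · rw [mem_codes]
      constructor
      · have : (z.1.card : ℝ) ≤ K := by linarith
        exact_mod_cast this
      · have : (z.2.card : ℝ) ≤ K := by linarith
        exact_mod_cast this
    · have hKu := hz.card_Kunc_le (by omega) (by omega)
      rw [hrk, ← hNdef] at hKu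
      have hKu2 : 20 * (Kunc M z).card ≤ N := by
        have h1 : (16 : ℝ) * n ^ 2 * (Kunc M z).card ≤ 100 * (N * n) := by
          have h2 : ((r * (n - r + 1) * (Kunc M z).card : ℕ) : ℝ) ≤ ((N * (Δ + r) : ℕ) : ℝ) := by
            exact_mod_cast hKu
          have h3 : (4 * n : ℝ) ≤ 10 * r := by exact_mod_cast (by omega : 4 * n ≤ 10 * r)
          have h4 : (4 * n : ℝ) ≤ 10 * ((n - r + 1 : ℕ) : ℝ) := by
            exact_mod_cast (by omega : 4 * n ≤ 10 * (n - r + 1))
          have h5 : ((Δ + r : ℕ) : ℝ) ≤ n := by exact_mod_cast (by omega : Δ + r ≤ n)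
          have h6 : (16 : ℝ) * n ^ 2 ≤ 100 * (r * ((n - r + 1 : ℕ) : ℝ)) := by
            nlinarith only [h3, h4, hn0]
          calc (16 : ℝ) * n ^ 2 * (Kunc M z).card
              ≤ 100 * (r * ((n - r + 1 : ℕ) : ℝ)) * (Kunc M z).card := by gcongr
            _ = 100 * ((r * (n - r + 1) * (Kunc M z).card : ℕ) : ℝ) := by push_cast; ring
            _ ≤ 100 * ((N * (Δ + r) : ℕ) : ℝ) := by linarith
            _ = 100 * (N * ((Δ + r : ℕ) : ℝ)) := by push_cast; ring
            _ ≤ 100 * (N * n) := by gcongr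
        have h2 : (20 : ℝ) * (Kunc M z).card ≤ N := by
          have h3 : (16 : ℝ) * n * (Kunc M z).card ≤ 100 * N := by
            have h4 : (n : ℝ) * (16 * n * (Kunc M z).card) ≤ n * (100 * N) := by
              calc (n : ℝ) * (16 * n * (Kunc M z).card) = 16 * n ^ 2 * (Kunc M z).card := by ring
                _ ≤ _ := h1
                _ = _ := by ring
            exact le_of_mul_le_mul_left h4 hn0
          have h5 : (0 : ℝ) ≤ (Kunc M z).card := by positivity
          nlinarith only [h3, h5, hnge]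
        exact_mod_cast h2
      have hsplit := card_NB_eq (M := M) z
      omega
  have hmain := card_le_of_codes (n := n) (r := r) (by omega) hc hd (t := t) (g := g)
    (by omega) (by omega) (codes n K) (badR n r) hF
  -- compare
  have hcmp : (n : ℝ) * (codes n K).card ≤ 2 ^ g := by
    have h1 : (2 : ℝ) ^ g = Real.exp (g * Real.log 2) := by
      rw [Real.exp_nat_mul, Real.exp_log (by norm_num)]
    rw [h1]
    calc (n : ℝ) * (codes n K).card
        ≤ Real.exp L * Real.exp (504 * (N * L / n ^ 2) * L) := by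
          rw [hLdef, Real.exp_log hn0, ← hLdef]
          gcongr
      _ = Real.exp (L + 504 * (N * L / n ^ 2) * L) := by rw [Real.exp_add]
      _ ≤ Real.exp (g * Real.log 2) := by
          apply Real.exp_le_exp.2
          have h2 : (N : ℝ) * y / (40 * n ^ 2) = (N / n ^ 2) * y / 40 := by field_simp
          have h3 : (N : ℝ) * L / n ^ 2 = (N / n ^ 2) * L := by field_simp
          rw [h2] at hg2
          rw [h3]
          have h4 : (1 : ℝ) ≤ N / n ^ 2 := by
            rw [le_div_iff₀ (by positivity)]; linarith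
          exact cmp_aux h4 hL1 hL2 hg2 hlog2
  have hcpos : 0 < (codes n K).card := by
    apply Finset.card_pos.2
    exact ⟨(∅, ∅), mem_codes.2 ⟨by simp, by simp⟩⟩
  have hcmp' : n * (codes n K).card ≤ 2 ^ g := by exact_mod_cast hcmp
  have hfin : (n * (badR n r).card) * (codes n K).card ≤ (stab n r).card * (codes n K).card := by
    calc (n * (badR n r).card) * (codes n K).card
        = (badR n r).card * (n * (codes n K).card) := by ring
      _ ≤ (badR n r).card * 2 ^ g := Nat.mul_le_mul_left _ hcmp'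
      _ ≤ (codes n K).card * (stab n r).card := hmain
      _ = _ := by ring
  exact Nat.le_of_mul_le_mul_right hfin hcpos

end Pool.Agent.Helper77
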