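import Pool.Agent.Helper77.Fiber

/-!
Sparse paving matroids from stable families.
-/

open Finset Matroid

namespace Pool.Agent.Helper77

set_option linter.unusedSectionVars false

/-- the base predicate of the sparse paving matroid of a stable family -/
def spBase {n : ℕ} (r : ℕ) (Q : Finset (Finset (Fin n))) (B : Set (Fin n)) : Prop :=
  ∃ X : Finset (Fin n), (X : Set (Fin n)) = B ∧ X.card = r ∧ X ∉ Q

lemma exists_spBase {n r : ℕ} (hr : 1 ≤ r) (hrn : r < n) {Q : Finset (Finset (Fin n))}
    (hQ : JStable Q) : ∃ B, spBase r Q B := by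
  classical
  obtain ⟨X, _, hX⟩ := Finset.exists_subset_card_eq
    (s := (Finset.univ : Finset (Fin n))) (n := r) (by rw [Finset.card_univ, Fintype.card_fin]; omega)
  by_cases hXQ : X ∈ Q
  · obtain ⟨x, hx⟩ : X.Nonempty := by rw [← Finset.card_pos]; omega
    obtain ⟨y, hy⟩ : ∃ y, y ∉ X := by
      by_contra hcon
      push Not at hcon
      have : X = Finset.univ := Finset.eq_univ_of_forall hcon
      rw [this, Finset.card_univ, Fintype.card_fin] at hX
      omega
    refine ⟨_, insert y (X.erase x), rfl, by rw [card_swap hx hy, hX], fun h => ?_⟩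
    exact hQ X hXQ _ h (jadj_swap hx hy)
  · exact ⟨_, X, rfl, hX, hXQ⟩

lemma spBase_exchange {n r : ℕ} {Q : Finset (Finset (Fin n))} (hQ : JStable Q) :
    Matroid.ExchangeProperty (spBase r Q) := by
  classical
  rintro _ _ ⟨X, rfl, hX, hXQ⟩ ⟨Y, rfl, hY, hYQ⟩ x ⟨hxX, hxY⟩
  rw [Finset.mem_coe] at hxX hxY
  have hins : ∀ y : Fin n, (insert y ((X : Set (Fin n)) \ {x}))
      = ((insert y (X.erase x) : Finset (Fin n)) : Set (Fin n)) := by
    intro y
    simp
  have hYX : (Y \ X).card = (X \ Y).card := by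
    have h1 := Finset.card_sdiff_add_card_inter Y X
    have h2 := Finset.card_sdiff_add_card_inter X Y
    rw [Finset.inter_comm X Y] at h2
    omega
  have hpos : 0 < (X \ Y).card := Finset.card_pos.2 ⟨x, Finset.mem_sdiff.2 ⟨hxX, hxY⟩⟩
  by_cases h1 : (Y \ X).card = 1
  · obtain ⟨y, hy⟩ := Finset.card_eq_one.1 h1
    have hyY : y ∈ Y \ X := by rw [hy]; simp
    rw [Finset.mem_sdiff] at hyY
    refine ⟨y, ⟨by exact_mod_cast hyY.1, by exact_mod_cast hyY.2⟩, ?_⟩
    rw [hins]
    have hXY : X \ Y = {x} := by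
      rw [hYX] at h1
      obtain ⟨x', hx'⟩ := Finset.card_eq_one.1 h1
      have : x ∈ X \ Y := Finset.mem_sdiff.2 ⟨hxX, hxY⟩
      rw [hx', Finset.mem_singleton] at this
      rw [hx', this]
    have : insert y (X.erase x) = Y := by
      apply Finset.eq_of_subset_of_card_le
      · intro v hv
        rw [Finset.mem_insert, Finset.mem_erase] at hv
        rcases hv with rfl | ⟨h, h'⟩
        · exact hyY.1
        · by_contra hvY
          have : v ∈ X \ Y := Finset.mem_sdiff.2 ⟨h', hvY⟩
          rw [hXY, Finset.mem_singleton] at this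
          exact h this
      · rw [card_swap hxX hyY.2]; omega
    rw [this]
    exact ⟨Y, rfl, hY, hYQ⟩
  · obtain ⟨y₁, hy₁, y₂, hy₂, hne⟩ := Finset.one_lt_card.1 (by omega : 1 < (Y \ X).card)
    rw [Finset.mem_sdiff] at hy₁ hy₂
    by_cases hQ1 : insert y₁ (X.erase x) ∈ Q
    · refine ⟨y₂, ⟨by exact_mod_cast hy₂.1, by exact_mod_cast hy₂.2⟩, ?_⟩
      rw [hins]
      refine ⟨_, rfl, by rw [card_swap hxX hy₂.2, hX], fun hQ2 => ?_⟩
      apply hQ _ hQ1 _ hQ2
      have h3 : y₂ ∉ insert y₁ (X.erase x) := by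
        rw [Finset.mem_insert, Finset.mem_erase]
        exact not_or.2 ⟨hne.symm, fun h => hy₂.2 h.2⟩
      have h4 := jadj_swap (Finset.mem_insert_self y₁ (X.erase x)) h3
      rwa [Finset.erase_insert (fun h => hy₁.2 (Finset.mem_of_mem_erase h))] at h4
    · refine ⟨y₁, ⟨by exact_mod_cast hy₁.1, by exact_mod_cast hy₁.2⟩, ?_⟩
      rw [hins]
      exact ⟨_, rfl, by rw [card_swap hxX hy₁.2, hX], hQ1⟩

/-- the sparse paving matroid of a stable family -/
noncomputable def spMatroid {n r : ℕ} (hr : 1 ≤ r) (hrn : r < n) {Q : Finset (Finset (Fin n))}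
    (hQ : JStable Q) : Matroid (Fin n) :=
  Matroid.ofIsBaseOfFinite (E := Set.univ) Set.finite_univ (spBase r Q)
    (exists_spBase hr hrn hQ) (spBase_exchange hQ) (fun _ _ => Set.subset_univ _)

lemma spMatroid_E {n r : ℕ} (hr : 1 ≤ r) (hrn : r < n) {Q : Finset (Finset (Fin n))}
    (hQ : JStable Q) : (spMatroid hr hrn hQ).E = Set.univ := rfl

lemma spMatroid_isBase {n r : ℕ} (hr : 1 ≤ r) (hrn : r < n) {Q : Finset (Finset (Fin n))}
    (hQ : JStable Q) (X : Finset (Fin n)) :
    (spMatroid hr hrn hQ).IsBase (X : Set (Fin n)) ↔ X.card = r ∧ X ∉ Q := by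
  unfold spMatroid
  rw [Matroid.ofIsBaseOfFinite_isBase]
  constructor
  · rintro ⟨Y, hY, h1, h2⟩
    have : Y = X := by exact_mod_cast hY
    subst this
    exact ⟨h1, h2⟩
  · rintro ⟨h1, h2⟩
    exact ⟨X, rfl, h1, h2⟩

lemma spMatroid_rk {n r : ℕ} (hr : 1 ≤ r) (hrn : r < n) {Q : Finset (Finset (Fin n))}
    (hQ : JStable Q) : rk (spMatroid hr hrn hQ) = r := by
  obtain ⟨_, X, _, hX, hXQ⟩ := exists_spBase hr hrn hQ
  have h1 := (spMatroid_isBase hr hrn hQ X).2 ⟨hX, hXQ⟩
  rw [← isBase_card h1, hX]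

instance finite_matroid (n : ℕ) : Finite (Matroid (Fin n)) := by
  have h : {M : Matroid (Fin n) | M.E ⊆ Set.univ}.Finite :=
    Matroid.finite_setOfPred_matroid Set.finite_univ
  have h2 : {M : Matroid (Fin n) | M.E ⊆ Set.univ} = Set.univ := by
    ext M; simp
  rw [h2] at h
  exact Set.finite_univ_iff.1 h

noncomputable instance fintype_matroid (n : ℕ) : Fintype (Matroid (Fin n)) :=
  Fintype.ofFinite _

open scoped Classical in
/-- matroids of rank `r` with ground set `Fin n` -/
noncomputable def matR (n r : ℕ) : Finset (Matroid (Fin n)) :=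
  Finset.univ.filter (fun M => M.E = Set.univ ∧ rk M = r)

open scoped Classical in
/-- matroids with ground set `Fin n` -/
noncomputable def mat (n : ℕ) : Finset (Matroid (Fin n)) :=
  Finset.univ.filter (fun M => M.E = Set.univ)

lemma mem_matR {n r : ℕ} {M : Matroid (Fin n)} : M ∈ matR n r ↔ M.E = Set.univ ∧ rk M = r := by
  classical
  simp [matR]

lemma mem_mat {n : ℕ} {M : Matroid (Fin n)} : M ∈ mat n ↔ M.E = Set.univ := by
  classical
  simp [mat]

theorem stab_card_le {n r : ℕ} (hr : 1 ≤ r) (hrn : r < n) :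
    (stab n r).card ≤ (matR n r).card := by
  classical
  refine Finset.card_le_card_of_injOn
    (fun Q => if h : JStable Q then spMatroid hr hrn h else emptyOn (Fin n)) ?_ ?_
  · intro Q hQ
    rw [Finset.mem_coe, mem_stab] at hQ
    rw [Finset.mem_coe, mem_matR]
    simp only [hQ.2, dif_pos]
    exact ⟨spMatroid_E hr hrn hQ.2, spMatroid_rk hr hrn hQ.2⟩
  · intro Q hQ Q' hQ' heq
    rw [Finset.mem_coe, mem_stab] at hQ hQ'
    simp only [hQ.2, hQ'.2, dif_pos] at heq
    have key : ∀ X : Finset (Fin n), X.card = r → (X ∈ Q ↔ X ∈ Q') := by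
      intro X hX
      have h1 := spMatroid_isBase hr hrn hQ.2 X
      have h2 := spMatroid_isBase hr hrn hQ'.2 X
      rw [heq, h2] at h1
      simp only [hX, true_and] at h1
      exact (not_iff_not.1 h1).symm
    ext X
    constructor
    · intro h
      exact (key X (Finset.mem_powersetCard.1 (hQ.1 h)).2).1 h
    · intro h
      exact (key X (Finset.mem_powersetCard.1 (hQ'.1 h)).2).2 h

/-- lower bound for the number of stable families -/
theorem stab_card_ge {n : ℕ} (hn : 1 ≤ n) (r s : ℕ) (hs : n * s ≤ n.choose r) :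
    2 ^ s ≤ (stab n r).card := by
  classical
  obtain ⟨S, hS, hst, hcard⟩ := exists_stable_subset hn (Finset.powersetCard r Finset.univ)
  rw [Finset.card_powersetCard, Finset.card_univ, Fintype.card_fin] at hcard
  have h1 : s ≤ S.card := Nat.le_of_mul_le_mul_left (hs.trans hcard) (by omega)
  calc 2 ^ s ≤ 2 ^ S.card := Nat.pow_le_pow_right (by norm_num) h1
    _ = S.powerset.card := (Finset.card_powerset S).symm
    _ ≤ (stab n r).card := by
        refine Finset.card_le_card fun Q hQ => ?_
        rw [Finset.mem_powerset] at hQ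
        exact mem_stab.2 ⟨hQ.trans hS, fun X hX Y hY => hst X (hQ hX) Y (hQ hY)⟩

/-- trivial upper bound for the number of matroids of rank `r` -/
theorem matR_card_le (n r : ℕ) : (matR n r).card ≤ 2 ^ (n.choose r) := by
  classical
  have : (matR n r).card ≤ (Finset.powersetCard r (Finset.univ : Finset (Fin n))).powerset.card := by
    refine Finset.card_le_card_of_injOn (fun M => NB M) ?_ ?_
    · intro M hM
      rw [Finset.mem_coe, mem_matR] at hM
      rw [Finset.mem_coe, Finset.mem_powerset]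
      intro X hX
      rw [mem_NB] at hX
      rw [Finset.mem_powersetCard]
      exact ⟨Finset.subset_univ _, hX.1.trans hM.2⟩
    · intro M hM M' hM' heq
      rw [Finset.mem_coe, mem_matR] at hM hM'
      exact matroid_eq_of_NB hM.1 hM'.1 (hM.2.trans hM'.2.symm) heq
  rwa [Finset.card_powerset, Finset.card_powersetCard, Finset.card_univ, Fintype.card_fin] at this

lemma rk_le {n : ℕ} (M : Matroid (Fin n)) : rk M ≤ n := by
  obtain ⟨B, hB⟩ := M.exists_isBase
  obtain ⟨B, rfl⟩ := exists_coe_finset B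
  rw [← isBase_card hB]
  have := Finset.card_le_univ B
  rwa [Fintype.card_fin] at this

theorem mat_eq_sum (n : ℕ) : (mat n).card = ∑ r ∈ Finset.range (n + 1), (matR n r).card := by
  classical
  rw [Finset.card_eq_sum_card_fiberwise (f := rk) (t := Finset.range (n + 1))]
  · refine Finset.sum_congr rfl fun r _ => ?_
    congr 1
    ext M
    rw [Finset.mem_filter, mem_mat, mem_matR]
  · intro M _
    rw [Finset.mem_coe, Finset.mem_range]
    have := rk_le M
    omega

end Pool.Agent.Helper77
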