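import Pool.Agent.Helper77.Cover

/-!
Uncovered non-bases: under the stopping condition all of them have a base neighbour.
-/

open Finset Matroid

namespace Pool.Agent.Helper77

set_option linter.unusedSectionVars false

variable {α : Type*} [DecidableEq α] [Fintype α] {M : Matroid α}

open scoped Classical in
/-- the non-bases of size `rk M` -/
noncomputable def NB (M : Matroid α) : Finset (Finset α) :=
  (Finset.powersetCard (rk M) Finset.univ).filter (fun X => ¬ M.IsBase (X : Set α))

lemma mem_NB {X : Finset α} : X ∈ NB M ↔ X.card = rk M ∧ ¬ M.IsBase (X : Set α) := by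
  classical
  simp [NB, Finset.mem_powersetCard]

open scoped Classical in
/-- uncovered non-bases -/
noncomputable def Kunc (M : Matroid α) (z : Finset (Finset α) × Finset (Finset α)) :
    Finset (Finset α) := (NB M).filter (fun X => ¬ Cov z X)

lemma mem_Kunc {z : Finset (Finset α) × Finset (Finset α)} {X : Finset α} :
    X ∈ Kunc M z ↔ X.card = rk M ∧ ¬ M.IsBase (X : Set α) ∧ ¬ Cov z X := by
  classical
  simp [Kunc, mem_NB, and_assoc]

open scoped Classical in
/-- uncovered non-bases with a base neighbour -/
noncomputable def K1 (M : Matroid α) (z : Finset (Finset α) × Finset (Finset α)) :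
    Finset (Finset α) :=
  (Kunc M z).filter (fun X => ∃ Y : Finset α, JAdj X Y ∧ M.IsBase (Y : Set α))

lemma mem_K1 {z : Finset (Finset α) × Finset (Finset α)} {X : Finset α} :
    X ∈ K1 M z ↔ X ∈ Kunc M z ∧ ∃ Y : Finset α, JAdj X Y ∧ M.IsBase (Y : Set α) := by
  classical
  simp [K1]

lemma K1_subset (M : Matroid α) (z : Finset (Finset α) × Finset (Finset α)) :
    K1 M z ⊆ Kunc M z := fun _ hX => (mem_K1.1 hX).1

/-- a cocircuit disjoint from a basis of `X` is disjoint from `X` -/
lemma disjoint_of_isBasis {I X D : Finset α} (hI : M.IsBasis (I : Set α) (X : Set α))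
    (hD : M.IsCocircuit (D : Set α)) (hDI : Disjoint D I) : Disjoint D X := by
  rw [Finset.disjoint_left]
  intro w hw hwX
  by_cases hwI : w ∈ I
  · exact Finset.disjoint_left.1 hDI hw hwI
  have hdep : M.Dep (insert w (I : Set α)) :=
    hI.insert_dep ⟨by exact_mod_cast hwX, fun h => hwI (by exact_mod_cast h)⟩
  obtain ⟨C, hCsub, hC⟩ := hdep.exists_isCircuit_subset
  obtain ⟨C, rfl⟩ := exists_coe_finset C
  apply circ_cocirc hC hD w
  ext v
  simp only [Finset.mem_inter, Finset.mem_singleton]
  have hmem : ∀ v ∈ C, v = w ∨ v ∈ I := by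
    intro v hv
    have := hCsub (by exact_mod_cast hv : v ∈ (C : Set α))
    rcases this with h | h
    · exact Or.inl h
    · exact Or.inr (by exact_mod_cast h)
  constructor
  · rintro ⟨h1, h2⟩
    rcases hmem v h1 with h | h
    · exact h
    · exact absurd h (Finset.disjoint_left.1 hDI h2)
  · rintro rfl
    refine ⟨?_, hw⟩
    by_contra hvC
    have : (C : Set α) ⊆ I := by
      intro u hu
      rcases hmem u (by exact_mod_cast hu) with h | h
      · exact absurd (by rw [← h]; exact_mod_cast hu) hvC
      · exact_mod_cast h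
    exact hC.not_indep (hI.indep.subset this)

theorem exists_base_neighbour (hE : M.E = Set.univ)
    {z : Finset (Finset α) × Finset (Finset α)} (hz : Valid M z) {d₀ Δ : ℕ}
    (hg : ∀ D : Finset α, M.IsCocircuit (D : Set α) → D.card ≤ d₀ → D ∈ z.2)
    (hstop : ∀ X ∈ K1 M z, jdeg (K1 M z) X ≤ Δ) (hΔ : Δ < d₀)
    {X : Finset α} (hX : X ∈ Kunc M z) : ∃ Y : Finset α, JAdj X Y ∧ M.IsBase (Y : Set α) := by
  classical
  by_contra hcon
  push Not at hcon
  rw [mem_Kunc] at hX
  obtain ⟨hXc, hXnb, hXu⟩ := hX
  obtain ⟨I', hI'⟩ := M.exists_isBasis (X : Set α) (by rw [hE]; exact Set.subset_univ _)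
  obtain ⟨I, rfl⟩ := exists_coe_finset I'
  obtain ⟨B', hB, hIB⟩ := hI'.exists_isBase
  obtain ⟨B, rfl⟩ := exists_coe_finset B'
  have hIB' : I = B ∩ X := by exact_mod_cast hIB
  have hBc : B.card = rk M := isBase_card hB
  -- J = B \ X
  have hJc : (B \ X).card = (X \ B).card := by
    have h1 := Finset.card_sdiff_add_card_inter B X
    have h2 := Finset.card_sdiff_add_card_inter X B
    rw [Finset.inter_comm X B] at h2
    omega
  have hJ2 : 2 ≤ (B \ X).card := by
    by_contra hlt
    have h01 : (B \ X).card = 0 ∨ (B \ X).card = 1 := by omega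
    rcases h01 with h | h
    · rw [Finset.card_eq_zero, Finset.sdiff_eq_empty_iff_subset] at h
      exact hXnb (isBase_of_subset_card hB h hXc)
    · refine hcon B ⟨by rw [hXc, hBc], ?_⟩ hB
      have h2 := Finset.card_sdiff_add_card_inter X B
      omega
  obtain ⟨y₁, hy₁, y₂, hy₂, hy12⟩ := Finset.one_lt_card.1 (by omega : 1 < (B \ X).card)
  have hXB : (X \ B).Nonempty := by
    rw [← Finset.card_pos]; omega
  obtain ⟨x₁, hx₁⟩ := hXB
  rw [Finset.mem_sdiff] at hy₁ hy₂ hx₁
  set A₀ : Finset α := (B.erase y₁).erase y₂ with hA₀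
  have hy₂' : y₂ ∈ B.erase y₁ := Finset.mem_erase.2 ⟨hy12.symm, hy₂.1⟩
  have hA₀c : A₀.card + 2 = rk M := by
    rw [hA₀, Finset.card_erase_of_mem hy₂', Finset.card_erase_of_mem hy₁.1, hBc]
    have := Finset.card_le_card (Finset.sdiff_subset : B \ X ⊆ B)
    omega
  have hIA : I ⊆ A₀ := by
    intro v hv
    rw [hIB', Finset.mem_inter] at hv
    refine Finset.mem_erase.2 ⟨?_, Finset.mem_erase.2 ⟨?_, hv.1⟩⟩
    · rintro rfl; exact hy₂.2 hv.2
    · rintro rfl; exact hy₁.2 hv.2
  have hA₀B : A₀ ⊆ B := (Finset.erase_subset _ _).trans (Finset.erase_subset _ _)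
  have hIX : I ⊆ X := by rw [hIB']; exact Finset.inter_subset_right
  have hx₁I : x₁ ∉ I := fun h => hx₁.2 (by rw [hIB'] at h; exact (Finset.mem_inter.1 h).1)
  have hx₁A : x₁ ∉ A₀ := fun h => hx₁.2 (hA₀B h)
  obtain ⟨D, hD⟩ := exists_coe_finset (M.fundCocircuit y₁ (B : Set α))
  have hDco : M.IsCocircuit (D : Set α) := by
    rw [hD]; exact fundCocircuit_isCocircuit (by exact_mod_cast hy₁.1) hB
  have hDB : D ∩ B = {y₁} := by
    have := M.fundCocircuit_inter_eq (B := (B : Set α)) (by exact_mod_cast hy₁.1)
    rw [← hD] at this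
    have h2 : ((D ∩ B : Finset α) : Set α) = (({y₁} : Finset α) : Set α) := by
      rw [Finset.coe_inter, this]; simp
    exact_mod_cast h2
  have hDA : Disjoint D A₀ := by
    rw [Finset.disjoint_left]
    intro v hv hvA
    have : v ∈ D ∩ B := Finset.mem_inter.2 ⟨hv, hA₀B hvA⟩
    rw [hDB, Finset.mem_singleton] at this
    subst this
    rw [hA₀, Finset.mem_erase, Finset.mem_erase] at hvA
    exact hvA.2.1 rfl
  have hDI : Disjoint D I := Finset.disjoint_of_subset_right hIA hDA
  have hDX : Disjoint D X := disjoint_of_isBasis hI' hDco hDI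
  have hDcard : d₀ < D.card := by
    by_contra hle
    exact hXu (Or.inr ⟨D, hg D hDco (by omega), hDX⟩)
  have hy₁D : y₁ ∈ D := by
    have : y₁ ∈ D ∩ B := by rw [hDB]; simp
    exact (Finset.mem_inter.1 this).1
  -- the sets Y_w
  have hdepI : M.Dep (insert x₁ (I : Set α)) :=
    hI'.insert_dep ⟨by exact_mod_cast hx₁.1, fun h => hx₁I (by exact_mod_cast h)⟩
  obtain ⟨C₁', hC₁sub, hC₁⟩ := hdepI.exists_isCircuit_subset
  obtain ⟨C₁, rfl⟩ := exists_coe_finset C₁'
  have key : ∀ w ∈ D, insert w (insert x₁ A₀) ∈ K1 M z := by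
    intro w hw
    have hwA : w ∉ A₀ := Finset.disjoint_left.1 hDA hw
    have hwX : w ∉ X := Finset.disjoint_left.1 hDX hw
    have hwx : w ≠ x₁ := fun h => hwX (h ▸ hx₁.1)
    have hind : M.Indep (insert w (A₀ : Set α)) := by
      by_contra hni
      have hd : M.Dep (insert w (A₀ : Set α)) := ⟨hni, by rw [hE]; exact Set.subset_univ _⟩
      obtain ⟨C', hCs, hC⟩ := hd.exists_isCircuit_subset
      obtain ⟨C, rfl⟩ := exists_coe_finset C'
      have hmem : ∀ v ∈ C, v = w ∨ v ∈ A₀ := by
        intro v hv
        rcases hCs (by exact_mod_cast hv : v ∈ (C : Set α)) with h | h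
        · exact Or.inl h
        · exact Or.inr (by exact_mod_cast h)
      apply circ_cocirc hC hDco w
      ext v
      simp only [Finset.mem_inter, Finset.mem_singleton]
      constructor
      · rintro ⟨h1, h2⟩
        rcases hmem v h1 with h | h
        · exact h
        · exact absurd h (Finset.disjoint_left.1 hDA h2)
      · rintro rfl
        refine ⟨?_, hw⟩
        by_contra hvC
        have : (C : Set α) ⊆ B := by
          intro u hu
          rcases hmem u (by exact_mod_cast hu) with h | h
          · exact absurd (by rw [← h]; exact_mod_cast hu) hvC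
          · exact_mod_cast hA₀B h
        exact hC.not_indep (hB.indep.subset this)
    have hcard : (insert w (insert x₁ A₀)).card = rk M := by
      rw [Finset.card_insert_of_notMem, Finset.card_insert_of_notMem hx₁A]
      · omega
      · rw [Finset.mem_insert]; exact not_or.2 ⟨hwx, hwA⟩
    have hnb : ¬ M.IsBase ((insert w (insert x₁ A₀) : Finset α) : Set α) := by
      intro hb
      apply hdepI.not_indep
      apply hb.indep.subset
      intro v hv
      rcases hv with h | h
      · rw [h]; simp
      · have : v ∈ A₀ := hIA (by exact_mod_cast h)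
        simp [this]
    have hind' : M.Indep ((insert w A₀ : Finset α) : Set α) := by
      rw [Finset.coe_insert]; exact hind
    rw [mem_K1, mem_Kunc]
    refine ⟨⟨hcard, hnb, ?_⟩, ?_⟩
    · rintro (⟨C, hC, hCsub⟩ | ⟨D', hD', hD'd⟩)
      · have hCc := hz.1 C hC
        have e1 : (C : Set α) = M.fundCircuit x₁ ((insert w A₀ : Finset α) : Set α) := by
          apply hCc.eq_fundCircuit_of_subset hind'
          intro v hv
          have h := hCsub (by exact_mod_cast hv : v ∈ C)
          rw [Finset.mem_insert, Finset.mem_insert] at h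
          rcases h with h | h | h
          · right; rw [h]; simp
          · left; exact h
          · right; simp [h]
        have e2 : (C₁ : Set α) = M.fundCircuit x₁ ((insert w A₀ : Finset α) : Set α) := by
          apply hC₁.eq_fundCircuit_of_subset hind'
          intro v hv
          rcases hC₁sub hv with h | h
          · left; exact h
          · right
            have : v ∈ A₀ := hIA (by exact_mod_cast h)
            simp [this]
        have e3 : C = C₁ := by
          have := e1.trans e2.symm
          exact_mod_cast this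
        apply hXu
        left
        refine ⟨C, hC, ?_⟩
        intro v hv
        rw [e3] at hv
        rcases hC₁sub (by exact_mod_cast hv : v ∈ (C₁ : Set α)) with h | h
        · rw [h]; exact hx₁.1
        · exact hIX (by exact_mod_cast h)
      · apply hXu
        right
        refine ⟨D', hD', disjoint_of_isBasis hI' (hz.2 D' hD') ?_⟩
        refine Finset.disjoint_of_subset_right ?_ hD'd
        intro v hv
        simp [hIA hv]
    · -- base neighbour
      obtain ⟨B₂', hB₂, hsub⟩ := hind'.exists_isBase_superset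
      obtain ⟨B₂, rfl⟩ := exists_coe_finset B₂'
      have hsub' : insert w A₀ ⊆ B₂ := by exact_mod_cast hsub
      refine ⟨B₂, ⟨by rw [hcard, isBase_card hB₂], ?_⟩, hB₂⟩
      have hc1 : (insert w A₀).card + 1 = rk M := by
        rw [Finset.card_insert_of_notMem hwA]; omega
      have hx₁B₂ : x₁ ∉ B₂ := by
        intro h
        apply hnb
        have : insert w (insert x₁ A₀) = B₂ := by
          apply Finset.eq_of_subset_of_card_le
          · intro v hv
            rw [Finset.mem_insert, Finset.mem_insert] at hv
            rcases hv with h' | h' | h'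
            · exact hsub' (by rw [h']; simp)
            · rw [h']; exact h
            · exact hsub' (by simp [h'])
          · rw [hcard, isBase_card hB₂]
        rw [this]; exact hB₂
      have : insert w (insert x₁ A₀) ∩ B₂ = insert w A₀ := by
        ext v
        simp only [Finset.mem_inter, Finset.mem_insert]
        constructor
        · rintro ⟨h | h | h, h2⟩
          · exact Or.inl h
          · exact absurd (h ▸ h2) hx₁B₂
          · exact Or.inr h
        · rintro (h | h)
          · exact ⟨Or.inl h, hsub' (by rw [h]; simp)⟩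
          · exact ⟨Or.inr (Or.inr h), hsub' (by simp [h])⟩
      rw [this, hc1, hcard]
  -- degree of Y_{y₁}
  have hdeg : D.card - 1 ≤ jdeg (K1 M z) (insert y₁ (insert x₁ A₀)) := by
    rw [jdeg, ← Finset.card_erase_of_mem hy₁D]
    refine Finset.card_le_card_of_injOn (fun w => insert w (insert x₁ A₀)) ?_ ?_
    · intro w hw
      rw [Finset.mem_coe, Finset.mem_erase] at hw
      rw [Finset.mem_coe, Finset.mem_filter]
      refine ⟨key w hw.2, ?_⟩
      have hy₁Y : y₁ ∉ insert x₁ A₀ := by
        rw [Finset.mem_insert]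
        refine not_or.2 ⟨fun h => hy₁.2 (h ▸ hx₁.1), Finset.disjoint_left.1 hDA hy₁D⟩
      have hwY : w ∉ insert y₁ (insert x₁ A₀) := by
        rw [Finset.mem_insert, Finset.mem_insert]
        refine not_or.2 ⟨hw.1, not_or.2 ⟨fun h => ?_, Finset.disjoint_left.1 hDA hw.2⟩⟩
        exact Finset.disjoint_left.1 hDX hw.2 (h ▸ hx₁.1)
      have := jadj_swap (Finset.mem_insert_self y₁ (insert x₁ A₀)) hwY
      rwa [Finset.erase_insert hy₁Y] at this
    · intro w hw w' hw' heq
      rw [Finset.mem_coe, Finset.mem_erase] at hw hw'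
      simp only at heq
      have h1 : w ∈ insert w' (insert x₁ A₀) := by rw [← heq]; simp
      rw [Finset.mem_insert, Finset.mem_insert] at h1
      rcases h1 with h | h | h
      · exact h
      · exact absurd (h ▸ hx₁.1) (Finset.disjoint_left.1 hDX hw.2)
      · exact absurd h (Finset.disjoint_left.1 hDA hw.2)
  have h1 := hstop _ (key y₁ hy₁D)
  omega

end Pool.Agent.Helper77
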